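import Mathlib
import Pool.Agent.H153R4.Pl
set_option autoImplicit false

/-!
# Directional regularity and the extension operator of the paraboloid, part 1

One dimensional Plancherel, chirps.
-/

namespace Pool.Agent.TH218.DR

open MeasureTheory Set Complex
open scoped ENNReal NNReal Real FourierTransform

/-- `e^{-is}` -/
noncomputable def ee (s : ℝ) : ℂ := cexp (-(I * (s : ℂ)))

lemma ee_norm (s : ℝ) : ‖ee s‖ = 1 := by
  unfold ee
  have : (-(I * (s : ℂ))) = ((-s : ℝ) : ℂ) * I := by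
    push_cast
    ring
  rw [this, Complex.norm_exp_ofReal_mul_I]

lemma ee_enorm (s : ℝ) : ‖ee s‖ₑ = 1 := by
  rw [← ofReal_norm, ee_norm, ENNReal.ofReal_one]

lemma ee_add (a b : ℝ) : ee (a + b) = ee a * ee b := by
  unfold ee
  rw [← Complex.exp_add]
  congr 1
  push_cast
  ring

lemma ee_cont : Continuous ee := by
  unfold ee
  fun_prop

lemma ee_meas : Measurable ee := ee_cont.measurable

/-- scaling of lower integrals on the line -/
lemma lint_mul (G : ℝ → ℝ≥0∞) (ρ : ℝ) (hρ : 0 < ρ) :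
    ∫⁻ t : ℝ, G (ρ * t) = ENNReal.ofReal ρ⁻¹ * ∫⁻ t : ℝ, G t := by
  have h4 : MeasurableEmbedding (fun t : ℝ => ρ * t) :=
    (Homeomorph.mulLeft₀ ρ hρ.ne').measurableEmbedding
  rw [← h4.lintegral_map, Real.map_volume_mul_left hρ.ne', lintegral_smul_measure, smul_eq_mul,
    abs_of_pos (by positivity)]

/-- Plancherel on the line -/
lemma pl1 (g : ℝ → ℂ) (h1 : Integrable g) (h2 : MemLp g 2) :
    ∫⁻ x : ℝ, ‖∫ u, ee (u * x) * g u‖ₑ ^ 2 = ENNReal.ofReal (2 * π) * ∫⁻ u, ‖g u‖ₑ ^ 2 := by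
  have h3 := Pool.Agent.H153R4.plancherel g h1 h2
  have e2 : ∀ ξ : ℝ, 𝓕 g ξ = ∫ u, ee (u * (2 * π * ξ)) * g u := by
    intro ξ
    rw [Real.fourier_eq' g ξ]
    congr 1
    ext u
    rw [smul_eq_mul]
    congr 1
    unfold ee
    congr 1
    simp
    ring
  rw [← h3]
  simp only [e2]
  have h5 := lint_mul (fun x : ℝ => ‖∫ u, ee (u * x) * g u‖ₑ ^ 2) (2 * π) (by positivity)
  rw [h5, ← mul_assoc, ← ENNReal.ofReal_mul (by positivity),
    mul_inv_cancel₀ (by positivity), ENNReal.ofReal_one, one_mul]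

end Pool.Agent.TH218.DR
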