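import Mathlib
import Pool.Agent.TH218.DR.A1
set_option autoImplicit false

/-!
# Directional regularity, part 2: integrals of chirps
-/

namespace Pool.Agent.TH218.DR

open MeasureTheory Set Complex
open scoped ENNReal NNReal Real FourierTransform

/-- bounded functions supported in a set of finite measure are in every `L^p` -/
lemma bs_memLp {X : Type*} [MeasurableSpace X] {μ : Measure X} (p : ℝ≥0∞) {S : Set X}
    (hS : MeasurableSet S) (hfin : μ S < ∞) {g : X → ℂ} (hg : Measurable g) {M : ℝ}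
    (hM : ∀ x, ‖g x‖ ≤ M) (hs : ∀ x, x ∉ S → g x = 0) : MemLp g p μ := by
  have e : g = S.indicator g := by
    ext x
    by_cases hx : x ∈ S
    · rw [indicator_of_mem hx]
    · rw [indicator_of_notMem hx, hs x hx]
  rw [e, memLp_indicator_iff_restrict hS]
  have : IsFiniteMeasure (μ.restrict S) := ⟨by simpa using hfin⟩
  exact MemLp.of_bound hg.aestronglyMeasurable M (Filter.Eventually.of_forall hM)

lemma bs_int {X : Type*} [MeasurableSpace X] {μ : Measure X} {S : Set X}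
    (hS : MeasurableSet S) (hfin : μ S < ∞) {g : X → ℂ} (hg : Measurable g) {M : ℝ}
    (hM : ∀ x, ‖g x‖ ≤ M) (hs : ∀ x, x ∉ S → g x = 0) : Integrable g μ :=
  memLp_one_iff_integrable.1 (bs_memLp 1 hS hfin hg hM hs)

lemma sq_deriv (u : ℝ) : HasDerivAt (fun u : ℝ => 2 * u ^ 2) (4 * u) u := by
  have h := (hasDerivAt_pow 2 u).const_mul (2 : ℝ)
  have e : (2 : ℝ) * (((2 : ℕ) : ℝ) * u ^ (2 - 1)) = 4 * u := by
    norm_num
    ring
  rw [e] at h
  exact h

lemma sq_inj (κ L : ℝ) (hκ : 0 < κ) : InjOn (fun u : ℝ => 2 * u ^ 2) (Ioc κ L) := by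
  intro a ha b hb h
  have h1 : a ^ 2 = b ^ 2 := by
    have : 2 * a ^ 2 = 2 * b ^ 2 := h
    linarith
  have ha0 : 0 < a := hκ.trans ha.1
  have hb0 : 0 < b := hκ.trans hb.1
  nlinarith [sq_nonneg (a - b), mul_pos ha0 hb0]

lemma sqrt_half {u : ℝ} (hu : 0 < u) : √(2 * u ^ 2 / 2) = u := by
  rw [mul_div_cancel_left₀ _ (by norm_num : (2 : ℝ) ≠ 0)]
  exact Real.sqrt_sq hu.le

/-- chirps on a half line away from the stationary point -/
lemma far_pos (κ L : ℝ) (hκ : 0 < κ) (ψ : ℝ → ℂ) (hψ : Measurable ψ) (M : ℝ)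
    (hM : ∀ u, ‖ψ u‖ ≤ M) :
    ∫⁻ t : ℝ, ‖∫ u in Ioc κ L, ee (2 * u ^ 2 * t) * ψ u‖ₑ ^ 2 =
      ENNReal.ofReal (2 * π) * ∫⁻ u in Ioc κ L, ‖ψ u‖ₑ ^ 2 * ENNReal.ofReal (1 / (4 * u)) := by
  classical
  set S := Ioc κ L with hS
  set f : ℝ → ℝ := fun u => 2 * u ^ 2 with hf
  have hmS : MeasurableSet S := measurableSet_Ioc
  have hd : ∀ u ∈ S, HasDerivWithinAt f (4 * u) S u := fun u _ => (sq_deriv u).hasDerivWithinAt
  have hi : InjOn f S := sq_inj κ L hκ
  have hmf : MeasurableSet (f '' S) :=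
    measurable_image_of_fderivWithin hmS (f' := fun u => (ContinuousLinearMap.toSpanSingleton ℝ (4 * u))) (fun u hu => (hd u hu).hasFDerivWithinAt) hi
  have hsub : f '' S ⊆ Icc (2 * κ ^ 2) (2 * L ^ 2) := by
    rintro _ ⟨u, hu, rfl⟩
    have h1 : κ < u := hu.1
    have h2 : u ≤ L := hu.2
    constructor
    · show 2 * κ ^ 2 ≤ 2 * u ^ 2
      nlinarith
    · show 2 * u ^ 2 ≤ 2 * L ^ 2
      nlinarith
  set G : ℝ → ℂ := fun l => ((1 / (4 * √(l / 2)) : ℝ) : ℂ) * ψ (√(l / 2)) with hG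
  have hGm : Measurable G := by
    rw [hG]
    fun_prop
  have hGf : ∀ u ∈ S, G (f u) = ((1 / (4 * u) : ℝ) : ℂ) * ψ u := by
    intro u hu
    have hu0 : 0 < u := hκ.trans hu.1
    have e : √(f u / 2) = u := sqrt_half hu0
    rw [hG]
    simp only [e]
  set g : ℝ → ℂ := (f '' S).indicator G with hg
  have hgm : Measurable g := hGm.indicator hmf
  have hM0 : 0 ≤ M := (norm_nonneg _).trans (hM 0)
  have hgb : ∀ l, ‖g l‖ ≤ 1 / (4 * κ) * M := by
    intro l
    by_cases hl : l ∈ f '' S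
    · rw [hg, indicator_of_mem hl]
      obtain ⟨u, hu, rfl⟩ := hl
      have hu0 : 0 < u := hκ.trans hu.1
      rw [hGf u hu, norm_mul, Complex.norm_real, Real.norm_of_nonneg (by positivity)]
      refine mul_le_mul ?_ (hM _) (norm_nonneg _) (by positivity)
      exact one_div_le_one_div_of_le (by positivity) (by linarith [hu.1])
    · rw [hg, indicator_of_notMem hl, norm_zero]
      positivity
  have hfin : volume (f '' S) < ∞ := (measure_mono hsub).trans_lt (by simp)
  have hg0 : ∀ l, l ∉ f '' S → g l = 0 := fun l hl => by rw [hg, indicator_of_notMem hl]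
  have hgi : Integrable g := bs_int hmf hfin hgm hgb hg0
  have hg2 : MemLp g 2 := bs_memLp 2 hmf hfin hgm hgb hg0
  have key := pl1 g hgi hg2
  have e1 : ∀ t : ℝ, ∫ u, ee (u * t) * g u = ∫ u in S, ee (2 * u ^ 2 * t) * ψ u := by
    intro t
    have h1 : ∫ u, ee (u * t) * g u = ∫ l in f '' S, ee (l * t) * G l := by
      rw [← integral_indicator hmf]
      congr 1
      ext l
      by_cases hl : l ∈ f '' S
      · rw [indicator_of_mem hl, hg, indicator_of_mem hl]
      · rw [indicator_of_notMem hl, hg0 l hl, mul_zero]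
    rw [h1, integral_image_eq_integral_abs_deriv_smul hmS hd hi]
    refine setIntegral_congr_fun hmS fun u hu => ?_
    have hu0 : 0 < u := hκ.trans hu.1
    rw [hGf u hu, abs_of_pos (by positivity), Complex.real_smul]
    have hc : ((4 * u : ℝ) : ℂ) * ((1 / (4 * u) : ℝ) : ℂ) = 1 := by
      rw [← Complex.ofReal_mul, mul_one_div_cancel (by positivity), Complex.ofReal_one]
    calc ((4 * u : ℝ) : ℂ) * (ee (f u * t) * (((1 / (4 * u) : ℝ) : ℂ) * ψ u))
        = (((4 * u : ℝ) : ℂ) * ((1 / (4 * u) : ℝ) : ℂ)) * (ee (f u * t) * ψ u) := by ring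
      _ = ee (2 * u ^ 2 * t) * ψ u := by rw [hc, one_mul]
  simp only [e1] at key
  rw [key]
  congr 1
  have h2 : ∫⁻ u, ‖g u‖ₑ ^ 2 = ∫⁻ l in f '' S, ‖G l‖ₑ ^ 2 := by
    rw [← lintegral_indicator hmf]
    congr 1
    ext l
    by_cases hl : l ∈ f '' S
    · rw [indicator_of_mem hl, hg, indicator_of_mem hl]
    · rw [indicator_of_notMem hl, hg0 l hl]
      simp
  rw [h2, lintegral_image_eq_lintegral_abs_deriv_mul hmS hd hi]
  refine setLIntegral_congr_fun hmS fun u hu => ?_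
  have hu0 : 0 < u := hκ.trans hu.1
  rw [hGf u hu, abs_of_pos (by positivity), enorm_mul, mul_pow, ← mul_assoc, mul_comm]
  congr 1
  rw [← ofReal_norm, Complex.norm_real, Real.norm_of_nonneg (by positivity),
    ← ENNReal.ofReal_pow (by positivity), ← ENNReal.ofReal_mul (by positivity)]
  congr 1
  field_simp

end Pool.Agent.TH218.DR
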