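import Mathlib
import Pool.Agent.TH218.DR.A2
set_option autoImplicit false

/-!
# Directional regularity, part 3: the kernel bound for chirps
-/

namespace Pool.Agent.TH218.DR

open MeasureTheory Set Complex
open scoped ENNReal NNReal Real FourierTransform

/-- Cauchy-Schwarz on a set -/
lemma cs_set {X : Type*} [MeasurableSpace X] {μ : Measure X} (S : Set X) {F : X → ℂ}
    (hF : Measurable F) :
    ‖∫ x in S, F x ∂μ‖ₑ ^ 2 ≤ μ S * ∫⁻ x in S, ‖F x‖ₑ ^ 2 ∂μ := by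
  have h1 : ‖∫ x in S, F x ∂μ‖ₑ ≤ ∫⁻ x in S, ‖F x‖ₑ ∂μ := enorm_integral_le_lintegral_enorm _
  have h2 := ENNReal.lintegral_mul_norm_pow_le (μ := μ.restrict S) (f := fun _ => (1 : ℝ≥0∞))
    (g := fun x => ‖F x‖ₑ ^ 2) (p := 1 / 2) (q := 1 / 2) aemeasurable_const
    (hF.enorm.pow_const 2).aemeasurable (by norm_num) (by norm_num) (by norm_num)
  have e1 : ∀ x, (1 : ℝ≥0∞) ^ (1 / 2 : ℝ) * (‖F x‖ₑ ^ 2) ^ (1 / 2 : ℝ) = ‖F x‖ₑ := by
    intro x
    rw [ENNReal.one_rpow, one_mul, ← ENNReal.rpow_natCast, ← ENNReal.rpow_mul]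
    norm_num
  simp only [e1] at h2
  have h3 : ‖∫ x in S, F x ∂μ‖ₑ ^ 2 ≤ ((∫⁻ _ in S, (1 : ℝ≥0∞) ∂μ) ^ (1 / 2 : ℝ) *
      (∫⁻ x in S, ‖F x‖ₑ ^ 2 ∂μ) ^ (1 / 2 : ℝ)) ^ 2 := by gcongr; exact h1.trans h2
  refine h3.trans (le_of_eq ?_)
  rw [mul_pow, ← ENNReal.rpow_natCast, ← ENNReal.rpow_natCast, ← ENNReal.rpow_mul,
    ← ENNReal.rpow_mul]
  norm_num

/-- the kernel -/
noncomputable def kk (T u : ℝ) : ℝ≥0∞ := if |u| ≤ T⁻¹ then 12 else ENNReal.ofReal (5 / |u|)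

lemma kk_meas (T : ℝ) : Measurable (kk T) := by
  unfold kk
  refine Measurable.ite ?_ measurable_const ?_
  · exact measurableSet_le measurable_norm measurable_const
  · exact ENNReal.measurable_ofReal.comp (measurable_const.div measurable_norm)

lemma three_sq (a b c : ℝ≥0∞) : (a + b + c) ^ 2 ≤ 3 * (a ^ 2 + b ^ 2 + c ^ 2) := by
  by_cases h : a = ∞ ∨ b = ∞ ∨ c = ∞
  · rcases h with h | h | h <;> subst h <;> simp
  · push Not at h
    obtain ⟨ha, hb, hc⟩ := h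
    lift a to ℝ≥0 using ha
    lift b to ℝ≥0 using hb
    lift c to ℝ≥0 using hc
    norm_cast
    rw [← NNReal.coe_le_coe]
    push_cast
    nlinarith [sq_nonneg ((a : ℝ) - b), sq_nonneg ((b : ℝ) - c), sq_nonneg ((a : ℝ) - c)]

lemma chirp0 (T L : ℝ) (hT : 0 < T) (ψ : ℝ → ℂ) (hψ : Measurable ψ) (M : ℝ)
    (hM : ∀ u, ‖ψ u‖ ≤ M) (hL : ∀ u, ψ u ≠ 0 → |u| ≤ L) :
    ∫⁻ t in Icc (-T) T, ‖∫ u, ee (2 * u ^ 2 * t) * ψ u‖ₑ ^ 2 ≤ ∫⁻ u, kk T u * ‖ψ u‖ₑ ^ 2 := by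
  set κ := T⁻¹ with hκ
  have hκ0 : 0 < κ := inv_pos.2 hT
  set A := Icc (-κ) κ with hA
  set B := Ioc κ L with hB
  set C := Ico (-L) (-κ) with hC
  have hmA : MeasurableSet A := measurableSet_Icc
  have hmB : MeasurableSet B := measurableSet_Ioc
  have hmC : MeasurableSet C := measurableSet_Ico
  have hF : ∀ t, Measurable (fun u => ee (2 * u ^ 2 * t) * ψ u) := by
    intro t
    have := ee_meas
    fun_prop
  have hFi : ∀ t, Integrable (fun u => ee (2 * u ^ 2 * t) * ψ u) := by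
    intro t
    refine bs_int (S := Icc (-L) L) measurableSet_Icc (by simp) (hF t) (M := M) ?_ ?_
    · intro u
      rw [norm_mul, ee_norm, one_mul]
      exact hM u
    · intro u hu
      have : ψ u = 0 := by
        by_contra h
        exact hu (abs_le.1 (hL u h))
      rw [this, mul_zero]
  have split : ∀ G : ℝ → ℂ, Integrable G → (∀ u, G u ≠ 0 → |u| ≤ L) →
      ∫ u, G u = (∫ u in A, G u) + (∫ u in B, G u) + ∫ u in C, G u := by
    intro G hG hGL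
    rw [← integral_indicator hmA, ← integral_indicator hmB, ← integral_indicator hmC]
    have i1 : Integrable (A.indicator G) := hG.indicator hmA
    have i2 : Integrable (B.indicator G) := hG.indicator hmB
    have i3 : Integrable (C.indicator G) := hG.indicator hmC
    have i4 : Integrable (fun u => A.indicator G u + B.indicator G u) := i1.add i2
    rw [← integral_add i1 i2, ← integral_add i4 i3]
    congr 1
    ext u
    by_cases h0 : G u = 0
    · simp [indicator, h0]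
    · have h1 := abs_le.1 (hGL u h0)
      simp only [indicator, hA, hB, hC, mem_Icc, mem_Ioc, mem_Ico]
      by_cases h2 : u ≤ κ
      · by_cases h3 : -κ ≤ u
        · have h4 : ¬ (κ < u ∧ u ≤ L) := fun h => absurd h.1 (not_lt.2 h2)
          have h5 : ¬ (-L ≤ u ∧ u < -κ) := fun h => absurd h.2 (not_lt.2 h3)
          simp [h2, h3, h4, h5]
        · have h3' : u < -κ := not_le.1 h3
          have h4 : ¬ (κ < u ∧ u ≤ L) := fun h => absurd h.1 (not_lt.2 h2)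
          have h6 : ¬ (-κ ≤ u ∧ u ≤ κ) := fun h => h3 h.1
          simp only [h4, h6, if_false, zero_add, h1.1, h3', and_self, if_true]
      · have h2' : κ < u := not_le.1 h2
        have h5 : ¬ (-L ≤ u ∧ u < -κ) := fun h => by linarith [h.2]
        have h6 : ¬ (-κ ≤ u ∧ u ≤ κ) := fun h => h2 h.2
        simp only [h5, h6, if_false, zero_add, add_zero, h1.2, h2', and_self, if_true]
  -- the three pieces
  have nA : ∫⁻ t in Icc (-T) T, ‖∫ u in A, ee (2 * u ^ 2 * t) * ψ u‖ₑ ^ 2 ≤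
      4 * ∫⁻ u in A, ‖ψ u‖ₑ ^ 2 := by
    have h1 : ∀ t, ‖∫ u in A, ee (2 * u ^ 2 * t) * ψ u‖ₑ ^ 2 ≤
        ENNReal.ofReal (2 * κ) * ∫⁻ u in A, ‖ψ u‖ₑ ^ 2 := by
      intro t
      refine (cs_set A (hF t)).trans (le_of_eq ?_)
      have : volume A = ENNReal.ofReal (2 * κ) := by
        rw [hA, Real.volume_Icc]
        congr 1
        ring
      rw [this]
      congr 1
      refine lintegral_congr fun u => ?_
      rw [enorm_mul, ee_enorm, one_mul]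
    calc ∫⁻ t in Icc (-T) T, ‖∫ u in A, ee (2 * u ^ 2 * t) * ψ u‖ₑ ^ 2
        ≤ ∫⁻ t in Icc (-T) T, ENNReal.ofReal (2 * κ) * ∫⁻ u in A, ‖ψ u‖ₑ ^ 2 :=
          lintegral_mono fun t => h1 t
      _ = ENNReal.ofReal (2 * κ) * (∫⁻ u in A, ‖ψ u‖ₑ ^ 2) * ENNReal.ofReal (2 * T) := by
          rw [lintegral_const, Measure.restrict_apply_univ, Real.volume_Icc]
          congr 2
          ring
      _ = 4 * ∫⁻ u in A, ‖ψ u‖ₑ ^ 2 := by
          rw [mul_right_comm, ← ENNReal.ofReal_mul (by positivity)]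
          congr 1
          have : 2 * κ * (2 * T) = 4 := by
            rw [hκ]
            field_simp
            norm_num
          rw [this]
          norm_num
  have nB : ∫⁻ t in Icc (-T) T, ‖∫ u in B, ee (2 * u ^ 2 * t) * ψ u‖ₑ ^ 2 ≤
      ENNReal.ofReal (2 * π) * ∫⁻ u in B, ‖ψ u‖ₑ ^ 2 * ENNReal.ofReal (1 / (4 * u)) :=
    (setLIntegral_le_lintegral _ _).trans (far_pos κ L hκ0 ψ hψ M hM).le
  have refl : ∀ G : ℝ → ℂ, ∫ u in C, G u = ∫ u in B, G (-u) := by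
    intro G
    rw [← integral_indicator hmC, ← integral_indicator hmB,
      ← integral_neg_eq_self (C.indicator G)]
    congr 1
    ext u
    have : (-u ∈ C) ↔ u ∈ B := by
      rw [hC, hB, mem_Ico, mem_Ioc]
      constructor
      · rintro ⟨h1, h2⟩
        exact ⟨by linarith, by linarith⟩
      · rintro ⟨h1, h2⟩
        exact ⟨by linarith, by linarith⟩
    by_cases h : u ∈ B
    · rw [indicator_of_mem h, indicator_of_mem (this.2 h)]
    · rw [indicator_of_notMem h, indicator_of_notMem (fun h' => h (this.1 h'))]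
  have reflL : ∀ G : ℝ → ℝ≥0∞, ∫⁻ u in C, G u = ∫⁻ u in B, G (-u) := by
    intro G
    rw [← lintegral_indicator hmC, ← lintegral_indicator hmB,
      ← lintegral_neg_eq_self (C.indicator G)]
    congr 1
    ext u
    have : (-u ∈ C) ↔ u ∈ B := by
      rw [hC, hB, mem_Ico, mem_Ioc]
      constructor
      · rintro ⟨h1, h2⟩
        exact ⟨by linarith, by linarith⟩
      · rintro ⟨h1, h2⟩
        exact ⟨by linarith, by linarith⟩
    by_cases h : u ∈ B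
    · rw [indicator_of_mem h, indicator_of_mem (this.2 h)]
    · rw [indicator_of_notMem h, indicator_of_notMem (fun h' => h (this.1 h'))]
  have nC : ∫⁻ t in Icc (-T) T, ‖∫ u in C, ee (2 * u ^ 2 * t) * ψ u‖ₑ ^ 2 ≤
      ENNReal.ofReal (2 * π) * ∫⁻ u in C, ‖ψ u‖ₑ ^ 2 * ENNReal.ofReal (1 / (4 * |u|)) := by
    simp only [refl, reflL]
    refine (setLIntegral_le_lintegral _ _).trans (le_of_eq ?_)
    have := far_pos κ L hκ0 (fun u => ψ (-u)) (hψ.comp measurable_neg) M (fun u => hM _)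
    simp only [neg_sq, abs_neg] at this ⊢
    rw [this]
    congr 1
    refine setLIntegral_congr_fun hmB fun u hu => ?_
    have hu0 : 0 < u := hκ0.trans hu.1
    rw [abs_of_pos hu0]
  have tot : ∫⁻ t in Icc (-T) T, ‖∫ u, ee (2 * u ^ 2 * t) * ψ u‖ₑ ^ 2 ≤
      3 * ((4 * ∫⁻ u in A, ‖ψ u‖ₑ ^ 2) +
        (ENNReal.ofReal (2 * π) * ∫⁻ u in B, ‖ψ u‖ₑ ^ 2 * ENNReal.ofReal (1 / (4 * u))) +
        (ENNReal.ofReal (2 * π) * ∫⁻ u in C, ‖ψ u‖ₑ ^ 2 * ENNReal.ofReal (1 / (4 * |u|)))) := by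
    have hme : ∀ S : Set ℝ, Measurable (fun t => ‖∫ u in S, ee (2 * u ^ 2 * t) * ψ u‖ₑ ^ 2) := by
      intro S
      have hm : StronglyMeasurable (fun p : ℝ × ℝ => ee (2 * p.2 ^ 2 * p.1) * ψ p.2) := by
        apply Measurable.stronglyMeasurable
        have := ee_meas
        fun_prop
      exact ((hm.integral_prod_right' (ν := volume.restrict S)).measurable.enorm).pow_const 2
    calc ∫⁻ t in Icc (-T) T, ‖∫ u, ee (2 * u ^ 2 * t) * ψ u‖ₑ ^ 2
        ≤ ∫⁻ t in Icc (-T) T, 3 * (‖∫ u in A, ee (2 * u ^ 2 * t) * ψ u‖ₑ ^ 2 +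
            ‖∫ u in B, ee (2 * u ^ 2 * t) * ψ u‖ₑ ^ 2 +
            ‖∫ u in C, ee (2 * u ^ 2 * t) * ψ u‖ₑ ^ 2) := by
          refine lintegral_mono fun t => ?_
          rw [split _ (hFi t)]
          · refine le_trans ?_ (three_sq _ _ _)
            gcongr
            refine (enorm_add_le _ _).trans ?_
            gcongr
            exact enorm_add_le _ _
          · intro u hu
            exact hL u (right_ne_zero_of_mul hu)
      _ = 3 * ((∫⁻ t in Icc (-T) T, ‖∫ u in A, ee (2 * u ^ 2 * t) * ψ u‖ₑ ^ 2) +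
            (∫⁻ t in Icc (-T) T, ‖∫ u in B, ee (2 * u ^ 2 * t) * ψ u‖ₑ ^ 2) +
            ∫⁻ t in Icc (-T) T, ‖∫ u in C, ee (2 * u ^ 2 * t) * ψ u‖ₑ ^ 2) := by
          have m4 : Measurable (fun t => ‖∫ u in A, ee (2 * u ^ 2 * t) * ψ u‖ₑ ^ 2 +
            ‖∫ u in B, ee (2 * u ^ 2 * t) * ψ u‖ₑ ^ 2) := (hme A).add (hme B)
          have m5 : Measurable (fun t => ‖∫ u in A, ee (2 * u ^ 2 * t) * ψ u‖ₑ ^ 2 +
            ‖∫ u in B, ee (2 * u ^ 2 * t) * ψ u‖ₑ ^ 2 +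
            ‖∫ u in C, ee (2 * u ^ 2 * t) * ψ u‖ₑ ^ 2) := m4.add (hme C)
          rw [lintegral_const_mul _ m5, lintegral_add_left m4, lintegral_add_left (hme A)]
      _ ≤ _ := by gcongr
  refine tot.trans ?_
  -- compare with the kernel
  have hk : ∀ S : Set ℝ, Measurable fun u => kk T u * ‖ψ u‖ₑ ^ 2 := fun _ =>
    (kk_meas T).mul (hψ.enorm.pow_const 2)
  have pA : 3 * (4 * ∫⁻ u in A, ‖ψ u‖ₑ ^ 2) ≤ ∫⁻ u in A, kk T u * ‖ψ u‖ₑ ^ 2 := by
    rw [← mul_assoc, ← lintegral_const_mul _ (hψ.enorm.pow_const 2)]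
    refine setLIntegral_mono' hmA fun u hu => ?_
    gcongr
    rw [kk, if_pos (abs_le.2 hu)]
    norm_num
  have hpi : 3 * (2 * π) / 4 ≤ 5 := by
    have := Real.pi_lt_d2
    linarith
  have cmp : ∀ u : ℝ, κ < |u| → 3 * (ENNReal.ofReal (2 * π) * ENNReal.ofReal (1 / (4 * |u|))) ≤
      kk T u := by
    intro u hu
    have h0 : 0 < |u| := hκ0.trans hu
    rw [kk, if_neg (not_le.2 hu)]
    have : (3 : ℝ≥0∞) = ENNReal.ofReal 3 := by norm_num
    rw [this, ← ENNReal.ofReal_mul (by positivity), ← ENNReal.ofReal_mul (by positivity)]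
    apply ENNReal.ofReal_le_ofReal
    calc 3 * (2 * π * (1 / (4 * |u|))) = (3 * (2 * π) / 4) / |u| := by
          field_simp
      _ ≤ 5 / |u| := by gcongr
  have pB : 3 * (ENNReal.ofReal (2 * π) * ∫⁻ u in B, ‖ψ u‖ₑ ^ 2 * ENNReal.ofReal (1 / (4 * u))) ≤
      ∫⁻ u in B, kk T u * ‖ψ u‖ₑ ^ 2 := by
    rw [← mul_assoc, ← lintegral_const_mul _ (by fun_prop)]
    refine setLIntegral_mono' hmB fun u hu => ?_
    have hu0 : 0 < u := hκ0.trans hu.1
    have hc := cmp u (by rw [abs_of_pos hu0]; exact hu.1)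
    rw [abs_of_pos hu0] at hc
    calc 3 * ENNReal.ofReal (2 * π) * (‖ψ u‖ₑ ^ 2 * ENNReal.ofReal (1 / (4 * u)))
        = (3 * (ENNReal.ofReal (2 * π) * ENNReal.ofReal (1 / (4 * u)))) * ‖ψ u‖ₑ ^ 2 := by ring
      _ ≤ _ := by gcongr
  have pC : 3 * (ENNReal.ofReal (2 * π) * ∫⁻ u in C, ‖ψ u‖ₑ ^ 2 * ENNReal.ofReal (1 / (4 * |u|))) ≤
      ∫⁻ u in C, kk T u * ‖ψ u‖ₑ ^ 2 := by
    rw [← mul_assoc, ← lintegral_const_mul _ (by fun_prop)]
    refine setLIntegral_mono' hmC fun u hu => ?_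
    have hu0 : u < 0 := by
      have := hu.2
      linarith
    have hc := cmp u (by rw [abs_of_neg hu0]; linarith [hu.2])
    calc 3 * ENNReal.ofReal (2 * π) * (‖ψ u‖ₑ ^ 2 * ENNReal.ofReal (1 / (4 * |u|)))
        = (3 * (ENNReal.ofReal (2 * π) * ENNReal.ofReal (1 / (4 * |u|)))) * ‖ψ u‖ₑ ^ 2 := by ring
      _ ≤ _ := by gcongr
  have hAB : Disjoint A B := by
    rw [Set.disjoint_left]
    intro u h1 h2
    exact absurd h2.1 (not_lt.2 h1.2)
  have hABC : Disjoint (A ∪ B) C := by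
    rw [Set.disjoint_left]
    rintro u (h1 | h1) h2
    · exact absurd h2.2 (not_lt.2 h1.1)
    · have := h1.1
      have := h2.2
      linarith
  calc _ = 3 * (4 * ∫⁻ u in A, ‖ψ u‖ₑ ^ 2) +
        3 * (ENNReal.ofReal (2 * π) * ∫⁻ u in B, ‖ψ u‖ₑ ^ 2 * ENNReal.ofReal (1 / (4 * u))) +
        3 * (ENNReal.ofReal (2 * π) * ∫⁻ u in C, ‖ψ u‖ₑ ^ 2 * ENNReal.ofReal (1 / (4 * |u|))) := by
        ring
    _ ≤ (∫⁻ u in A, kk T u * ‖ψ u‖ₑ ^ 2) + (∫⁻ u in B, kk T u * ‖ψ u‖ₑ ^ 2) +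
        ∫⁻ u in C, kk T u * ‖ψ u‖ₑ ^ 2 := by gcongr
    _ = ∫⁻ u in (A ∪ B) ∪ C, kk T u * ‖ψ u‖ₑ ^ 2 := by
        rw [lintegral_union hmC hABC, lintegral_union hmB hAB]
    _ ≤ _ := setLIntegral_le_lintegral _ _

/-- **The kernel bound for chirps.** -/
lemma chirp (T A : ℝ) (hT : 0 < T) (c : ℝ) (φ : ℝ → ℂ) (hφ : Measurable φ) (M : ℝ)
    (hM : ∀ u, ‖φ u‖ ≤ M) (hA : ∀ u, φ u ≠ 0 → |u| ≤ A) :
    ∫⁻ t in Icc (-T) T, ‖∫ x, ee (2 * (x - c) ^ 2 * t) * φ x‖ₑ ^ 2 ≤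
      ∫⁻ x, kk T (x - c) * ‖φ x‖ₑ ^ 2 := by
  have h := chirp0 T (A + |c|) hT (fun u => φ (u + c)) (hφ.comp (measurable_id.add_const c)) M
    (fun u => hM _) (by
      intro u hu
      have h1 := hA _ hu
      calc |u| = |(u + c) - c| := by ring_nf
        _ ≤ |u + c| + |c| := abs_sub _ _
        _ ≤ A + |c| := by gcongr)
  have e1 : ∀ t : ℝ, ∫ x, ee (2 * (x - c) ^ 2 * t) * φ x =
      ∫ u, ee (2 * u ^ 2 * t) * φ (u + c) := by
    intro t
    rw [← integral_add_right_eq_self (fun x => ee (2 * (x - c) ^ 2 * t) * φ x) c]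
    simp only [add_sub_cancel_right]
  have e2 : ∫⁻ x, kk T (x - c) * ‖φ x‖ₑ ^ 2 = ∫⁻ u, kk T u * ‖φ (u + c)‖ₑ ^ 2 := by
    rw [← lintegral_add_right_eq_self (fun x => kk T (x - c) * ‖φ x‖ₑ ^ 2) c]
    simp only [add_sub_cancel_right]
  simp only [e1, e2]
  exact h

end Pool.Agent.TH218.DR
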