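import Mathlib
import Pool.Agent.TH218.DR.A3
set_option autoImplicit false

/-!
# Directional regularity, part 4: Plancherel and convolution on the plane
-/

namespace Pool.Agent.TH218.DR

open MeasureTheory Set Complex
open scoped ENNReal NNReal Real FourierTransform

/-- bounded measurable functions supported in a box -/
structure Nice (f : ℝ × ℝ → ℂ) (L M : ℝ) : Prop where
  meas : Measurable f
  bd : ∀ z, ‖f z‖ ≤ M
  supp : ∀ z, f z ≠ 0 → |z.1| ≤ L ∧ |z.2| ≤ L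

/-- the box -/
def box (L : ℝ) : Set (ℝ × ℝ) := Icc (-L) L ×ˢ Icc (-L) L

lemma box_meas (L : ℝ) : MeasurableSet (box L) := measurableSet_Icc.prod measurableSet_Icc

lemma box_fin (L : ℝ) : volume (box L) < ∞ := by
  unfold box
  rw [Measure.volume_eq_prod, Measure.prod_prod]
  exact ENNReal.mul_lt_top (by simp) (by simp)

lemma Nice.off {f : ℝ × ℝ → ℂ} {L M : ℝ} (h : Nice f L M) (z : ℝ × ℝ) (hz : z ∉ box L) :
    f z = 0 := by
  by_contra h0
  have := h.supp z h0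
  exact hz ⟨abs_le.1 this.1, abs_le.1 this.2⟩

lemma Nice.M0 {f : ℝ × ℝ → ℂ} {L M : ℝ} (h : Nice f L M) : 0 ≤ M :=
  (norm_nonneg _).trans (h.bd 0)

lemma Nice.memLp {f : ℝ × ℝ → ℂ} {L M : ℝ} (h : Nice f L M) (p : ℝ≥0∞) : MemLp f p :=
  bs_memLp p (box_meas L) (box_fin L) h.meas h.bd h.off

lemma Nice.int {f : ℝ × ℝ → ℂ} {L M : ℝ} (h : Nice f L M) : Integrable f :=
  bs_int (box_meas L) (box_fin L) h.meas h.bd h.off

lemma Nice.mul {f : ℝ × ℝ → ℂ} {L M : ℝ} (h : Nice f L M) {a : ℝ × ℝ → ℂ} (ha : Measurable a)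
    {A : ℝ} (hA : ∀ z, f z ≠ 0 → ‖a z‖ ≤ A) (hA0 : 0 ≤ A) : Nice (fun z => a z * f z) L (A * M) where
  meas := ha.mul h.meas
  bd z := by
    by_cases h0 : f z = 0
    · rw [h0, mul_zero, norm_zero]
      exact mul_nonneg hA0 h.M0
    · rw [norm_mul]
      exact mul_le_mul (hA z h0) (h.bd z) (norm_nonneg _) hA0
  supp z hz := h.supp z (right_ne_zero_of_mul hz)

/-- Fourier transform on the plane -/
noncomputable def FT (f : ℝ × ℝ → ℂ) (ξ η : ℝ) : ℂ := ∫ z : ℝ × ℝ, ee (z.1 * ξ + z.2 * η) * f z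

/-- the extension operator -/
noncomputable def EX (f : ℝ × ℝ → ℂ) (ξ η t : ℝ) : ℂ :=
  ∫ z : ℝ × ℝ, ee (z.1 * ξ + z.2 * η + (z.1 ^ 2 + z.2 ^ 2) * t) * f z

/-- multiplication by a chirp -/
noncomputable def gt (f : ℝ × ℝ → ℂ) (t : ℝ) (z : ℝ × ℝ) : ℂ := ee ((z.1 ^ 2 + z.2 ^ 2) * t) * f z

lemma EX_eq (f : ℝ × ℝ → ℂ) (ξ η t : ℝ) : EX f ξ η t = FT (gt f t) ξ η := by
  unfold EX FT gt
  congr 1
  ext z
  rw [ee_add]
  ring

lemma gt_enorm (f : ℝ × ℝ → ℂ) (t : ℝ) (z : ℝ × ℝ) : ‖gt f t z‖ₑ = ‖f z‖ₑ := by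
  unfold gt
  rw [enorm_mul, ee_enorm, one_mul]

lemma gt_nice {f : ℝ × ℝ → ℂ} {L M : ℝ} (h : Nice f L M) (t : ℝ) : Nice (gt f t) L M := by
  have := h.mul (a := fun z => ee ((z.1 ^ 2 + z.2 ^ 2) * t)) (by have := ee_meas; fun_prop)
    (A := 1) (fun z _ => (ee_norm _).le) zero_le_one
  rw [one_mul] at this
  exact this

lemma Nice.slice_y {f : ℝ × ℝ → ℂ} {L M : ℝ} (h : Nice f L M) (x : ℝ) (y : ℝ)
    (hy : y ∉ Icc (-L) L) : f (x, y) = 0 := h.off _ (fun h' => hy h'.2)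

lemma Nice.slice_x {f : ℝ × ℝ → ℂ} {L M : ℝ} (h : Nice f L M) (x : ℝ) (y : ℝ)
    (hx : x ∉ Icc (-L) L) : f (x, y) = 0 := h.off _ (fun h' => hx h'.1)

/-- partial Fourier transform in `x` -/
noncomputable def PX (f : ℝ × ℝ → ℂ) (ξ y : ℝ) : ℂ := ∫ x : ℝ, ee (x * ξ) * f (x, y)

lemma PX_meas {f : ℝ × ℝ → ℂ} {L M : ℝ} (h : Nice f L M) :
    Measurable (fun p : ℝ × ℝ => PX f p.1 p.2) := by
  have hm : StronglyMeasurable (fun q : (ℝ × ℝ) × ℝ => ee (q.2 * q.1.1) * f (q.2, q.1.2)) := by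
    apply Measurable.stronglyMeasurable
    have h1 := ee_meas
    have h2 := h.meas
    fun_prop
  exact (hm.integral_prod_right' (ν := (volume : Measure ℝ))).measurable

lemma FT_eq {f : ℝ × ℝ → ℂ} {L M : ℝ} (h : Nice f L M) (ξ η : ℝ) :
    FT f ξ η = ∫ y : ℝ, ee (y * η) * PX f ξ y := by
  unfold FT PX
  have h1 : Nice (fun z : ℝ × ℝ => ee (z.1 * ξ + z.2 * η) * f z) L (1 * M) :=
    h.mul (by have := ee_meas; fun_prop) (fun z _ => (ee_norm _).le) zero_le_one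
  have h2 := h1.int
  rw [Measure.volume_eq_prod] at h2 ⊢
  rw [integral_prod_symm _ h2]
  congr 1
  ext y
  rw [← integral_const_mul]
  congr 1
  ext x
  rw [ee_add]
  ring

lemma PX_bd {f : ℝ × ℝ → ℂ} {L M : ℝ} (h : Nice f L M) (hL : 0 ≤ L) (ξ y : ℝ) :
    ‖PX f ξ y‖ ≤ M * (2 * L) := by
  unfold PX
  have e : ∫ x : ℝ, ee (x * ξ) * f (x, y) = ∫ x in Icc (-L) L, ee (x * ξ) * f (x, y) := by
    symm
    apply setIntegral_eq_integral_of_forall_compl_eq_zero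
    intro x hx
    rw [h.slice_x x y hx, mul_zero]
  rw [e]
  have := norm_setIntegral_le_of_norm_le_const (μ := volume) (s := Icc (-L) L) (C := M)
    (f := fun x => ee (x * ξ) * f (x, y)) (by simp) (fun x _ => by
      rw [norm_mul, ee_norm, one_mul]
      exact h.bd _)
  refine this.trans (le_of_eq ?_)
  rw [Measure.real, Real.volume_Icc, ENNReal.toReal_ofReal (by linarith)]
  ring

/-- Plancherel on the plane -/
lemma pl2 {f : ℝ × ℝ → ℂ} {L M : ℝ} (h : Nice f L M) (hL : 0 ≤ L) :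
    ∫⁻ ξ : ℝ, ∫⁻ η : ℝ, ‖FT f ξ η‖ₑ ^ 2 = ENNReal.ofReal ((2 * π) ^ 2) * ∫⁻ z, ‖f z‖ₑ ^ 2 := by
  have hpi : (0 : ℝ) ≤ 2 * π := by positivity
  have s1 : ∀ ξ : ℝ, ∫⁻ η : ℝ, ‖FT f ξ η‖ₑ ^ 2 =
      ENNReal.ofReal (2 * π) * ∫⁻ y, ‖PX f ξ y‖ₑ ^ 2 := by
    intro ξ
    simp only [FT_eq h]
    have m0 : Measurable (fun y : ℝ => ((ξ, y) : ℝ × ℝ)) := by fun_prop
    have m : Measurable (fun y => PX f ξ y) := by
      have m1 := (PX_meas h).comp m0
      simpa only [Function.comp_def] using m1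
    have z : ∀ y, y ∉ Icc (-L) L → PX f ξ y = 0 := by
      intro y hy
      unfold PX
      simp only [h.slice_y _ y hy, mul_zero, integral_zero]
    exact pl1 (fun y => PX f ξ y)
      (bs_int measurableSet_Icc (by simp) m (PX_bd h hL ξ) z)
      (bs_memLp 2 measurableSet_Icc (by simp) m (PX_bd h hL ξ) z)
  simp only [s1]
  rw [lintegral_const_mul' _ _ ENNReal.ofReal_ne_top]
  rw [lintegral_lintegral_swap (((PX_meas h).enorm.pow_const 2).aemeasurable)]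
  have s2 : ∀ y : ℝ, ∫⁻ ξ : ℝ, ‖PX f ξ y‖ₑ ^ 2 = ENNReal.ofReal (2 * π) * ∫⁻ x, ‖f (x, y)‖ₑ ^ 2 := by
    intro y
    unfold PX
    have m0 : Measurable (fun x : ℝ => ((x, y) : ℝ × ℝ)) := by fun_prop
    have m : Measurable (fun x => f (x, y)) := h.meas.comp m0
    exact pl1 (fun x => f (x, y))
      (bs_int measurableSet_Icc (by simp) m (fun x => h.bd _) (fun x hx => h.slice_x x y hx))
      (bs_memLp 2 measurableSet_Icc (by simp) m (fun x => h.bd _) (fun x hx => h.slice_x x y hx))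
  simp only [s2]
  rw [lintegral_const_mul' _ _ ENNReal.ofReal_ne_top, ← mul_assoc, ← ENNReal.ofReal_mul hpi, ← pow_two]
  congr 1
  rw [Measure.volume_eq_prod, lintegral_prod_symm' _ (h.meas.enorm.pow_const 2)]

/-- convolution -/
noncomputable def cv (F G : ℝ × ℝ → ℂ) (w : ℝ × ℝ) : ℂ := ∫ z : ℝ × ℝ, F z * G (w - z)

lemma cv_meas {F G : ℝ × ℝ → ℂ} (hF : Measurable F) (hG : Measurable G) : Measurable (cv F G) := by
  have hm : StronglyMeasurable (fun q : (ℝ × ℝ) × (ℝ × ℝ) => F q.2 * G (q.1 - q.2)) := by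
    apply Measurable.stronglyMeasurable
    fun_prop
  exact (hm.integral_prod_right' (ν := (volume : Measure (ℝ × ℝ)))).measurable

lemma box_sub {L : ℝ} {z w : ℝ × ℝ} (h1 : z ∈ box L) (h2 : w - z ∈ box L) : w ∈ box (2 * L) := by
  obtain ⟨⟨a1, a2⟩, a3, a4⟩ := h1
  obtain ⟨⟨b1, b2⟩, b3, b4⟩ := h2
  simp only [Prod.fst_sub, Prod.snd_sub] at b1 b2 b3 b4
  exact ⟨⟨by linarith, by linarith⟩, by linarith, by linarith⟩

lemma cv_nice {F G : ℝ × ℝ → ℂ} {L M N : ℝ} (hF : Nice F L M) (hG : Nice G L N) :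
    Nice (cv F G) (2 * L) (M * N * (volume (box L)).toReal) where
  meas := cv_meas hF.meas hG.meas
  bd w := by
    unfold cv
    have e : ∫ z : ℝ × ℝ, F z * G (w - z) = ∫ z in box L, F z * G (w - z) := by
      symm
      apply setIntegral_eq_integral_of_forall_compl_eq_zero
      intro z hz
      rw [hF.off z hz, zero_mul]
    rw [e]
    exact norm_setIntegral_le_of_norm_le_const (box_fin L) (fun z _ => by
      rw [norm_mul]
      exact mul_le_mul (hF.bd _) (hG.bd _) (norm_nonneg _) hF.M0)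
  supp w hw := by
    have : w ∈ box (2 * L) := by
      by_contra hn
      apply hw
      unfold cv
      have : ∀ z : ℝ × ℝ, F z * G (w - z) = 0 := by
        intro z
        by_cases h1 : z ∈ box L
        · have h2 : w - z ∉ box L := fun h2 => hn (box_sub h1 h2)
          rw [hG.off _ h2, mul_zero]
        · rw [hF.off z h1, zero_mul]
      simp only [this, integral_zero]
    exact ⟨abs_le.2 this.1, abs_le.2 this.2⟩

lemma FT_cv {F G : ℝ × ℝ → ℂ} {L M N : ℝ} (hF : Nice F L M) (hG : Nice G L N) (ξ η : ℝ) :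
    FT (cv F G) ξ η = FT F ξ η * FT G ξ η := by
  unfold FT cv
  have e1 : ∀ w : ℝ × ℝ, ee (w.1 * ξ + w.2 * η) * ∫ z : ℝ × ℝ, F z * G (w - z) =
      ∫ z : ℝ × ℝ, ee (w.1 * ξ + w.2 * η) * (F z * G (w - z)) := fun w => by
    rw [integral_const_mul]
  simp only [e1]
  have hint : Integrable (Function.uncurry (fun w z : ℝ × ℝ =>
      ee (w.1 * ξ + w.2 * η) * (F z * G (w - z)))) (volume.prod volume) := by
    refine bs_int (S := box (2 * L) ×ˢ box L) ((box_meas _).prod (box_meas _)) ?_ (M := M * N) ?_ ?_ ?_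
    · rw [Measure.prod_prod]
      exact ENNReal.mul_lt_top (box_fin _) (box_fin _)
    · have h1 := ee_meas
      have h2 := hF.meas
      have h3 := hG.meas
      unfold Function.uncurry
      fun_prop
    · rintro ⟨w, z⟩
      simp only [Function.uncurry_apply_pair]
      rw [norm_mul, ee_norm, one_mul, norm_mul]
      exact mul_le_mul (hF.bd _) (hG.bd _) (norm_nonneg _) hF.M0
    · rintro ⟨w, z⟩ hwz
      simp only [Function.uncurry_apply_pair]
      by_cases h1 : z ∈ box L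
      · have h2 : w - z ∉ box L := fun h2 => hwz ⟨box_sub h1 h2, h1⟩
        rw [hG.off _ h2, mul_zero, mul_zero]
      · rw [hF.off z h1, zero_mul, mul_zero]
  rw [integral_integral_swap hint, ← integral_mul_const]
  congr 1
  ext z
  have e2 : ∫ w : ℝ × ℝ, ee (w.1 * ξ + w.2 * η) * (F z * G (w - z)) =
      ∫ w : ℝ × ℝ, ee ((w + z).1 * ξ + (w + z).2 * η) * (F z * G ((w + z) - z)) :=
    (integral_add_right_eq_self (fun w : ℝ × ℝ => ee (w.1 * ξ + w.2 * η) * (F z * G (w - z))) z).symm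
  rw [e2, ← integral_const_mul]
  congr 1
  ext w
  have e3 : (w + z).1 * ξ + (w + z).2 * η = (z.1 * ξ + z.2 * η) + (w.1 * ξ + w.2 * η) := by
    simp only [Prod.fst_add, Prod.snd_add]
    ring
  rw [e3, ee_add, add_sub_cancel_right]
  ring

/-- fourth power of the extension operator at fixed time -/
lemma four {f : ℝ × ℝ → ℂ} {L M : ℝ} (h : Nice f L M) (hL : 0 ≤ L) (t : ℝ) :
    ∫⁻ ξ : ℝ, ∫⁻ η : ℝ, ‖EX f ξ η t‖ₑ ^ 4 =
      ENNReal.ofReal ((2 * π) ^ 2) * ∫⁻ w, ‖cv (gt f t) (gt f t) w‖ₑ ^ 2 := by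
  have hn := gt_nice h t
  rw [← pl2 (cv_nice hn hn) (by linarith)]
  refine lintegral_congr fun ξ => lintegral_congr fun η => ?_
  rw [EX_eq, FT_cv hn hn, enorm_mul]
  ring

/-- `L²` at fixed time -/
lemma two {f : ℝ × ℝ → ℂ} {L M : ℝ} (h : Nice f L M) (hL : 0 ≤ L) (t : ℝ) :
    ∫⁻ ξ : ℝ, ∫⁻ η : ℝ, ‖EX f ξ η t‖ₑ ^ 2 =
      ENNReal.ofReal ((2 * π) ^ 2) * ∫⁻ z, ‖f z‖ₑ ^ 2 := by
  have hn := gt_nice h t
  have := pl2 hn hL
  simp only [gt_enorm] at this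
  rw [← this]
  refine lintegral_congr fun ξ => lintegral_congr fun η => ?_
  rw [EX_eq]

end Pool.Agent.TH218.DR
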