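import Mathlib
import Pool.Agent.TH218.DR.A4
set_option autoImplicit false

/-!
# Directional regularity, part 5: the `L⁴` bound for functions supported in a strip
-/

namespace Pool.Agent.TH218.DR

open MeasureTheory Set Complex
open scoped ENNReal NNReal Real FourierTransform

/-- the integral of the kernel -/
noncomputable def LL (T L : ℝ) : ℝ≥0∞ := ∫⁻ v in Icc (-L) L, kk T v

/-- the inner chirp integral -/
noncomputable def HH (g : ℝ × ℝ → ℂ) (t : ℝ) (w : ℝ × ℝ) (y : ℝ) : ℂ :=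
  ∫ x : ℝ, ee (2 * (x - w.1 / 2) ^ 2 * t) * (g (x, y) * g (w.1 - x, w.2 - y))

lemma HH_meas {g : ℝ × ℝ → ℂ} (hg : Measurable g) :
    Measurable (fun q : ℝ × (ℝ × ℝ) × ℝ => HH g q.1 q.2.1 q.2.2) := by
  have hm : StronglyMeasurable (fun q : (ℝ × (ℝ × ℝ) × ℝ) × ℝ =>
      ee (2 * (q.2 - q.1.2.1.1 / 2) ^ 2 * q.1.1) *
        (g (q.2, q.1.2.2) * g (q.1.2.1.1 - q.2, q.1.2.1.2 - q.1.2.2))) := by
    apply Measurable.stronglyMeasurable
    have := ee_meas
    fun_prop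
  exact (hm.integral_prod_right' (ν := (volume : Measure ℝ))).measurable

lemma kern_int (T L a : ℝ) (ha : |a| ≤ L) :
    ∫⁻ x in Icc (-L) L, kk T ((a - x) / 2) ≤ 2 * LL T L := by
  set G : ℝ → ℝ≥0∞ := (Icc (-L) L).indicator (kk T) with hG
  have h1 : ∀ x ∈ Icc (-L) L, kk T ((a - x) / 2) = G (1 / 2 * (a - x)) := by
    intro x hx
    have ha' := abs_le.1 ha
    have e : 1 / 2 * (a - x) = (a - x) / 2 := by ring
    rw [hG, e, indicator_of_mem]
    constructor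
    · linarith [hx.1, hx.2, ha'.1]
    · linarith [hx.1, hx.2, ha'.2]
  calc ∫⁻ x in Icc (-L) L, kk T ((a - x) / 2)
      = ∫⁻ x in Icc (-L) L, G (1 / 2 * (a - x)) := setLIntegral_congr_fun measurableSet_Icc h1
    _ ≤ ∫⁻ x, G (1 / 2 * (a - x)) := setLIntegral_le_lintegral _ _
    _ = ∫⁻ x, G (1 / 2 * x) := lintegral_sub_left_eq_self (fun x => G (1 / 2 * x)) a
    _ = ENNReal.ofReal (1 / 2 : ℝ)⁻¹ * ∫⁻ x, G x := lint_mul G (1 / 2) (by norm_num)
    _ = 2 * LL T L := by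
        rw [hG, lintegral_indicator measurableSet_Icc, LL]
        congr 1
        norm_num

lemma cv_le {g : ℝ × ℝ → ℂ} {L M : ℝ} (hg : Nice g L M) (ρ y0 : ℝ) 
    (hs : ∀ z, g z ≠ 0 → |z.2 - y0| ≤ ρ) (t : ℝ) (w : ℝ × ℝ) :
    ‖cv (gt g t) (gt g t) w‖ₑ ^ 2 ≤ ENNReal.ofReal (2 * ρ) * ∫⁻ y, ‖HH g t w y‖ₑ ^ 2 := by
  have hn := gt_nice hg t
  set F : ℝ × ℝ → ℂ := fun z => gt g t z * gt g t (w - z) with hF
  have hFm : Measurable F := by
    have := hn.meas
    rw [hF]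
    fun_prop
  have hFi : Integrable F := by
    refine bs_int (box_meas L) (box_fin L) hFm (M := M * M) ?_ ?_
    · intro z
      rw [hF]
      simp only [norm_mul]
      exact mul_le_mul (hn.bd _) (hn.bd _) (norm_nonneg _) hn.M0
    · intro z hz
      rw [hF]
      simp only [hn.off z hz, zero_mul]
  have e1 : cv (gt g t) (gt g t) w = ∫ y, ∫ x, F (x, y) := by
    unfold cv
    have h2 := hFi
    rw [Measure.volume_eq_prod] at h2 ⊢
    exact integral_prod_symm _ h2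
  have e2 : ∀ y, ‖∫ x, F (x, y)‖ₑ = ‖HH g t w y‖ₑ := by
    intro y
    have h1 : ∀ x, F (x, y) = ee ((y ^ 2 + (w.2 - y) ^ 2 + w.1 ^ 2 / 2) * t) *
        (ee (2 * (x - w.1 / 2) ^ 2 * t) * (g (x, y) * g (w.1 - x, w.2 - y))) := by
      intro x
      have h2 : F (x, y) = (ee ((x ^ 2 + y ^ 2) * t) * g (x, y)) *
          (ee (((w.1 - x) ^ 2 + (w.2 - y) ^ 2) * t) * g (w.1 - x, w.2 - y)) := rfl
      have h3 : ee ((x ^ 2 + y ^ 2) * t) * ee (((w.1 - x) ^ 2 + (w.2 - y) ^ 2) * t) =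
          ee ((y ^ 2 + (w.2 - y) ^ 2 + w.1 ^ 2 / 2) * t) * ee (2 * (x - w.1 / 2) ^ 2 * t) := by
        rw [← ee_add, ← ee_add]
        congr 1
        ring
      rw [h2]
      calc _ = (ee ((x ^ 2 + y ^ 2) * t) * ee (((w.1 - x) ^ 2 + (w.2 - y) ^ 2) * t)) *
            (g (x, y) * g (w.1 - x, w.2 - y)) := by ring
        _ = _ := by rw [h3]; ring
    simp only [h1]
    rw [integral_const_mul, enorm_mul, ee_enorm, one_mul]
    rfl
  set S := Icc (y0 - ρ) (y0 + ρ) with hS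
  have e3 : ∫ y, ∫ x, F (x, y) = ∫ y in S, ∫ x, F (x, y) := by
    symm
    apply setIntegral_eq_integral_of_forall_compl_eq_zero
    intro y hy
    have : ∀ x, F (x, y) = 0 := by
      intro x
      have h0 : g (x, y) = 0 := by
        by_contra h
        have := abs_le.1 (hs _ h)
        exact hy ⟨by linarith [this.1], by linarith [this.2]⟩
      rw [hF]
      simp only [gt, h0, mul_zero, zero_mul]
    simp only [this, integral_zero]
  have hFym : Measurable (fun y => ∫ x, F (x, y)) := by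
    have hm : StronglyMeasurable (fun q : ℝ × ℝ => F (q.2, q.1)) := by
      apply Measurable.stronglyMeasurable
      fun_prop
    exact (hm.integral_prod_right' (ν := (volume : Measure ℝ))).measurable
  rw [e1, e3]
  refine (cs_set S hFym).trans ?_
  simp only [e2]
  have hv : volume S = ENNReal.ofReal (2 * ρ) := by
    rw [hS, Real.volume_Icc]
    congr 1
    ring
  rw [hv]
  gcongr
  exact Measure.restrict_le_self

/-- **The `L⁴` bound for a strip.** -/
lemma strip4 (T L ρ y0 M : ℝ) (hT : 0 < T) (hL : 0 ≤ L) {g : ℝ × ℝ → ℂ}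
    (hg : Nice g L M) (hs : ∀ z, g z ≠ 0 → |z.2 - y0| ≤ ρ) (D : ℝ≥0∞)
    (hD : ∀ x, ∫⁻ y, ‖g (x, y)‖ₑ ^ 2 ≤ D) :
    ∫⁻ t in Icc (-T) T, ∫⁻ ξ, ∫⁻ η, ‖EX g ξ η t‖ₑ ^ 4 ≤
      ENNReal.ofReal ((2 * π) ^ 2) * (ENNReal.ofReal (2 * ρ) *
        (2 * LL T L * D * ∫⁻ z, ‖g z‖ₑ ^ 2)) := by
  simp only [four hg hL]
  rw [lintegral_const_mul' _ _ ENNReal.ofReal_ne_top]
  gcongr
  have hm := (HH_meas hg.meas).enorm.pow_const 2
  calc ∫⁻ t in Icc (-T) T, ∫⁻ w, ‖cv (gt g t) (gt g t) w‖ₑ ^ 2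
      ≤ ∫⁻ t in Icc (-T) T, ∫⁻ w, ENNReal.ofReal (2 * ρ) * ∫⁻ y, ‖HH g t w y‖ₑ ^ 2 :=
        lintegral_mono fun t => lintegral_mono fun w => cv_le hg ρ y0 hs t w
    _ = ENNReal.ofReal (2 * ρ) * ∫⁻ t in Icc (-T) T, ∫⁻ w, ∫⁻ y, ‖HH g t w y‖ₑ ^ 2 := by
        simp only [lintegral_const_mul' _ _ ENNReal.ofReal_ne_top]
    _ ≤ _ := ?_
  gcongr
  have s1 : ∫⁻ t in Icc (-T) T, ∫⁻ w, ∫⁻ y, ‖HH g t w y‖ₑ ^ 2 =
      ∫⁻ w, ∫⁻ y, ∫⁻ t in Icc (-T) T, ‖HH g t w y‖ₑ ^ 2 := by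
    have m1 : Measurable (fun q : ℝ × (ℝ × ℝ) => ∫⁻ y, ‖HH g q.1 q.2 y‖ₑ ^ 2) := by
      have : Measurable (fun q : (ℝ × (ℝ × ℝ)) × ℝ => ‖HH g q.1.1 q.1.2 q.2‖ₑ ^ 2) := by
        have h0 : Measurable (fun q : (ℝ × (ℝ × ℝ)) × ℝ => (q.1.1, (q.1.2, q.2))) := by fun_prop
        have h1 := hm.comp h0
        simpa only [Function.comp_def] using h1
      exact this.lintegral_prod_right'
    rw [lintegral_lintegral_swap m1.aemeasurable]
    refine lintegral_congr fun w => ?_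
    have m2 : Measurable (fun q : ℝ × ℝ => ‖HH g q.1 w q.2‖ₑ ^ 2) := by
      have h0 : Measurable (fun q : ℝ × ℝ => (q.1, (w, q.2))) := by fun_prop
      have h1 := hm.comp h0
      simpa only [Function.comp_def] using h1
    exact lintegral_lintegral_swap m2.aemeasurable
  rw [s1]
  have s2 : ∀ (w : ℝ × ℝ) (y : ℝ), ∫⁻ t in Icc (-T) T, ‖HH g t w y‖ₑ ^ 2 ≤
      ∫⁻ x, kk T (x - w.1 / 2) * ‖g (x, y) * g (w.1 - x, w.2 - y)‖ₑ ^ 2 := by
    intro w y
    have hm1 := hg.meas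
    refine chirp T L hT (w.1 / 2) (fun x => g (x, y) * g (w.1 - x, w.2 - y)) (by fun_prop)
      (M * M) ?_ ?_
    · intro x
      simp only [norm_mul]
      exact mul_le_mul (hg.bd _) (hg.bd _) (norm_nonneg _) hg.M0
    · intro x hx
      exact (hg.supp _ (left_ne_zero_of_mul hx)).1
  calc ∫⁻ w, ∫⁻ y, ∫⁻ t in Icc (-T) T, ‖HH g t w y‖ₑ ^ 2
      ≤ ∫⁻ w : ℝ × ℝ, ∫⁻ y, ∫⁻ x, kk T (x - w.1 / 2) * ‖g (x, y) * g (w.1 - x, w.2 - y)‖ₑ ^ 2 :=
        lintegral_mono fun w => lintegral_mono fun y => s2 w y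
    _ = ∫⁻ w : ℝ × ℝ, ∫⁻ z : ℝ × ℝ, kk T (z.1 - w.1 / 2) * ‖g z * g (w - z)‖ₑ ^ 2 := by
        refine lintegral_congr fun w => ?_
        have hmk := kk_meas T
        have hm1 := hg.meas
        have : Measurable (fun z : ℝ × ℝ => kk T (z.1 - w.1 / 2) * ‖g z * g (w - z)‖ₑ ^ 2) := by
          fun_prop
        rw [Measure.volume_eq_prod, lintegral_prod_symm' _ this]
        rfl
    _ = ∫⁻ z : ℝ × ℝ, ∫⁻ w : ℝ × ℝ, kk T (z.1 - w.1 / 2) * ‖g z * g (w - z)‖ₑ ^ 2 := by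
        have hmk := kk_meas T
        have hm1 := hg.meas
        have : Measurable (fun q : (ℝ × ℝ) × (ℝ × ℝ) =>
            kk T (q.2.1 - q.1.1 / 2) * ‖g q.2 * g (q.1 - q.2)‖ₑ ^ 2) := by
          fun_prop
        exact lintegral_lintegral_swap this.aemeasurable
    _ ≤ ∫⁻ z : ℝ × ℝ, (2 * LL T L * D) * ‖g z‖ₑ ^ 2 := by
        refine lintegral_mono fun z => ?_
        by_cases hz : g z = 0
        · simp [hz]
        have hz1 : |z.1| ≤ L := (hg.supp z hz).1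
        calc ∫⁻ w : ℝ × ℝ, kk T (z.1 - w.1 / 2) * ‖g z * g (w - z)‖ₑ ^ 2
            = ∫⁻ w : ℝ × ℝ, kk T (z.1 - (w + z).1 / 2) * ‖g z * g ((w + z) - z)‖ₑ ^ 2 :=
              (lintegral_add_right_eq_self
                (fun w : ℝ × ℝ => kk T (z.1 - w.1 / 2) * ‖g z * g (w - z)‖ₑ ^ 2) z).symm
          _ = ∫⁻ w : ℝ × ℝ, ‖g z‖ₑ ^ 2 * (kk T ((z.1 - w.1) / 2) * ‖g w‖ₑ ^ 2) := by
              refine lintegral_congr fun w => ?_
              rw [add_sub_cancel_right, enorm_mul, mul_pow]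
              have : z.1 - (w + z).1 / 2 = (z.1 - w.1) / 2 := by
                simp only [Prod.fst_add]
                ring
              rw [this]
              ring
          _ = ‖g z‖ₑ ^ 2 * ∫⁻ w : ℝ × ℝ, kk T ((z.1 - w.1) / 2) * ‖g w‖ₑ ^ 2 := by
              rw [lintegral_const_mul' _ _ (by simp)]
          _ = ‖g z‖ₑ ^ 2 * ∫⁻ x : ℝ, kk T ((z.1 - x) / 2) * ∫⁻ y : ℝ, ‖g (x, y)‖ₑ ^ 2 := by
              congr 1
              have hmk := kk_meas T
              have hm1 := hg.meas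
              have : Measurable (fun w : ℝ × ℝ => kk T ((z.1 - w.1) / 2) * ‖g w‖ₑ ^ 2) := by
                fun_prop
              rw [Measure.volume_eq_prod, lintegral_prod _ this.aemeasurable]
              refine lintegral_congr fun x => ?_
              have : Measurable (fun y : ℝ => ‖g (x, y)‖ₑ ^ 2) := by fun_prop
              simp only
              rw [lintegral_const_mul _ this]
          _ ≤ ‖g z‖ₑ ^ 2 * ∫⁻ x in Icc (-L) L, kk T ((z.1 - x) / 2) * D := by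
              refine mul_le_mul' le_rfl ?_
              rw [← lintegral_indicator measurableSet_Icc]
              refine lintegral_mono fun x => ?_
              by_cases hx : x ∈ Icc (-L) L
              · rw [indicator_of_mem hx]
                gcongr
                exact hD x
              · rw [indicator_of_notMem hx]
                simp [hg.slice_x x _ hx]
          _ ≤ ‖g z‖ₑ ^ 2 * (2 * LL T L * D) := by
              gcongr
              have hmk := kk_meas T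
              rw [lintegral_mul_const _ (by fun_prop)]
              gcongr
              exact kern_int T L z.1 hz1
          _ = _ := mul_comm _ _
    _ = 2 * LL T L * D * ∫⁻ z, ‖g z‖ₑ ^ 2 := by
        rw [lintegral_const_mul _ (hg.meas.enorm.pow_const 2)]

end Pool.Agent.TH218.DR
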