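import Mathlib
import Pool.Agent.TH218.DR.A5
set_option autoImplicit false

/-!
# Directional regularity, part 6: integration by parts in `y`
-/

namespace Pool.Agent.TH218.DR

open MeasureTheory Set Complex
open scoped ENNReal NNReal Real FourierTransform

/-- `G'` is the derivative of `G` in the second variable -/
def DerY (G G' : ℝ × ℝ → ℂ) : Prop :=
  ∀ x y : ℝ, HasDerivAt (fun y : ℝ => G (x, y)) (G' (x, y)) y

lemma ee_deriv (a b c y : ℝ) : HasDerivAt (fun y : ℝ => ee (a + y * b + y ^ 2 * c))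
    (-(I * ((b + 2 * y * c : ℝ) : ℂ)) * ee (a + y * b + y ^ 2 * c)) y := by
  unfold ee
  have h1 : HasDerivAt (fun y : ℝ => a + y * b + y ^ 2 * c) (b + 2 * y * c) y := by
    have h2 := ((hasDerivAt_id y).mul_const b).const_add a
    have h3 := (hasDerivAt_pow 2 y).mul_const c
    have h4 := h2.add h3
    have e : 1 * b + ((2 : ℕ) : ℝ) * y ^ (2 - 1) * c = b + 2 * y * c := by
      norm_num
    rw [e] at h4
    exact h4
  have h5 : HasDerivAt (fun y : ℝ => -(I * ((a + y * b + y ^ 2 * c : ℝ) : ℂ)))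
      (-(I * ((b + 2 * y * c : ℝ) : ℂ))) y := (h1.ofReal_comp.const_mul I).neg
  have h6 := h5.cexp
  rw [mul_comm]
  exact h6

lemma int_y {f : ℝ × ℝ → ℂ} {L M : ℝ} (h : Nice f L M) (x : ℝ) (ψ : ℝ → ℂ) (hψ : Measurable ψ)
    (A : ℝ) (hA : ∀ y ∈ Icc (-L) L, ‖ψ y‖ ≤ A) (hA0 : 0 ≤ A) :
    Integrable (fun y => ψ y * f (x, y)) := by
  have hm := h.meas
  refine bs_int (S := Icc (-L) L) measurableSet_Icc (by simp) (by fun_prop) (M := A * M) ?_ ?_
  · intro y
    by_cases hy : y ∈ Icc (-L) L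
    · rw [norm_mul]
      exact mul_le_mul (hA y hy) (h.bd _) (norm_nonneg _) hA0
    · rw [h.slice_y x y hy, mul_zero, norm_zero]
      exact mul_nonneg hA0 h.M0
  · intro y hy
    rw [h.slice_y x y hy, mul_zero]

/-- **The vector field identity.** -/
lemma vf {G G' : ℝ × ℝ → ℂ} {L M M' : ℝ} (hL : 0 ≤ L) (hG : Nice G L M) (hG' : Nice G' L M')
    (hd : DerY G G') (c ξ η t : ℝ) :
    ((η + 2 * t * c : ℝ) : ℂ) * EX G ξ η t =
      -I * EX G' ξ η t - 2 * (t : ℂ) * EX (fun z => ((z.2 - c : ℝ) : ℂ) * G z) ξ η t := by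
  have hem := ee_meas
  set ph : ℝ × ℝ → ℂ := fun z => ee (z.1 * ξ + z.2 * η + (z.1 ^ 2 + z.2 ^ 2) * t) with hph
  have hphm : Measurable ph := by
    rw [hph]
    fun_prop
  have hph1 : ∀ z, ‖ph z‖ = 1 := fun z => ee_norm _
  -- integration by parts on each line
  have key : EX G' ξ η t = ∫ z : ℝ × ℝ, I * ((η + 2 * z.2 * t : ℝ) : ℂ) * (ph z * G z) := by
    unfold EX
    have i1 : Integrable (fun z => ph z * G' z) :=
      (hG'.mul hphm (A := 1) (fun z _ => (hph1 z).le) zero_le_one).int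
    have i2 : Integrable (fun z => I * ((η + 2 * z.2 * t : ℝ) : ℂ) * (ph z * G z)) := by
      have h1 := hG.mul hphm (A := 1) (fun z _ => (hph1 z).le) zero_le_one
      have h2 := h1.mul (a := fun z => I * ((η + 2 * z.2 * t : ℝ) : ℂ)) (by fun_prop)
        (A := |η| + 2 * L * |t|) (fun z hz => by
          have hz2 := (h1.supp z hz).2
          rw [norm_mul, Complex.norm_I, one_mul, Complex.norm_real, Real.norm_eq_abs]
          calc |η + 2 * z.2 * t| ≤ |η| + |2 * z.2 * t| := abs_add_le _ _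
            _ = |η| + 2 * |z.2| * |t| := by rw [abs_mul, abs_mul, abs_two]
            _ ≤ |η| + 2 * L * |t| := by gcongr) (by positivity)
      exact h2.int
    rw [Measure.volume_eq_prod] at i1 i2 ⊢
    rw [integral_prod _ i1, integral_prod _ i2]
    congr 1
    ext x
    have hu : ∀ y : ℝ, HasDerivAt (fun y : ℝ => ph (x, y))
        (-(I * ((η + 2 * y * t : ℝ) : ℂ)) * ph (x, y)) y := by
      intro y
      have h1 := ee_deriv (x * ξ + x ^ 2 * t) η t y
      have e : ∀ y : ℝ, ph (x, y) = ee (x * ξ + x ^ 2 * t + y * η + y ^ 2 * t) := by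
        intro y
        show ee (x * ξ + y * η + (x ^ 2 + y ^ 2) * t) = _
        congr 1
        ring
      simp only [e]
      exact h1
    have hsup : ∀ y ∈ Icc (-L) L, ‖-(I * ((η + 2 * y * t : ℝ) : ℂ)) * ph (x, y)‖ ≤
        |η| + 2 * L * |t| := by
      intro y hy
      rw [norm_mul, hph1, mul_one, norm_neg, norm_mul, Complex.norm_I, one_mul, Complex.norm_real,
        Real.norm_eq_abs]
      have : |y| ≤ L := abs_le.2 hy
      calc |η + 2 * y * t| ≤ |η| + |2 * y * t| := abs_add_le _ _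
        _ = |η| + 2 * |y| * |t| := by rw [abs_mul, abs_mul, abs_two]
        _ ≤ |η| + 2 * L * |t| := by gcongr
    have hmu : Measurable (fun y : ℝ => ph (x, y)) := by fun_prop
    have hmu' : Measurable (fun y : ℝ => -(I * ((η + 2 * y * t : ℝ) : ℂ)) * ph (x, y)) := by
      fun_prop
    have hibp := integral_mul_deriv_eq_deriv_mul_of_integrable (u := fun y : ℝ => ph (x, y))
      (v := fun y : ℝ => G (x, y)) (u' := fun y : ℝ => -(I * ((η + 2 * y * t : ℝ) : ℂ)) * ph (x, y))
      (v' := fun y : ℝ => G' (x, y)) (fun y _ => hu y) (fun y _ => hd x y)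
      (int_y hG' x _ hmu 1 (fun y _ => (hph1 _).le) zero_le_one)
      (int_y hG x _ hmu' _ hsup (by positivity))
      (int_y hG x _ hmu 1 (fun y _ => (hph1 _).le) zero_le_one)
    show ∫ y : ℝ, ph (x, y) * G' (x, y) = ∫ y : ℝ, I * ((η + 2 * y * t : ℝ) : ℂ) * (ph (x, y) * G (x, y))
    rw [hibp, ← integral_neg]
    congr 1
    ext y
    ring
  have i3 : Integrable (fun z => ph z * G z) :=
    (hG.mul hphm (A := 1) (fun z _ => (hph1 z).le) zero_le_one).int
  have i4 : Integrable (fun z => ph z * (((z.2 - c : ℝ) : ℂ) * G z)) := by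
    have h1 := hG.mul (a := fun z => ((z.2 - c : ℝ) : ℂ)) (by fun_prop)
        (A := L + |c|) (fun z hz => by
          have hz2 := (hG.supp z hz).2
          rw [Complex.norm_real, Real.norm_eq_abs]
          exact (abs_sub _ _).trans (by gcongr)) (by positivity)
    exact (h1.mul hphm (A := 1) (fun z _ => (hph1 z).le) zero_le_one).int
  rw [key]
  have e5 : ∀ z : ℝ × ℝ, I * ((η + 2 * z.2 * t : ℝ) : ℂ) * (ph z * G z) =
      I * ((η + 2 * t * c : ℝ) : ℂ) * (ph z * G z) +
        2 * I * (t : ℂ) * (ph z * (((z.2 - c : ℝ) : ℂ) * G z)) := by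
    intro z
    push_cast
    ring
  simp only [e5]
  rw [integral_add (i3.const_mul _) (i4.const_mul _), integral_const_mul, integral_const_mul]
  unfold EX
  have hI : I * I = -1 := Complex.I_mul_I
  linear_combination (((η + 2 * t * c : ℝ) : ℂ) * (∫ z, ph z * G z) +
    2 * (t : ℂ) * ∫ z, ph z * (((z.2 - c : ℝ) : ℂ) * G z)) * hI

lemma vf_norm {G G' : ℝ × ℝ → ℂ} {L M M' : ℝ} (hL : 0 ≤ L) (hG : Nice G L M) (hG' : Nice G' L M')
    (hd : DerY G G') (c ξ η t : ℝ) :
    |η + 2 * t * c| * ‖EX G ξ η t‖ ≤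
      ‖EX G' ξ η t‖ + 2 * |t| * ‖EX (fun z => ((z.2 - c : ℝ) : ℂ) * G z) ξ η t‖ := by
  have h := congrArg norm (vf hL hG hG' hd c ξ η t)
  rw [norm_mul, Complex.norm_real, Real.norm_eq_abs] at h
  rw [h]
  refine (norm_sub_le _ _).trans ?_
  rw [norm_mul, norm_neg, Complex.norm_I, one_mul, norm_mul, norm_mul, Complex.norm_real,
    Real.norm_eq_abs]
  simp

end Pool.Agent.TH218.DR
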