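import Mathlib
import Pool.Agent.TH218.DR.A6
set_option autoImplicit false

/-!
# Directional regularity, part 7: cutoffs and a weighted sum
-/

namespace Pool.Agent.TH218.DR

open MeasureTheory Set Complex
open scoped ENNReal NNReal Real FourierTransform

/-- the cutoff -/
noncomputable def chi (u : ℝ) : ℝ := Real.smoothTransition (u + 1) - Real.smoothTransition u

/-- its derivative -/
noncomputable def dchi (u : ℝ) : ℝ := deriv Real.smoothTransition (u + 1) - deriv Real.smoothTransition u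

lemma ss_der (u : ℝ) : HasDerivAt Real.smoothTransition (deriv Real.smoothTransition u) u :=
  ((Real.smoothTransition.contDiff (n := 1)).differentiable (by norm_num) u).hasDerivAt

lemma dss_cont : Continuous (deriv Real.smoothTransition) :=
  (Real.smoothTransition.contDiff (n := 1)).continuous_deriv (by norm_num)

lemma dss_neg {u : ℝ} (hu : u < 0) : deriv Real.smoothTransition u = 0 := by
  have h : Real.smoothTransition =ᶠ[nhds u] fun _ => (0 : ℝ) := by
    filter_upwards [Iio_mem_nhds hu] with v hv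
    exact Real.smoothTransition.zero_of_nonpos (le_of_lt hv)
  rw [h.deriv_eq, deriv_const]

lemma dss_pos {u : ℝ} (hu : 1 < u) : deriv Real.smoothTransition u = 0 := by
  have h : Real.smoothTransition =ᶠ[nhds u] fun _ => (1 : ℝ) := by
    filter_upwards [Ioi_mem_nhds hu] with v hv
    exact Real.smoothTransition.one_of_one_le (le_of_lt hv)
  rw [h.deriv_eq, deriv_const]

lemma dss_bd : ∃ C : ℝ, 0 ≤ C ∧ ∀ u, |deriv Real.smoothTransition u| ≤ C := by
  obtain ⟨C, hC⟩ := isCompact_Icc.exists_bound_of_continuousOn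
    (s := Icc (0 : ℝ) 1) dss_cont.continuousOn
  refine ⟨max C 0, le_max_right _ _, fun u => ?_⟩
  by_cases h1 : u < 0
  · rw [dss_neg h1, abs_zero]
    exact le_max_right _ _
  by_cases h2 : 1 < u
  · rw [dss_pos h2, abs_zero]
    exact le_max_right _ _
  · exact (hC u ⟨not_lt.1 h1, not_lt.1 h2⟩).trans (le_max_left _ _)

lemma chi_der (u : ℝ) : HasDerivAt chi (dchi u) u := by
  have h1 : HasDerivAt (fun u : ℝ => Real.smoothTransition (u + 1))
      (deriv Real.smoothTransition (u + 1)) u := by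
    have := (ss_der (u + 1)).comp_add_const u 1
    exact this
  exact h1.sub (ss_der u)

lemma chi_cont : Continuous chi :=
  (Real.smoothTransition.continuous.comp (continuous_id.add continuous_const)).sub
    Real.smoothTransition.continuous

lemma dchi_cont : Continuous dchi :=
  (dss_cont.comp (continuous_id.add continuous_const)).sub dss_cont

lemma chi_supp {u : ℝ} (h : 1 < |u|) : chi u = 0 := by
  unfold chi
  rcases lt_or_ge u 0 with h0 | h0
  · rw [abs_of_neg h0] at h
    rw [Real.smoothTransition.zero_of_nonpos (by linarith), Real.smoothTransition.zero_of_nonpos h0.le,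
      sub_zero]
  · rw [abs_of_nonneg h0] at h
    rw [Real.smoothTransition.one_of_one_le (by linarith), Real.smoothTransition.one_of_one_le h.le,
      sub_self]

lemma dchi_supp {u : ℝ} (h : 1 < |u|) : dchi u = 0 := by
  unfold dchi
  rcases lt_or_ge u 0 with h0 | h0
  · rw [abs_of_neg h0] at h
    rw [dss_neg (by linarith), dss_neg h0, sub_zero]
  · rw [abs_of_nonneg h0] at h
    rw [dss_pos (by linarith), dss_pos h, sub_self]

lemma chi_bd (u : ℝ) : |chi u| ≤ 1 := by
  unfold chi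
  have h1 := Real.smoothTransition.le_one (u + 1)
  have h2 := Real.smoothTransition.nonneg (u + 1)
  have h3 := Real.smoothTransition.le_one u
  have h4 := Real.smoothTransition.nonneg u
  rw [abs_le]
  constructor <;> linarith

lemma dchi_bd : ∃ C : ℝ, 0 ≤ C ∧ ∀ u, |dchi u| ≤ C := by
  obtain ⟨C, hC0, hC⟩ := dss_bd
  refine ⟨C + C, by linarith, fun u => ?_⟩
  unfold dchi
  exact (abs_sub _ _).trans (add_le_add (hC _) (hC _))

lemma chi_sum (N : ℕ) (u : ℝ) (hu : |u| ≤ N) :
    ∑ k ∈ Finset.range (2 * N + 1), chi (u - ((k : ℝ) - N)) = 1 := by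
  have h1 : ∀ k : ℕ, chi (u - ((k : ℝ) - N)) =
      (fun k : ℕ => Real.smoothTransition (u + N + 1 - k)) k -
        (fun k : ℕ => Real.smoothTransition (u + N + 1 - k)) (k + 1) := by
    intro k
    unfold chi
    simp only
    congr 2
    · ring
    · push_cast
      ring
  simp only [h1]
  rw [Finset.sum_range_sub' (fun k : ℕ => Real.smoothTransition (u + N + 1 - k))]
  have hu' := abs_le.1 hu
  rw [Real.smoothTransition.one_of_one_le (by push_cast; linarith),
    Real.smoothTransition.zero_of_nonpos (by push_cast; linarith), sub_zero]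

/-- the weighted sum -/
lemma wsum : ∃ C : ℝ≥0, ∀ (c τ : ℝ), 2 ≤ |τ| → ∀ n : ℕ,
    ∑ k ∈ Finset.range n, ENNReal.ofReal ((1 + |c + τ * k|) ^ (-(4 / 3) : ℝ)) ≤ C := by
  set F : ℤ → ℝ := fun j => (1 + |(j : ℝ)|) ^ (-(4 / 3) : ℝ) with hF
  have hs : Summable F := by
    have h1 : Summable fun j : ℤ => |(j : ℝ)| ^ (-(4 / 3) : ℝ) :=
      Real.summable_abs_int_rpow (by norm_num)
    have h2 : Summable fun j : ℤ => if j = 0 then (1 : ℝ) else 0 :=
      (hasSum_ite_eq (0 : ℤ) (1 : ℝ)).summable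
    refine Summable.of_nonneg_of_le (fun j => by rw [hF]; positivity) (fun j => ?_) (h1.add h2)
    rw [hF]
    simp only
    by_cases hj : j = 0
    · subst hj
      simp
    · rw [if_neg hj, add_zero]
      have hj' : 0 < |(j : ℝ)| := abs_pos.2 (by exact_mod_cast hj)
      exact Real.rpow_le_rpow_of_nonpos hj' (by linarith) (by norm_num)
  have hfin : ∑' j : ℤ, ENNReal.ofReal (F j) ≠ ∞ := hs.tsum_ofReal_ne_top
  refine ⟨(∑' j : ℤ, ENNReal.ofReal (F j)).toNNReal, fun c τ hτ n => ?_⟩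
  rw [ENNReal.coe_toNNReal hfin]
  have hτ0 : τ ≠ 0 := by
    rintro rfl
    simp at hτ
    linarith
  set j0 : ℤ := round (-c / τ) with hj0
  have hb : ∀ k : ℕ, |(((k : ℤ) - j0 : ℤ) : ℝ)| ≤ |c + τ * k| := by
    intro k
    have hr : |(-c / τ) - j0| ≤ 1 / 2 := abs_sub_round _
    by_cases h0 : (k : ℤ) - j0 = 0
    · rw [h0]
      simp
    · have h1 : (1 : ℝ) ≤ |(((k : ℤ) - j0 : ℤ) : ℝ)| := by
        have : (1 : ℤ) ≤ |(k : ℤ) - j0| := Int.one_le_abs h0
        rw [← Int.cast_abs]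
        exact_mod_cast this
      have e : c + τ * k = τ * ((((k : ℤ) - j0 : ℤ) : ℝ) - ((-c / τ) - j0)) := by
        push_cast
        field_simp
        ring
      rw [e, abs_mul]
      have h2 : |(((k : ℤ) - j0 : ℤ) : ℝ)| - 1 / 2 ≤ |(((k : ℤ) - j0 : ℤ) : ℝ) - ((-c / τ) - j0)| :=
        (sub_le_sub_left hr _).trans (abs_sub_abs_le_abs_sub _ _)
      nlinarith [abs_nonneg ((((k : ℤ) - j0 : ℤ) : ℝ) - ((-c / τ) - j0))]
  calc ∑ k ∈ Finset.range n, ENNReal.ofReal ((1 + |c + τ * k|) ^ (-(4 / 3) : ℝ))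
      ≤ ∑ k ∈ Finset.range n, ENNReal.ofReal (F ((k : ℤ) - j0)) := by
        refine Finset.sum_le_sum fun k _ => ENNReal.ofReal_le_ofReal ?_
        rw [hF]
        exact Real.rpow_le_rpow_of_nonpos (by positivity) (by linarith [hb k]) (by norm_num)
    _ ≤ ∑' k : ℕ, ENNReal.ofReal (F ((k : ℤ) - j0)) := ENNReal.sum_le_tsum _
    _ ≤ ∑' j : ℤ, ENNReal.ofReal (F j) := by
        have hinj : Function.Injective (fun k : ℕ => (k : ℤ) - j0) := by
          intro a b h
          simpa using h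
        exact ENNReal.tsum_comp_le_tsum_of_injective hinj (fun j => ENNReal.ofReal (F j))

/-- Hölder with the weights -/
lemma holder_w : ∃ C : ℝ≥0, ∀ (c τ : ℝ), 2 ≤ |τ| → ∀ (n : ℕ) (a Φ : ℕ → ℝ≥0∞),
    (∀ k : ℕ, ENNReal.ofReal (1 + |c + τ * k|) * a k ≤ Φ k) →
    (∑ k ∈ Finset.range n, a k) ^ 4 ≤ C * ∑ k ∈ Finset.range n, Φ k ^ 4 := by
  obtain ⟨C, hC⟩ := wsum
  refine ⟨C ^ 3, fun c τ hτ n a Φ h => ?_⟩
  set v : ℕ → ℝ≥0∞ := fun k => ENNReal.ofReal ((1 + |c + τ * k|)⁻¹) with hv
  have h1 : ∀ k, a k ≤ v k * Φ k := by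
    intro k
    have hp : (0 : ℝ) < 1 + |c + τ * k| := by positivity
    calc a k = v k * (ENNReal.ofReal (1 + |c + τ * k|) * a k) := by
          rw [hv, ← mul_assoc, ← ENNReal.ofReal_mul (by positivity), inv_mul_cancel₀ hp.ne',
            ENNReal.ofReal_one, one_mul]
      _ ≤ v k * Φ k := by gcongr; exact h k
  have hpq : (4 / 3 : ℝ).HolderConjugate 4 := by
    rw [Real.holderConjugate_iff]
    norm_num
  have h2 := ENNReal.inner_le_Lp_mul_Lq (Finset.range n) v Φ hpq
  have h3 : ∑ k ∈ Finset.range n, a k ≤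
      (∑ k ∈ Finset.range n, v k ^ (4 / 3 : ℝ)) ^ (1 / (4 / 3) : ℝ) *
        (∑ k ∈ Finset.range n, Φ k ^ (4 : ℝ)) ^ (1 / 4 : ℝ) :=
    (Finset.sum_le_sum fun k _ => h1 k).trans h2
  have h4 : ∑ k ∈ Finset.range n, v k ^ (4 / 3 : ℝ) ≤ C := by
    refine le_trans (le_of_eq ?_) (hC c τ hτ n)
    refine Finset.sum_congr rfl fun k _ => ?_
    rw [hv]
    simp only
    rw [ENNReal.ofReal_rpow_of_nonneg (by positivity) (by norm_num), Real.inv_rpow (by positivity),
      ← Real.rpow_neg (by positivity)]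
  calc (∑ k ∈ Finset.range n, a k) ^ 4
      ≤ ((C : ℝ≥0∞) ^ (1 / (4 / 3) : ℝ) * (∑ k ∈ Finset.range n, Φ k ^ (4 : ℝ)) ^ (1 / 4 : ℝ)) ^ 4 := by
        gcongr
        refine h3.trans ?_
        gcongr
    _ = (C : ℝ≥0∞) ^ 3 * ∑ k ∈ Finset.range n, Φ k ^ (4 : ℝ) := by
        rw [mul_pow, ← ENNReal.rpow_natCast, ← ENNReal.rpow_natCast, ← ENNReal.rpow_mul,
          ← ENNReal.rpow_mul, ← ENNReal.rpow_natCast]
        norm_num
    _ = _ := by
        push_cast
        congr 1
        refine Finset.sum_congr rfl fun k _ => ?_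
        rw [← ENNReal.rpow_natCast]
        norm_num

end Pool.Agent.TH218.DR
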