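import Mathlib
import Pool.Agent.TH218.DR.A7
set_option autoImplicit false

/-!
# Directional regularity, part 8: the `L⁴` bound for functions of controlled frequency in `y`
-/

namespace Pool.Agent.TH218.DR

open MeasureTheory Set Complex
open scoped ENNReal NNReal Real FourierTransform

/-- the extension operator as a function on `ℝ × ℝ × ℝ ∋ (t, ξ, η)` -/
noncomputable def EQ (f : ℝ × ℝ → ℂ) (q : ℝ × ℝ × ℝ) : ℂ := EX f q.2.1 q.2.2 q.1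

lemma EQ_meas {f : ℝ × ℝ → ℂ} (hf : Measurable f) : Measurable (EQ f) := by
  have h : StronglyMeasurable (fun p : (ℝ × ℝ × ℝ) × (ℝ × ℝ) =>
      ee (p.2.1 * p.1.2.1 + p.2.2 * p.1.2.2 + (p.2.1 ^ 2 + p.2.2 ^ 2) * p.1.1) * f p.2) := by
    apply Measurable.stronglyMeasurable
    have := ee_meas
    fun_prop
  exact (h.integral_prod_right' (ν := (volume : Measure (ℝ × ℝ)))).measurable

/-- times in `S`, all frequencies -/
noncomputable def mu (S : Set ℝ) : Measure (ℝ × ℝ × ℝ) := (volume.restrict S).prod volume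

lemma mu_mono {S S' : Set ℝ} (h : S ⊆ S') : mu S ≤ mu S' := by
  unfold mu
  exact Measure.prod_mono (Measure.restrict_mono h le_rfl) le_rfl

lemma tri {S : Set ℝ} {Φ : ℝ × ℝ × ℝ → ℝ≥0∞} (h : Measurable Φ) :
    ∫⁻ q, Φ q ∂(mu S) = ∫⁻ t in S, ∫⁻ ξ, ∫⁻ η, Φ (t, ξ, η) := by
  unfold mu
  rw [lintegral_prod _ h.aemeasurable]
  refine lintegral_congr fun t => ?_
  have h2 : Measurable (fun p : ℝ × ℝ => Φ (t, p)) := h.comp (by fun_prop)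
  rw [Measure.volume_eq_prod, lintegral_prod _ h2.aemeasurable]

lemma strip4' (T L ρ y0 M : ℝ) (hT : 0 < T) (hL : 0 ≤ L) {g : ℝ × ℝ → ℂ}
    (hg : Nice g L M) (hs : ∀ z, g z ≠ 0 → |z.2 - y0| ≤ ρ) (D : ℝ≥0∞)
    (hD : ∀ x, ∫⁻ y, ‖g (x, y)‖ₑ ^ 2 ≤ D) :
    ∫⁻ q, ‖EQ g q‖ₑ ^ 4 ∂(mu (Icc (-T) T)) ≤
      ENNReal.ofReal ((2 * π) ^ 2) * (ENNReal.ofReal (2 * ρ) *
        (2 * LL T L * D * ∫⁻ z, ‖g z‖ₑ ^ 2)) := by
  rw [tri ((EQ_meas hg.meas).enorm.pow_const 4)]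
  exact strip4 T L ρ y0 M hT hL hg hs D hD

lemma two' (T L M : ℝ) (hL : 0 ≤ L) {g : ℝ × ℝ → ℂ} (hg : Nice g L M) :
    ∫⁻ q, ‖EQ g q‖ₑ ^ 2 ∂(mu (Icc (-T) T)) =
      ENNReal.ofReal (2 * T) * (ENNReal.ofReal ((2 * π) ^ 2) * ∫⁻ z, ‖g z‖ₑ ^ 2) := by
  rw [tri ((EQ_meas hg.meas).enorm.pow_const 2)]
  have : ∀ t : ℝ, ∫⁻ ξ, ∫⁻ η, ‖EQ g (t, ξ, η)‖ₑ ^ 2 =
      ENNReal.ofReal ((2 * π) ^ 2) * ∫⁻ z, ‖g z‖ₑ ^ 2 := fun t => two hg hL t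
  simp only [this]
  rw [lintegral_const, Measure.restrict_apply_univ, Real.volume_Icc, mul_comm]
  congr 2
  ring

lemma EQ_smul (c : ℝ) (f : ℝ × ℝ → ℂ) (q : ℝ × ℝ × ℝ) :
    EQ (fun z => (c : ℂ) * f z) q = (c : ℂ) * EQ f q := by
  unfold EQ EX
  rw [← integral_const_mul]
  congr 1
  ext z
  ring

lemma ee_mul_int {f : ℝ × ℝ → ℂ} {L M : ℝ} (hf : Nice f L M) (ξ η t : ℝ) :
    Integrable (fun z : ℝ × ℝ => ee (z.1 * ξ + z.2 * η + (z.1 ^ 2 + z.2 ^ 2) * t) * f z) :=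
  (hf.mul (by have := ee_meas; fun_prop) (A := 1) (fun z _ => (ee_norm _).le) zero_le_one).int

lemma EQ_add {f g : ℝ × ℝ → ℂ} {L M L' M' : ℝ} (hf : Nice f L M) (hg : Nice g L' M')
    (q : ℝ × ℝ × ℝ) : EQ (fun z => f z + g z) q = EQ f q + EQ g q := by
  unfold EQ EX
  rw [← integral_add (ee_mul_int hf _ _ _) (ee_mul_int hg _ _ _)]
  congr 1
  ext z
  ring

lemma EQ_sum {L M : ℝ} (n : ℕ) (f : ℕ → ℝ × ℝ → ℂ) (hf : ∀ k, Nice (f k) L M)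
    (q : ℝ × ℝ × ℝ) : EQ (fun z => ∑ k ∈ Finset.range n, f k z) q =
      ∑ k ∈ Finset.range n, EQ (f k) q := by
  unfold EQ EX
  rw [← integral_finsetSum _ (fun k _ => ee_mul_int (hf k) _ _ _)]
  congr 1
  ext z
  rw [Finset.mul_sum]

lemma Nice.add {f g : ℝ × ℝ → ℂ} {L M M' : ℝ} (hf : Nice f L M) (hg : Nice g L M') :
    Nice (fun z => f z + g z) L (M + M') where
  meas := hf.meas.add hg.meas
  bd z := (norm_add_le _ _).trans (add_le_add (hf.bd z) (hg.bd z))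
  supp z hz := by
    by_cases h : f z = 0
    · refine hg.supp z fun h' => hz ?_
      simp [h, h']
    · exact hf.supp z h

lemma Nice.mono {f : ℝ × ℝ → ℂ} {L M L' M' : ℝ} (hf : Nice f L M) (hL : L ≤ L') (hM : M ≤ M') :
    Nice f L' M' where
  meas := hf.meas
  bd z := (hf.bd z).trans hM
  supp z hz := ⟨(hf.supp z hz).1.trans hL, (hf.supp z hz).2.trans hL⟩

lemma three_four (a b c : ℝ≥0∞) : (a + b + c) ^ 4 ≤ 27 * (a ^ 4 + b ^ 4 + c ^ 4) := by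
  calc (a + b + c) ^ 4 = ((a + b + c) ^ 2) ^ 2 := by ring
    _ ≤ (3 * (a ^ 2 + b ^ 2 + c ^ 2)) ^ 2 := by gcongr; exact three_sq a b c
    _ = 9 * (a ^ 2 + b ^ 2 + c ^ 2) ^ 2 := by ring
    _ ≤ 9 * (3 * ((a ^ 2) ^ 2 + (b ^ 2) ^ 2 + (c ^ 2) ^ 2)) := by gcongr; exact three_sq _ _ _
    _ = _ := by ring

end Pool.Agent.TH218.DR
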