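import Mathlib
import Pool.Agent.TH218.DR.A8
set_option autoImplicit false

/-!
# Directional regularity, part 9: decomposition into strips
-/

namespace Pool.Agent.TH218.DR

open MeasureTheory Set Complex
open scoped ENNReal NNReal Real FourierTransform

/-- the argument of the `k`-th cutoff -/
noncomputable def ar (ρ : ℝ) (N k : ℕ) (y : ℝ) : ℝ := y / ρ - ((k : ℝ) - N)

/-- centre of the `k`-th strip -/
noncomputable def ck (ρ : ℝ) (N k : ℕ) : ℝ := ρ * ((k : ℝ) - N)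

/-- the part of `G` in the `k`-th strip -/
noncomputable def g1 (ρ : ℝ) (N k : ℕ) (G : ℝ × ℝ → ℂ) (z : ℝ × ℝ) : ℂ :=
  ((chi (ar ρ N k z.2) : ℝ) : ℂ) * G z

/-- its derivative -/
noncomputable def g2 (ρ : ℝ) (N k : ℕ) (G G' : ℝ × ℝ → ℂ) (z : ℝ × ℝ) : ℂ :=
  ((ρ⁻¹ * dchi (ar ρ N k z.2) : ℝ) : ℂ) * G z + ((chi (ar ρ N k z.2) : ℝ) : ℂ) * G' z

/-- the local mass -/
noncomputable def WW (G G' : ℝ × ℝ → ℂ) (B : ℝ) (z : ℝ × ℝ) : ℝ≥0∞ :=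
  ‖G z‖ₑ ^ 2 + ‖((B⁻¹ : ℝ) : ℂ) * G' z‖ₑ ^ 2

/-- the shell of times -/
def Sh (R : ℝ) : Set ℝ := {t | R ≤ |t| ∧ |t| ≤ 2 * R}

lemma Sh_meas (R : ℝ) : MeasurableSet (Sh R) :=
  (measurableSet_le measurable_const measurable_norm).inter
    (measurableSet_le measurable_norm measurable_const)

lemma Sh_sub (R : ℝ) : Sh R ⊆ Icc (-(2 * R)) (2 * R) := fun _ ht => abs_le.1 ht.2

lemma ar_cont (ρ : ℝ) (N k : ℕ) : Continuous (ar ρ N k) := by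
  unfold ar
  fun_prop

lemma ar_le {ρ : ℝ} (hρ : 0 < ρ) (N k : ℕ) (y : ℝ) : |ar ρ N k y| ≤ 1 ↔ |y - ck ρ N k| ≤ ρ := by
  have e : y - ck ρ N k = ρ * ar ρ N k y := by
    unfold ck ar
    field_simp
  rw [e, abs_mul, abs_of_pos hρ]
  constructor
  · intro h
    nlinarith
  · intro h
    by_contra hc
    push Not at hc
    nlinarith

lemma g1_supp {ρ : ℝ} (hρ : 0 < ρ) (N k : ℕ) (G : ℝ × ℝ → ℂ) (z : ℝ × ℝ) (hz : g1 ρ N k G z ≠ 0) :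
    |z.2 - ck ρ N k| ≤ ρ := by
  rw [← ar_le hρ]
  by_contra hc
  push Not at hc
  apply hz
  unfold g1
  rw [chi_supp hc]
  simp

lemma g2_supp {ρ : ℝ} (hρ : 0 < ρ) (N k : ℕ) (G G' : ℝ × ℝ → ℂ) (z : ℝ × ℝ)
    (hz : g2 ρ N k G G' z ≠ 0) : |z.2 - ck ρ N k| ≤ ρ := by
  rw [← ar_le hρ]
  by_contra hc
  push Not at hc
  apply hz
  unfold g2
  rw [chi_supp hc, dchi_supp hc]
  simp

lemma chi_meas_z (ρ : ℝ) (N k : ℕ) :
    Measurable (fun z : ℝ × ℝ => ((chi (ar ρ N k z.2) : ℝ) : ℂ)) := by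
  have h1 := chi_cont
  have h2 := ar_cont ρ N k
  exact Complex.measurable_ofReal.comp ((h1.comp (h2.comp continuous_snd)).measurable)

lemma dchi_meas_z (ρ : ℝ) (N k : ℕ) :
    Measurable (fun z : ℝ × ℝ => ((ρ⁻¹ * dchi (ar ρ N k z.2) : ℝ) : ℂ)) := by
  have h1 := dchi_cont
  have h2 := ar_cont ρ N k
  exact Complex.measurable_ofReal.comp
    ((continuous_const.mul (h1.comp (h2.comp continuous_snd))).measurable)

lemma chi_norm (ρ : ℝ) (N k : ℕ) (z : ℝ × ℝ) : ‖((chi (ar ρ N k z.2) : ℝ) : ℂ)‖ ≤ 1 := by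
  rw [Complex.norm_real]
  exact chi_bd _

lemma g1_nice {ρ : ℝ} (N k : ℕ) {G : ℝ × ℝ → ℂ} {L M : ℝ} (hG : Nice G L M) :
    Nice (g1 ρ N k G) L M := by
  have := hG.mul (chi_meas_z ρ N k) (A := 1) (fun z _ => chi_norm ρ N k z) zero_le_one
  rw [one_mul] at this
  exact this

lemma g2_nice {ρ Cd : ℝ} (hρ : 0 < ρ) (hCd0 : 0 ≤ Cd) (hCd : ∀ u, |dchi u| ≤ Cd) (N k : ℕ)
    {G G' : ℝ × ℝ → ℂ} {L M M' : ℝ} (hG : Nice G L M) (hG' : Nice G' L M') :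
    Nice (g2 ρ N k G G') L (ρ⁻¹ * Cd * M + 1 * M') := by
  have h1 := hG.mul (dchi_meas_z ρ N k) (A := ρ⁻¹ * Cd) (fun z _ => by
    rw [Complex.norm_real, Real.norm_eq_abs, abs_mul, abs_of_pos (inv_pos.2 hρ)]
    gcongr
    exact hCd _) (by positivity)
  have h2 := hG'.mul (chi_meas_z ρ N k) (A := 1) (fun z _ => chi_norm ρ N k z) zero_le_one
  exact h1.add h2

lemma g12_der (ρ : ℝ) (N k : ℕ) {G G' : ℝ × ℝ → ℂ} (hd : DerY G G') :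
    DerY (g1 ρ N k G) (g2 ρ N k G G') := by
  intro x y
  have h1 : HasDerivAt (fun y : ℝ => ar ρ N k y) (1 / ρ) y :=
    ((hasDerivAt_id y).div_const ρ).sub_const _
  have h2 : HasDerivAt (fun y : ℝ => chi (ar ρ N k y)) (dchi (ar ρ N k y) * (1 / ρ)) y :=
    (chi_der (ar ρ N k y)).comp y h1
  have h3 := h2.ofReal_comp.mul (hd x y)
  have e : ((dchi (ar ρ N k y) * (1 / ρ) : ℝ) : ℂ) * G (x, y) +
      ((chi (ar ρ N k y) : ℝ) : ℂ) * G' (x, y) = g2 ρ N k G G' (x, y) := by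
    unfold g2
    push_cast
    ring
  rw [e] at h3
  exact h3

lemma sum_g1 {ρ L M : ℝ} (hρ : 0 < ρ) (N : ℕ) (hN : L / ρ ≤ N) {G : ℝ × ℝ → ℂ} (hG : Nice G L M)
    (z : ℝ × ℝ) : ∑ k ∈ Finset.range (2 * N + 1), g1 ρ N k G z = G z := by
  by_cases hz : G z = 0
  · simp [g1, hz]
  · unfold g1
    rw [← Finset.sum_mul, ← Complex.ofReal_sum]
    have h1 : |z.2 / ρ| ≤ N := by
      rw [abs_div, abs_of_pos hρ]
      refine le_trans ?_ hN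
      gcongr
      exact (hG.supp z hz).2
    have := chi_sum N (z.2 / ρ) h1
    unfold ar
    rw [this]
    simp

lemma h1_le {ρ : ℝ} (N k : ℕ) (G G' : ℝ × ℝ → ℂ) (B : ℝ) (z : ℝ × ℝ) :
    ‖g1 ρ N k G z‖ₑ ^ 2 ≤ WW G G' B z := by
  unfold WW
  refine le_trans ?_ le_self_add
  have : ‖g1 ρ N k G z‖ₑ ≤ ‖G z‖ₑ := by
    rw [← ofReal_norm, ← ofReal_norm]
    apply ENNReal.ofReal_le_ofReal
    unfold g1
    rw [norm_mul]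
    calc _ ≤ 1 * ‖G z‖ := by gcongr; exact chi_norm ρ N k z
      _ = _ := one_mul _
  gcongr

lemma h2_le {ρ B Cd : ℝ} (hρ : 0 < ρ) (hB : 0 < B) (hBρ : 1 ≤ B * ρ)
    (hCd : ∀ u, |dchi u| ≤ Cd) (N k : ℕ) (G G' : ℝ × ℝ → ℂ) (z : ℝ × ℝ) :
    ‖((B⁻¹ : ℝ) : ℂ) * g2 ρ N k G G' z‖ₑ ^ 2 ≤ ENNReal.ofReal (2 * (Cd ^ 2 + 1)) * WW G G' B z := by
  unfold WW
  have h1 : ‖((B⁻¹ : ℝ) : ℂ) * g2 ρ N k G G' z‖ ≤ Cd * ‖G z‖ + ‖((B⁻¹ : ℝ) : ℂ) * G' z‖ := by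
    have e : ((B⁻¹ : ℝ) : ℂ) * g2 ρ N k G G' z =
        ((B⁻¹ * ρ⁻¹ * dchi (ar ρ N k z.2) : ℝ) : ℂ) * G z +
          ((chi (ar ρ N k z.2) : ℝ) : ℂ) * (((B⁻¹ : ℝ) : ℂ) * G' z) := by
      unfold g2
      push_cast
      ring
    rw [e]
    refine (norm_add_le _ _).trans ?_
    rw [norm_mul, norm_mul ((chi (ar ρ N k z.2) : ℝ) : ℂ)]
    have a1 : ‖((B⁻¹ * ρ⁻¹ * dchi (ar ρ N k z.2) : ℝ) : ℂ)‖ ≤ Cd := by
      rw [Complex.norm_real, Real.norm_eq_abs, abs_mul, ← mul_inv,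
        abs_of_pos (inv_pos.2 (mul_pos hB hρ))]
      calc (B * ρ)⁻¹ * |dchi (ar ρ N k z.2)| ≤ 1 * Cd := by
            gcongr
            · exact inv_le_one_of_one_le₀ hBρ
            · exact hCd _
        _ = Cd := one_mul _
    have a2 := chi_norm ρ N k z
    calc _ ≤ Cd * ‖G z‖ + 1 * ‖((B⁻¹ : ℝ) : ℂ) * G' z‖ := by gcongr
      _ = _ := by rw [one_mul]
  rw [← ofReal_norm, ← ofReal_norm, ← ofReal_norm, ← ENNReal.ofReal_pow (norm_nonneg _),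
    ← ENNReal.ofReal_pow (norm_nonneg _), ← ENNReal.ofReal_pow (norm_nonneg _),
    ← ENNReal.ofReal_add (by positivity) (by positivity), ← ENNReal.ofReal_mul (by positivity)]
  apply ENNReal.ofReal_le_ofReal
  set a := ‖G z‖ with ha
  set b := ‖((B⁻¹ : ℝ) : ℂ) * G' z‖ with hb
  have ha0 : 0 ≤ a := norm_nonneg _
  have hb0 : 0 ≤ b := norm_nonneg _
  calc ‖((B⁻¹ : ℝ) : ℂ) * g2 ρ N k G G' z‖ ^ 2 ≤ (Cd * a + b) ^ 2 := by gcongr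
    _ ≤ 2 * (Cd ^ 2 + 1) * (a ^ 2 + b ^ 2) := by
        nlinarith [sq_nonneg (Cd * a - b), sq_nonneg a, sq_nonneg b, sq_nonneg (Cd * b),
          mul_nonneg (sq_nonneg Cd) (sq_nonneg b)]

lemma h3_le {ρ : ℝ} (hρ : 0 < ρ) (N k : ℕ) (G G' : ℝ × ℝ → ℂ) (B : ℝ) (z : ℝ × ℝ) :
    ‖((4 / ρ : ℝ) : ℂ) * (((z.2 - ck ρ N k : ℝ) : ℂ) * g1 ρ N k G z)‖ₑ ^ 2 ≤ 16 * WW G G' B z := by
  by_cases h0 : g1 ρ N k G z = 0
  · simp [h0]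
  have hs := g1_supp hρ N k G z h0
  have h1 : ‖((4 / ρ : ℝ) : ℂ) * (((z.2 - ck ρ N k : ℝ) : ℂ) * g1 ρ N k G z)‖ ≤
      4 * ‖g1 ρ N k G z‖ := by
    rw [norm_mul, norm_mul, Complex.norm_real, Complex.norm_real, Real.norm_eq_abs,
      Real.norm_eq_abs, abs_of_pos (by positivity)]
    calc 4 / ρ * (|z.2 - ck ρ N k| * ‖g1 ρ N k G z‖) ≤ 4 / ρ * (ρ * ‖g1 ρ N k G z‖) := by gcongr
      _ = _ := by field_simp
  have h2 : ‖((4 / ρ : ℝ) : ℂ) * (((z.2 - ck ρ N k : ℝ) : ℂ) * g1 ρ N k G z)‖ₑ ≤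
      4 * ‖g1 ρ N k G z‖ₑ := by
    rw [← ofReal_norm, ← ofReal_norm, show (4 : ℝ≥0∞) = ENNReal.ofReal 4 by norm_num,
      ← ENNReal.ofReal_mul (by norm_num)]
    exact ENNReal.ofReal_le_ofReal h1
  calc _ ≤ (4 * ‖g1 ρ N k G z‖ₑ) ^ 2 := by gcongr
    _ = 16 * ‖g1 ρ N k G z‖ₑ ^ 2 := by ring
    _ ≤ _ := by gcongr; exact h1_le N k G G' B z

end Pool.Agent.TH218.DR
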