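import Mathlib
import Pool.Agent.TH218.DR.A9
set_option autoImplicit false

/-!
# Directional regularity, part 10: the `L⁴` shell estimate
-/

namespace Pool.Agent.TH218.DR

open MeasureTheory Set Complex
open scoped ENNReal NNReal Real FourierTransform

/-- the strip -/
def st (c ρ : ℝ) : Set (ℝ × ℝ) := {z | |z.2 - c| ≤ ρ}

lemma st_meas (c ρ : ℝ) : MeasurableSet (st c ρ) :=
  measurableSet_le (by fun_prop) measurable_const

lemma WW_meas {G G' : ℝ × ℝ → ℂ} (hG : Measurable G) (hG' : Measurable G') (B : ℝ) :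
    Measurable (WW G G' B) := by
  unfold WW
  fun_prop

lemma piece4 (R ρ L M c B : ℝ) (hR : 0 < R) (hL : 0 ≤ L) {h G G' : ℝ × ℝ → ℂ}
    (hh : Nice h L M) (hs : ∀ z, h z ≠ 0 → |z.2 - c| ≤ ρ) (hG : Measurable G) (hG' : Measurable G')
    (A0 D : ℝ≥0∞) (hA : A0 ≠ ∞) (hW : ∀ z, ‖h z‖ₑ ^ 2 ≤ A0 * WW G G' B z)
    (hD : ∀ x c, ∫⁻ y in Icc (c - ρ) (c + ρ), WW G G' B (x, y) ≤ D) :
    ∫⁻ q, ‖EQ h q‖ₑ ^ 4 ∂(mu (Sh R)) ≤
      ENNReal.ofReal ((2 * π) ^ 2) * (ENNReal.ofReal (2 * ρ) *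
        (2 * LL (2 * R) L * (A0 * D) * (A0 * ∫⁻ z in st c ρ, WW G G' B z))) := by
  have hWm := WW_meas hG hG' B
  calc ∫⁻ q, ‖EQ h q‖ₑ ^ 4 ∂(mu (Sh R)) ≤ ∫⁻ q, ‖EQ h q‖ₑ ^ 4 ∂(mu (Icc (-(2 * R)) (2 * R))) :=
        lintegral_mono' (mu_mono (Sh_sub R)) le_rfl
    _ ≤ ENNReal.ofReal ((2 * π) ^ 2) * (ENNReal.ofReal (2 * ρ) *
        (2 * LL (2 * R) L * (A0 * D) * ∫⁻ z, ‖h z‖ₑ ^ 2)) := by
        refine strip4' (2 * R) L ρ c M (by linarith) hL hh hs (A0 * D) ?_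
        intro x
        have hm : Measurable (fun y : ℝ => WW G G' B (x, y)) := hWm.comp (by fun_prop)
        calc ∫⁻ y, ‖h (x, y)‖ₑ ^ 2 ≤ ∫⁻ y in Icc (c - ρ) (c + ρ), A0 * WW G G' B (x, y) := by
              rw [← lintegral_indicator measurableSet_Icc]
              refine lintegral_mono fun y => ?_
              by_cases hy : y ∈ Icc (c - ρ) (c + ρ)
              · rw [indicator_of_mem hy]
                exact hW _
              · rw [indicator_of_notMem hy]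
                have : h (x, y) = 0 := by
                  by_contra h0
                  have := abs_le.1 (hs _ h0)
                  exact hy ⟨by linarith [this.1], by linarith [this.2]⟩
                simp [this]
          _ = A0 * ∫⁻ y in Icc (c - ρ) (c + ρ), WW G G' B (x, y) := by
              rw [lintegral_const_mul _ hm]
          _ ≤ A0 * D := by gcongr; exact hD x c
    _ ≤ _ := by
        gcongr
        calc ∫⁻ z, ‖h z‖ₑ ^ 2 ≤ ∫⁻ z in st c ρ, A0 * WW G G' B z := by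
              rw [← lintegral_indicator (st_meas c ρ)]
              refine lintegral_mono fun z => ?_
              by_cases hz : z ∈ st c ρ
              · rw [indicator_of_mem hz]
                exact hW _
              · rw [indicator_of_notMem hz]
                have : h z = 0 := by
                  by_contra h0
                  exact hz (hs _ h0)
                simp [this]
          _ = A0 * ∫⁻ z in st c ρ, WW G G' B z := by
              rw [lintegral_const_mul _ hWm]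

lemma card3 (u : ℝ) (n : ℕ) : ((Finset.range n).filter (fun k : ℕ => |u - k| ≤ 1)).card ≤ 3 := by
  have h1 : (((Finset.range n).filter (fun k : ℕ => |u - k| ≤ 1)).map
      ⟨fun k : ℕ => (k : ℤ), Nat.cast_injective⟩) ⊆ Finset.Icc ⌈u - 1⌉ ⌊u + 1⌋ := by
    intro j hj
    rw [Finset.mem_map] at hj
    obtain ⟨k, hk, rfl⟩ := hj
    rw [Finset.mem_filter] at hk
    have h2 := abs_le.1 hk.2
    rw [Finset.mem_Icc, Int.ceil_le, Int.le_floor]
    simp only [Function.Embedding.coeFn_mk, Int.cast_natCast]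
    constructor <;> linarith
  have h2 := Finset.card_le_card h1
  rw [Finset.card_map, Int.card_Icc] at h2
  refine h2.trans ?_
  have h3 : ⌊u + 1⌋ = ⌊u⌋ + 1 := by
    have := Int.floor_add_one u
    exact this
  have h4 : ⌈u - 1⌉ = ⌈u⌉ - 1 := by
    have := Int.ceil_sub_one u
    exact this
  have h5 : ⌊u⌋ ≤ ⌈u⌉ := Int.floor_le_ceil u
  rw [h3, h4]
  omega

lemma sum_strips {ρ : ℝ} (hρ : 0 < ρ) (N n : ℕ) {W : ℝ × ℝ → ℝ≥0∞} (hW : Measurable W) :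
    ∑ k ∈ Finset.range n, ∫⁻ z in st (ck ρ N k) ρ, W z ≤ 3 * ∫⁻ z, W z := by
  classical
  have e : ∑ k ∈ Finset.range n, ∫⁻ z in st (ck ρ N k) ρ, W z =
      ∫⁻ z, ∑ k ∈ Finset.range n, (st (ck ρ N k) ρ).indicator W z := by
    rw [lintegral_finsetSum _ (fun k _ => hW.indicator (st_meas _ _))]
    refine Finset.sum_congr rfl fun k _ => ?_
    rw [lintegral_indicator (st_meas _ _)]
  rw [e, ← lintegral_const_mul _ hW]
  refine lintegral_mono fun z => ?_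
  have h1 : ∀ k : ℕ, (st (ck ρ N k) ρ).indicator W z =
      if |(z.2 / ρ + N) - k| ≤ 1 then W z else 0 := by
    intro k
    have h2 : z ∈ st (ck ρ N k) ρ ↔ |(z.2 / ρ + N) - k| ≤ 1 := by
      have h3 := ar_le hρ N k z.2
      have h4 : ar ρ N k z.2 = (z.2 / ρ + N) - k := by
        unfold ar
        ring
      rw [h4] at h3
      exact h3.symm
    by_cases h : z ∈ st (ck ρ N k) ρ
    · rw [indicator_of_mem h, if_pos (h2.1 h)]
    · rw [indicator_of_notMem h, if_neg (fun h' => h (h2.2 h'))]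
  simp only [h1]
  rw [← Finset.sum_filter, Finset.sum_const, nsmul_eq_mul]
  gcongr
  exact_mod_cast card3 (z.2 / ρ + N) n

/-- the pointwise bound -/
lemma pointw {ρ L M M' R B Cd : ℝ} (hρ : 0 < ρ) (hR : 0 < R) (hB : B = R * ρ) (hL : 0 ≤ L)
    (hCd0 : 0 ≤ Cd) (hCd : ∀ u, |dchi u| ≤ Cd) (N k : ℕ) {G G' : ℝ × ℝ → ℂ} (hG : Nice G L M)
    (hG' : Nice G' L M') (hd : DerY G G') (q : ℝ × ℝ × ℝ) (hq : q.1 ∈ Sh R) :
    ENNReal.ofReal (1 + |(q.2.2 - 2 * q.1 * ρ * N) / B + 2 * q.1 * ρ / B * k|) *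
        ‖EQ (g1 ρ N k G) q‖ₑ ≤
      ‖EQ (g1 ρ N k G) q‖ₑ + ‖EQ (fun z => ((B⁻¹ : ℝ) : ℂ) * g2 ρ N k G G' z) q‖ₑ +
        ‖EQ (fun z => ((4 / ρ : ℝ) : ℂ) * (((z.2 - ck ρ N k : ℝ) : ℂ) * g1 ρ N k G z)) q‖ₑ := by
  have hB0 : 0 < B := by rw [hB]; positivity
  have h := vf_norm hL (g1_nice (ρ := ρ) N k hG) (g2_nice hρ hCd0 hCd N k hG hG')
    (g12_der ρ N k hd) (ck ρ N k) q.2.1 q.2.2 q.1
  rw [EQ_smul, EQ_smul]
  have e1 : (q.2.2 - 2 * q.1 * ρ * N) / B + 2 * q.1 * ρ / B * k =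
      (q.2.2 + 2 * q.1 * ck ρ N k) / B := by
    unfold ck
    field_simp
    ring
  rw [e1]
  simp only [← ofReal_norm]
  rw [← ENNReal.ofReal_mul (by positivity), ← ENNReal.ofReal_add (norm_nonneg _) (norm_nonneg _),
    ← ENNReal.ofReal_add (by positivity) (norm_nonneg _)]
  apply ENNReal.ofReal_le_ofReal
  rw [norm_mul, norm_mul, Complex.norm_real, Complex.norm_real, Real.norm_eq_abs, Real.norm_eq_abs,
    abs_of_pos (inv_pos.2 hB0), abs_of_pos (by positivity : 0 < 4 / ρ), abs_div, abs_of_pos hB0]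
  have hq2 : |q.1| ≤ 2 * R := hq.2
  set a := ‖EQ (g1 ρ N k G) q‖ with ha
  set b := ‖EQ (g2 ρ N k G G') q‖ with hb
  set c := ‖EQ (fun z => ((z.2 - ck ρ N k : ℝ) : ℂ) * g1 ρ N k G z) q‖ with hc
  have h' : |q.2.2 + 2 * q.1 * ck ρ N k| * a ≤ b + 2 * |q.1| * c := h
  have hc0 : 0 ≤ c := norm_nonneg _
  calc (1 + |q.2.2 + 2 * q.1 * ck ρ N k| / B) * a = a + (|q.2.2 + 2 * q.1 * ck ρ N k| * a) / B := by
        ring
    _ ≤ a + (b + 2 * |q.1| * c) / B := by gcongr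
    _ ≤ a + (b + 2 * (2 * R) * c) / B := by gcongr
    _ = a + B⁻¹ * b + 4 / ρ * c := by
        rw [hB]
        field_simp
        ring

/-- **The `L⁴` shell estimate.** -/
theorem shell4 : ∃ C : ℝ≥0, ∀ (R ρ L M M' : ℝ) (G G' : ℝ × ℝ → ℂ) (D : ℝ≥0∞), 0 < R → 0 < ρ →
    1 ≤ R * ρ * ρ → 0 ≤ L → Nice G L M → Nice G' L M' → DerY G G' →
    (∀ x c, ∫⁻ y in Icc (c - ρ) (c + ρ), WW G G' (R * ρ) (x, y) ≤ D) →
    ∫⁻ q, ‖EQ G q‖ₑ ^ 4 ∂(mu (Sh R)) ≤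
      C * (ENNReal.ofReal ρ * (LL (2 * R) L * (D * ∫⁻ z, WW G G' (R * ρ) z))) := by
  obtain ⟨Ch, hCh⟩ := holder_w
  obtain ⟨Cd, hCd0, hCd⟩ := dchi_bd
  set A0 : ℝ≥0 := max 16 (2 * (Cd ^ 2 + 1)).toNNReal with hA0
  refine ⟨Ch * (27 * (3 * ((((2 * π) ^ 2).toNNReal * (4 * A0 * A0)) * 3))), ?_⟩
  intro R ρ L M M' G G' D hR hρ hBρ hL hG hG' hd hD
  set B := R * ρ with hB
  have hB0 : 0 < B := by positivity
  obtain ⟨N, hN⟩ := exists_nat_ge (L / ρ)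
  set h2 : ℕ → ℝ × ℝ → ℂ := fun k z => ((B⁻¹ : ℝ) : ℂ) * g2 ρ N k G G' z with hh2
  set h3 : ℕ → ℝ × ℝ → ℂ := fun k z =>
    ((4 / ρ : ℝ) : ℂ) * (((z.2 - ck ρ N k : ℝ) : ℂ) * g1 ρ N k G z) with hh3
  have n1 : ∀ k, Nice (g1 ρ N k G) L M := fun k => g1_nice N k hG
  have n2 : ∀ k, ∃ M2, Nice (h2 k) L M2 := fun k => ⟨_, (g2_nice hρ hCd0 hCd N k hG hG').mul
    measurable_const (A := ‖((B⁻¹ : ℝ) : ℂ)‖) (fun _ _ => le_rfl) (norm_nonneg _)⟩
  have n3 : ∀ k, ∃ M3, Nice (h3 k) L M3 := by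
    intro k
    have a1 := (n1 k).mul (a := fun z => ((z.2 - ck ρ N k : ℝ) : ℂ)) (by fun_prop)
        (A := L + |ck ρ N k|) (fun z hz => by
          have hz2 := ((n1 k).supp z hz).2
          rw [Complex.norm_real, Real.norm_eq_abs]
          exact (abs_sub _ _).trans (by gcongr)) (by positivity)
    exact ⟨_, a1.mul (a := fun _ => ((4 / ρ : ℝ) : ℂ)) measurable_const
      (A := ‖((4 / ρ : ℝ) : ℂ)‖) (fun _ _ => le_rfl) (norm_nonneg _)⟩
  have s1 : ∀ k z, g1 ρ N k G z ≠ 0 → |z.2 - ck ρ N k| ≤ ρ := fun k z => g1_supp hρ N k G z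
  have s2 : ∀ k z, h2 k z ≠ 0 → |z.2 - ck ρ N k| ≤ ρ := fun k z hz =>
    g2_supp hρ N k G G' z (right_ne_zero_of_mul hz)
  have s3 : ∀ k z, h3 k z ≠ 0 → |z.2 - ck ρ N k| ≤ ρ := fun k z hz =>
    g1_supp hρ N k G z (right_ne_zero_of_mul (right_ne_zero_of_mul hz))
  have c1 : (1 : ℝ≥0∞) ≤ A0 := by
    have : (1 : ℝ≥0) ≤ A0 := le_trans (by norm_num) (le_max_left _ _)
    exact_mod_cast this
  have c2 : ENNReal.ofReal (2 * (Cd ^ 2 + 1)) ≤ A0 := by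
    unfold ENNReal.ofReal
    exact_mod_cast le_max_right _ _
  have c3 : (16 : ℝ≥0∞) ≤ A0 := by
    have : (16 : ℝ≥0) ≤ A0 := le_max_left _ _
    exact_mod_cast this
  have w1 : ∀ k z, ‖g1 ρ N k G z‖ₑ ^ 2 ≤ A0 * WW G G' B z := fun k z => by
    refine (h1_le N k G G' B z).trans ?_
    calc WW G G' B z = 1 * WW G G' B z := (one_mul _).symm
      _ ≤ _ := by gcongr
  have w2 : ∀ k z, ‖h2 k z‖ₑ ^ 2 ≤ A0 * WW G G' B z := fun k z => by
    refine (h2_le hρ hB0 hBρ hCd N k G G' z).trans ?_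
    gcongr
  have w3 : ∀ k z, ‖h3 k z‖ₑ ^ 2 ≤ A0 * WW G G' B z := fun k z => by
    refine (h3_le hρ N k G G' B z).trans ?_
    gcongr
  have hWm := WW_meas hG.meas hG'.meas B
  -- the bound of each piece
  set P : ℕ → ℝ≥0∞ := fun k => ENNReal.ofReal ((2 * π) ^ 2) * (ENNReal.ofReal (2 * ρ) *
        (2 * LL (2 * R) L * (A0 * D) * (A0 * ∫⁻ z in st (ck ρ N k) ρ, WW G G' B z))) with hP
  have p1 : ∀ k, ∫⁻ q, ‖EQ (g1 ρ N k G) q‖ₑ ^ 4 ∂(mu (Sh R)) ≤ P k := fun k =>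
    piece4 R ρ L M (ck ρ N k) B hR hL (n1 k) (s1 k) hG.meas hG'.meas A0 D ENNReal.coe_ne_top
      (w1 k) hD
  have p2 : ∀ k, ∫⁻ q, ‖EQ (h2 k) q‖ₑ ^ 4 ∂(mu (Sh R)) ≤ P k := fun k => by
    obtain ⟨M2, hM2⟩ := n2 k
    exact piece4 R ρ L M2 (ck ρ N k) B hR hL hM2 (s2 k) hG.meas hG'.meas A0 D ENNReal.coe_ne_top
      (w2 k) hD
  have p3 : ∀ k, ∫⁻ q, ‖EQ (h3 k) q‖ₑ ^ 4 ∂(mu (Sh R)) ≤ P k := fun k => by
    obtain ⟨M3, hM3⟩ := n3 k
    exact piece4 R ρ L M3 (ck ρ N k) B hR hL hM3 (s3 k) hG.meas hG'.meas A0 D ENNReal.coe_ne_top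
      (w3 k) hD
  have me1 : ∀ k, Measurable (fun q => ‖EQ (g1 ρ N k G) q‖ₑ ^ 4) := fun k =>
    (EQ_meas (n1 k).meas).enorm.pow_const 4
  have me2 : ∀ k, Measurable (fun q => ‖EQ (h2 k) q‖ₑ ^ 4) := fun k => by
    obtain ⟨M2, hM2⟩ := n2 k
    exact (EQ_meas hM2.meas).enorm.pow_const 4
  have me3 : ∀ k, Measurable (fun q => ‖EQ (h3 k) q‖ₑ ^ 4) := fun k => by
    obtain ⟨M3, hM3⟩ := n3 k
    exact (EQ_meas hM3.meas).enorm.pow_const 4
  -- pointwise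
  have hpt : ∀ q : ℝ × ℝ × ℝ, q.1 ∈ Sh R → ‖EQ G q‖ₑ ^ 4 ≤
      Ch * ∑ k ∈ Finset.range (2 * N + 1), 27 * (‖EQ (g1 ρ N k G) q‖ₑ ^ 4 + ‖EQ (h2 k) q‖ₑ ^ 4 +
        ‖EQ (h3 k) q‖ₑ ^ 4) := by
    intro q hq
    have e1 : EQ G q = ∑ k ∈ Finset.range (2 * N + 1), EQ (g1 ρ N k G) q := by
      rw [← EQ_sum (2 * N + 1) (fun k => g1 ρ N k G) n1 q]
      congr 1
      ext z
      exact (sum_g1 hρ N hN hG z).symm
    have hτ : 2 ≤ |2 * q.1 * ρ / B| := by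
      have : 2 * q.1 * ρ / B = 2 * (q.1 / R) := by
        rw [hB]
        field_simp
      rw [this, abs_mul, abs_two, abs_div, abs_of_pos hR]
      have : 1 ≤ |q.1| / R := by
        rw [le_div_iff₀ hR, one_mul]
        exact hq.1
      linarith
    have h5 := hCh ((q.2.2 - 2 * q.1 * ρ * N) / B) (2 * q.1 * ρ / B) hτ (2 * N + 1)
      (fun k => ‖EQ (g1 ρ N k G) q‖ₑ)
      (fun k => ‖EQ (g1 ρ N k G) q‖ₑ + ‖EQ (h2 k) q‖ₑ + ‖EQ (h3 k) q‖ₑ)
      (fun k => pointw hρ hR hB hL hCd0 hCd N k hG hG' hd q hq)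
    calc ‖EQ G q‖ₑ ^ 4 ≤ (∑ k ∈ Finset.range (2 * N + 1), ‖EQ (g1 ρ N k G) q‖ₑ) ^ 4 := by
          rw [e1]
          gcongr
          exact enorm_sum_le _ _
      _ ≤ _ := h5
      _ ≤ _ := by
          gcongr with k hk
          exact three_four _ _ _
  have hSm : MeasurableSet {q : ℝ × ℝ × ℝ | q.1 ∈ Sh R} := measurable_fst (Sh_meas R)
  have hae : ∀ᵐ q ∂(mu (Sh R)), q.1 ∈ Sh R := by
    have e : mu (Sh R) = (volume : Measure (ℝ × ℝ × ℝ)).restrict (Sh R ×ˢ univ) := by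
      unfold mu
      rw [Measure.volume_eq_prod ℝ (ℝ × ℝ), ← Measure.prod_restrict, Measure.restrict_univ]
    rw [e]
    filter_upwards [ae_restrict_mem ((Sh_meas R).prod MeasurableSet.univ)] with q hq
    exact hq.1
  calc ∫⁻ q, ‖EQ G q‖ₑ ^ 4 ∂(mu (Sh R))
      ≤ ∫⁻ q, Ch * ∑ k ∈ Finset.range (2 * N + 1), 27 * (‖EQ (g1 ρ N k G) q‖ₑ ^ 4 +
          ‖EQ (h2 k) q‖ₑ ^ 4 + ‖EQ (h3 k) q‖ₑ ^ 4) ∂(mu (Sh R)) := by
        refine lintegral_mono_ae ?_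
        filter_upwards [hae] with q hq
        exact hpt q hq
    _ = Ch * ∑ k ∈ Finset.range (2 * N + 1), 27 * ((∫⁻ q, ‖EQ (g1 ρ N k G) q‖ₑ ^ 4 ∂(mu (Sh R))) +
          (∫⁻ q, ‖EQ (h2 k) q‖ₑ ^ 4 ∂(mu (Sh R))) + ∫⁻ q, ‖EQ (h3 k) q‖ₑ ^ 4 ∂(mu (Sh R))) := by
        rw [lintegral_const_mul' _ _ ENNReal.coe_ne_top, lintegral_finsetSum]
        · congr 1
          refine Finset.sum_congr rfl fun k _ => ?_
          have m12 : Measurable (fun q => ‖EQ (g1 ρ N k G) q‖ₑ ^ 4 + ‖EQ (h2 k) q‖ₑ ^ 4) :=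
            (me1 k).add (me2 k)
          rw [lintegral_const_mul' _ _ (by norm_num), lintegral_add_left m12,
            lintegral_add_left (me1 k)]
        · intro k _
          exact (((me1 k).add (me2 k)).add (me3 k)).const_mul _
    _ ≤ Ch * ∑ k ∈ Finset.range (2 * N + 1), 27 * (P k + P k + P k) := by
        gcongr with k hk
        · exact p1 k
        · exact p2 k
        · exact p3 k
    _ = Ch * (27 * (3 * (ENNReal.ofReal ((2 * π) ^ 2) * (ENNReal.ofReal (2 * ρ) *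
        (2 * LL (2 * R) L * (A0 * D) * (A0 *
          ∑ k ∈ Finset.range (2 * N + 1), ∫⁻ z in st (ck ρ N k) ρ, WW G G' B z)))))) := by
        rw [hP]
        simp only [← Finset.mul_sum, ← two_mul, ← add_mul]
        congr 1
        have : ∀ x : ℝ≥0∞, 27 * (x + x + x) = 27 * (3 * x) := fun x => by ring
        simp only [Finset.sum_add_distrib, ← Finset.mul_sum]
        ring
    _ ≤ Ch * (27 * (3 * (ENNReal.ofReal ((2 * π) ^ 2) * (ENNReal.ofReal (2 * ρ) *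
        (2 * LL (2 * R) L * (A0 * D) * (A0 * (3 * ∫⁻ z, WW G G' B z))))))) := by
        gcongr
        exact sum_strips hρ N _ hWm
    _ = _ := by
        rw [ENNReal.ofReal_mul (by norm_num : (0 : ℝ) ≤ 2)]
        push_cast
        unfold ENNReal.ofReal
        have : (((2 : ℝ).toNNReal : ℝ≥0) : ℝ≥0∞) = 2 := by norm_num
        rw [this]
        ring

end Pool.Agent.TH218.DR
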