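import Mathlib
import Pool.Agent.TH218.DR.A10
set_option autoImplicit false

/-!
# Directional regularity, part 11: the logarithm, interpolation
-/

namespace Pool.Agent.TH218.DR

open MeasureTheory Set Complex
open scoped ENNReal NNReal Real FourierTransform

lemma abs_rpow_fin (L ε : ℝ) (hL : 0 ≤ L) (hε : 0 < ε) :
    ∫⁻ v in Icc (-L) L, ENNReal.ofReal (|v| ^ (ε - 1)) < ∞ := by
  have h1 : ∫⁻ v in Ioc 0 L, ENNReal.ofReal (|v| ^ (ε - 1)) < ∞ := by
    have h2 : IntervalIntegrable (fun x : ℝ => x ^ (ε - 1)) volume 0 L :=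
      intervalIntegral.intervalIntegrable_rpow' (by linarith)
    have h3 := (intervalIntegrable_iff_integrableOn_Ioc_of_le hL).1 h2
    have h4 : ∫⁻ v in Ioc 0 L, ENNReal.ofReal (|v| ^ (ε - 1)) =
        ∫⁻ v in Ioc 0 L, ‖v ^ (ε - 1)‖ₑ := by
      refine setLIntegral_congr_fun measurableSet_Ioc fun v hv => ?_
      show ENNReal.ofReal (|v| ^ (ε - 1)) = ‖v ^ (ε - 1)‖ₑ
      rw [abs_of_pos hv.1, ← ofReal_norm, Real.norm_eq_abs,
        abs_of_nonneg (Real.rpow_nonneg hv.1.le _)]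
    rw [h4]
    exact h3.2
  have h5 : ∫⁻ v in Ico (-L) 0, ENNReal.ofReal (|v| ^ (ε - 1)) =
      ∫⁻ v in Ioc 0 L, ENNReal.ofReal (|v| ^ (ε - 1)) := by
    rw [← lintegral_indicator measurableSet_Ico, ← lintegral_indicator measurableSet_Ioc,
      ← lintegral_neg_eq_self]
    refine lintegral_congr fun v => ?_
    by_cases hv : v ∈ Ioc 0 L
    · have hv' : -v ∈ Ico (-L) 0 := ⟨by linarith [hv.2], by linarith [hv.1]⟩
      rw [indicator_of_mem hv, indicator_of_mem hv', abs_neg]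
    · have hv' : -v ∉ Ico (-L) 0 := fun h => hv ⟨by linarith [h.2], by linarith [h.1]⟩
      rw [indicator_of_notMem hv, indicator_of_notMem hv']
  have hsub : Icc (-L) L ⊆ (Ico (-L) 0 ∪ {0}) ∪ Ioc 0 L := by
    intro v hv
    rcases lt_trichotomy v 0 with h | h | h
    · exact Or.inl (Or.inl ⟨hv.1, h⟩)
    · exact Or.inl (Or.inr h)
    · exact Or.inr ⟨h, hv.2⟩
  calc ∫⁻ v in Icc (-L) L, ENNReal.ofReal (|v| ^ (ε - 1))
      ≤ ∫⁻ v in (Ico (-L) 0 ∪ {0}) ∪ Ioc 0 L, ENNReal.ofReal (|v| ^ (ε - 1)) :=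
        lintegral_mono_set hsub
    _ ≤ (∫⁻ v in (Ico (-L) 0 ∪ {0}), ENNReal.ofReal (|v| ^ (ε - 1))) +
        (∫⁻ v in Ioc 0 L, ENNReal.ofReal (|v| ^ (ε - 1))) := lintegral_union_le _ _ _
    _ ≤ ((∫⁻ v in Ico (-L) 0, ENNReal.ofReal (|v| ^ (ε - 1))) +
        (∫⁻ v in ({0} : Set ℝ), ENNReal.ofReal (|v| ^ (ε - 1)))) +
        (∫⁻ v in Ioc 0 L, ENNReal.ofReal (|v| ^ (ε - 1))) := by
          gcongr
          exact lintegral_union_le _ _ _
    _ < ∞ := by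
          rw [h5]
          have h6 : ∫⁻ v in ({0} : Set ℝ), ENNReal.ofReal (|v| ^ (ε - 1)) = 0 := by
            rw [setLIntegral_measure_zero]
            simp
          rw [h6, add_zero]
          exact ENNReal.add_lt_top.2 ⟨h1, h1⟩

/-- the logarithm is smaller than any power -/
lemma LL_le (L ε : ℝ) (hL : 0 ≤ L) (hε : 0 < ε) (hε1 : ε ≤ 1) : ∃ C : ℝ≥0, ∀ T : ℝ, 1 ≤ T →
    LL T L ≤ C * ENNReal.ofReal (T ^ ε) := by
  have hfin := abs_rpow_fin L ε hL hε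
  refine ⟨12 * (∫⁻ v in Icc (-L) L, ENNReal.ofReal (|v| ^ (ε - 1))).toNNReal, ?_⟩
  intro T hT
  have hT0 : 0 < T := by linarith
  have hTe : 1 ≤ T ^ ε := Real.one_le_rpow hT hε.le
  have key : ∀ v : ℝ, v ≠ 0 → kk T v ≤
      12 * ENNReal.ofReal (T ^ ε) * ENNReal.ofReal (|v| ^ (ε - 1)) := by
    intro v hv
    have hv0 : 0 < |v| := abs_pos.2 hv
    rw [mul_assoc, ← ENNReal.ofReal_mul (by positivity)]
    unfold kk
    split_ifs with h
    · have h1 : |v| ≤ 1 := h.trans (inv_le_one_of_one_le₀ hT)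
      have h2 : 1 ≤ |v| ^ (ε - 1) :=
        Real.one_le_rpow_of_pos_of_le_one_of_nonpos hv0 h1 (by linarith)
      have h3 : 1 ≤ T ^ ε * |v| ^ (ε - 1) := one_le_mul_of_one_le_of_one_le hTe h2
      calc (12 : ℝ≥0∞) = 12 * 1 := by rw [mul_one]
        _ ≤ 12 * ENNReal.ofReal (T ^ ε * |v| ^ (ε - 1)) := by
            gcongr
            rw [ENNReal.one_le_ofReal]
            exact h3
    · push Not at h
      have h1 : 1 ≤ T * |v| := by
        rw [inv_lt_iff_one_lt_mul₀ hT0] at h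
        linarith
      have h2 : 1 ≤ (T * |v|) ^ ε := Real.one_le_rpow h1 hε.le
      have h3 : T ^ ε * |v| ^ (ε - 1) = (T * |v|) ^ ε / |v| := by
        rw [Real.mul_rpow hT0.le hv0.le, Real.rpow_sub_one hv0.ne']
        ring
      have e12 : (12 : ℝ≥0∞) = ENNReal.ofReal 12 := by norm_num
      rw [h3, e12, ← ENNReal.ofReal_mul (by norm_num)]
      apply ENNReal.ofReal_le_ofReal
      rw [← mul_div_assoc]
      gcongr
      linarith
  unfold LL
  calc ∫⁻ v in Icc (-L) L, kk T v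
      ≤ ∫⁻ v in Icc (-L) L, 12 * ENNReal.ofReal (T ^ ε) * ENNReal.ofReal (|v| ^ (ε - 1)) := by
        apply lintegral_mono_ae
        have h0 : ∀ᵐ v : ℝ, v ≠ 0 := by
          rw [ae_iff]
          simp
        filter_upwards [ae_restrict_of_ae h0] with v hv
        exact key v hv
    _ = 12 * ENNReal.ofReal (T ^ ε) * ∫⁻ v in Icc (-L) L, ENNReal.ofReal (|v| ^ (ε - 1)) := by
        rw [lintegral_const_mul' _ _ (ENNReal.mul_ne_top (by norm_num) ENNReal.ofReal_ne_top)]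
    _ = _ := by
        push_cast
        rw [ENNReal.coe_toNNReal hfin.ne]
        ring

/-- interpolation between `L²` and `L⁴` -/
lemma interp24 {X : Type*} [MeasurableSpace X] (μ : Measure X) (F : X → ℝ≥0∞)
    (hF : Measurable F) (a q : ℝ) (ha0 : 0 ≤ a) (ha1 : a ≤ 1) (hq : q = 2 + 2 * a) :
    ∫⁻ z, F z ^ q ∂μ ≤ (∫⁻ z, F z ^ (2 : ℕ) ∂μ) ^ (1 - a) * (∫⁻ z, F z ^ (4 : ℕ) ∂μ) ^ a := by
  have h := ENNReal.lintegral_mul_norm_pow_le (μ := μ)
    (f := fun z => F z ^ (2 : ℕ)) (g := fun z => F z ^ (4 : ℕ)) (p := 1 - a) (q := a)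
    (hF.pow_const 2).aemeasurable (hF.pow_const 4).aemeasurable (by linarith) ha0 (by ring)
  refine le_trans (le_of_eq ?_) h
  refine lintegral_congr fun z => ?_
  rw [← ENNReal.rpow_natCast, ← ENNReal.rpow_natCast, ← ENNReal.rpow_mul, ← ENNReal.rpow_mul,
    ← ENNReal.rpow_add_of_nonneg _ _ (by push_cast; nlinarith) (by push_cast; nlinarith)]
  congr 1
  push_cast
  rw [hq]
  ring

/-- interpolation with powers of `R` -/
lemma interp_pow {X : Type*} [MeasurableSpace X] (μ : Measure X) (F : X → ℝ≥0∞)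
    (hF : Measurable F) (a q R α β κ : ℝ) (ha0 : 0 ≤ a) (ha1 : a ≤ 1) (hq : q = 2 + 2 * a)
    (hR : 1 ≤ R) (C k : ℝ≥0∞) (hκ : α * (1 - a) + β * a ≤ -κ)
    (h2 : ∫⁻ z, F z ^ (2 : ℕ) ∂μ ≤ C * ENNReal.ofReal (R ^ α))
    (h4 : ∫⁻ z, F z ^ (4 : ℕ) ∂μ ≤ (C * k) * ENNReal.ofReal (R ^ β)) :
    ∫⁻ z, F z ^ q ∂μ ≤ (C * k ^ a) * ENNReal.ofReal (R ^ (-κ)) := by
  have hR0 : 0 < R := by linarith
  calc ∫⁻ z, F z ^ q ∂μ
      ≤ (∫⁻ z, F z ^ (2 : ℕ) ∂μ) ^ (1 - a) * (∫⁻ z, F z ^ (4 : ℕ) ∂μ) ^ a :=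
        interp24 μ F hF a q ha0 ha1 hq
    _ ≤ (C * ENNReal.ofReal (R ^ α)) ^ (1 - a) * ((C * k) * ENNReal.ofReal (R ^ β)) ^ a := by
        gcongr
    _ = ((C ^ (1 - a) * C ^ a) * k ^ a) * ENNReal.ofReal (R ^ (α * (1 - a) + β * a)) := by
        rw [ENNReal.mul_rpow_of_nonneg _ _ (by linarith), ENNReal.mul_rpow_of_nonneg _ _ ha0,
          ENNReal.mul_rpow_of_nonneg _ _ ha0,
          ENNReal.ofReal_rpow_of_nonneg (by positivity) (by linarith),
          ENNReal.ofReal_rpow_of_nonneg (by positivity) ha0,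
          ← Real.rpow_mul hR0.le, ← Real.rpow_mul hR0.le, Real.rpow_add hR0,
          ENNReal.ofReal_mul (by positivity)]
        ring
    _ = (C * k ^ a) * ENNReal.ofReal (R ^ (α * (1 - a) + β * a)) := by
        rw [← ENNReal.rpow_add_of_nonneg _ _ (by linarith) ha0, sub_add_cancel, ENNReal.rpow_one]
    _ ≤ (C * k ^ a) * ENNReal.ofReal (R ^ (-κ)) := by
        gcongr

end Pool.Agent.TH218.DR
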