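import Mathlib
import Pool.Agent.TH218.DR.A11
set_option autoImplicit false

/-!
# Directional regularity, part 12: averages in `y`
-/

namespace Pool.Agent.TH218.DR

open MeasureTheory Set Complex
open scoped ENNReal NNReal Real FourierTransform

/-- average in `y` over an interval of length `δ` -/
noncomputable def av (δ : ℝ) (f : ℝ × ℝ → ℂ) (z : ℝ × ℝ) : ℂ :=
  ∫ s in Ioc (0 : ℝ) 1, f (z.1, z.2 + δ * s)

lemma av_meas (δ : ℝ) {f : ℝ × ℝ → ℂ} (hf : Measurable f) : Measurable (av δ f) := by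
  have h : StronglyMeasurable (fun p : (ℝ × ℝ) × ℝ => f (p.1.1, p.1.2 + δ * p.2)) := by
    apply Measurable.stronglyMeasurable
    fun_prop
  exact (h.integral_prod_right' (ν := (volume.restrict (Ioc (0 : ℝ) 1)))).measurable

lemma av_nice {δ : ℝ} (hδ : 0 ≤ δ) {f : ℝ × ℝ → ℂ} {L M : ℝ} (hf : Nice f L M) :
    Nice (av δ f) (L + δ) M where
  meas := av_meas δ hf.meas
  bd z := by
    unfold av
    have := norm_setIntegral_le_of_norm_le_const (μ := volume) (s := Ioc (0 : ℝ) 1) (C := M)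
      (f := fun s => f (z.1, z.2 + δ * s)) (by simp) (fun s _ => hf.bd _)
    refine this.trans (le_of_eq ?_)
    simp
  supp z hz := by
    by_contra hc
    apply hz
    unfold av
    apply setIntegral_eq_zero_of_forall_eq_zero
    intro s hs
    apply hf.off
    intro hb
    apply hc
    have h1 := hb.1
    have h2 := hb.2
    simp only at h1 h2
    refine ⟨(abs_le.2 h1).trans (by linarith), ?_⟩
    have h3 : δ * s ≤ δ := by nlinarith [hs.2]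
    have h4 : 0 ≤ δ * s := mul_nonneg hδ hs.1.le
    rw [abs_le]
    constructor
    · linarith [h2.1]
    · linarith [h2.2]

lemma slice_int {f : ℝ × ℝ → ℂ} {L M : ℝ} (hf : Nice f L M) (δ x y : ℝ) :
    IntegrableOn (fun s => f (x, y + δ * s)) (Ioc (0 : ℝ) 1) := by
  have hm := hf.meas
  have h1 : Measurable (fun s => f (x, y + δ * s)) := by fun_prop
  exact Measure.integrableOn_of_bounded (M := M) (by simp) h1.aestronglyMeasurable
    (Filter.Eventually.of_forall fun s => hf.bd _)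

/-- Jensen -/
lemma av_sq (δ : ℝ) {f : ℝ × ℝ → ℂ} (hf : Measurable f) (z : ℝ × ℝ) :
    ‖av δ f z‖ₑ ^ 2 ≤ ∫⁻ s in Ioc (0 : ℝ) 1, ‖f (z.1, z.2 + δ * s)‖ₑ ^ 2 := by
  have h := cs_set (μ := volume) (Ioc (0 : ℝ) 1) (F := fun s => f (z.1, z.2 + δ * s)) (by fun_prop)
  simpa [av] using h

lemma av_slice (δ : ℝ) {f : ℝ × ℝ → ℂ} (hf : Measurable f) (x : ℝ) :
    ∫⁻ y, ‖av δ f (x, y)‖ₑ ^ 2 ≤ ∫⁻ y, ‖f (x, y)‖ₑ ^ 2 := by
  calc ∫⁻ y, ‖av δ f (x, y)‖ₑ ^ 2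
      ≤ ∫⁻ y, ∫⁻ s in Ioc (0 : ℝ) 1, ‖f (x, y + δ * s)‖ₑ ^ 2 :=
        lintegral_mono fun y => av_sq δ hf (x, y)
    _ = ∫⁻ s in Ioc (0 : ℝ) 1, ∫⁻ y, ‖f (x, y + δ * s)‖ₑ ^ 2 := by
        rw [lintegral_lintegral_swap]
        have : Measurable (fun p : ℝ × ℝ => ‖f (x, p.1 + δ * p.2)‖ₑ ^ 2) := by fun_prop
        exact this.aemeasurable
    _ = ∫⁻ s in Ioc (0 : ℝ) 1, ∫⁻ y, ‖f (x, y)‖ₑ ^ 2 := by
        refine lintegral_congr fun s => ?_
        exact lintegral_add_right_eq_self (fun y => ‖f (x, y)‖ₑ ^ 2) (δ * s)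
    _ = _ := by simp

/-- regularity in `y` on the vertical line over `x` -/
def Rs (f : ℝ × ℝ → ℂ) (x : ℝ) (k : ℝ≥0∞) (τ : ℝ) : Prop :=
  ∀ h : ℝ, 0 < h → ∫⁻ y, ‖f (x, y + h) - f (x, y)‖ₑ ^ 2 ≤ k * ENNReal.ofReal (h ^ τ)

lemma av_diff {f : ℝ × ℝ → ℂ} {L M τ x : ℝ} {k : ℝ≥0∞} (hτ : 0 ≤ τ) (hf : Nice f L M)
    (hr : Rs f x k τ) {δ : ℝ} (hδ : 0 < δ) :
    ∫⁻ y, ‖av δ f (x, y) - f (x, y)‖ₑ ^ 2 ≤ k * ENNReal.ofReal (δ ^ τ) := by
  have hm := hf.meas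
  have e : ∀ y, av δ f (x, y) - f (x, y) =
      ∫ s in Ioc (0 : ℝ) 1, (f (x, y + δ * s) - f (x, y)) := by
    intro y
    rw [integral_sub (slice_int hf δ x y) (integrable_const _)]
    simp [av]
  calc ∫⁻ y, ‖av δ f (x, y) - f (x, y)‖ₑ ^ 2
      ≤ ∫⁻ y, ∫⁻ s in Ioc (0 : ℝ) 1, ‖f (x, y + δ * s) - f (x, y)‖ₑ ^ 2 := by
        refine lintegral_mono fun y => ?_
        show ‖av δ f (x, y) - f (x, y)‖ₑ ^ 2 ≤ _
        rw [e y]
        have h := cs_set (μ := volume) (Ioc (0 : ℝ) 1)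
          (F := fun s => f (x, y + δ * s) - f (x, y)) (by fun_prop)
        simpa using h
    _ = ∫⁻ s in Ioc (0 : ℝ) 1, ∫⁻ y, ‖f (x, y + δ * s) - f (x, y)‖ₑ ^ 2 := by
        rw [lintegral_lintegral_swap]
        have : Measurable (fun p : ℝ × ℝ => ‖f (x, p.1 + δ * p.2) - f (x, p.1)‖ₑ ^ 2) := by
          fun_prop
        exact this.aemeasurable
    _ ≤ ∫⁻ _ in Ioc (0 : ℝ) 1, k * ENNReal.ofReal (δ ^ τ) := by
        refine setLIntegral_mono' measurableSet_Ioc fun u hu => ?_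
        refine (hr (δ * u) (mul_pos hδ hu.1)).trans ?_
        have h1 : δ * u ≤ δ := by nlinarith [hu.2]
        have h2 : 0 ≤ δ * u := mul_nonneg hδ.le hu.1.le
        gcongr
    _ = _ := by simp

lemma av_sub (δ : ℝ) {f g : ℝ × ℝ → ℂ} {L M L' M' : ℝ} (hf : Nice f L M) (hg : Nice g L' M')
    (z : ℝ × ℝ) : av δ (fun z => f z - g z) z = av δ f z - av δ g z := by
  unfold av
  exact integral_sub (slice_int hf δ z.1 z.2) (slice_int hg δ z.1 z.2)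

/-- translation in `y` -/
def sh (h : ℝ) (f : ℝ × ℝ → ℂ) (z : ℝ × ℝ) : ℂ := f (z.1, z.2 + h)

lemma sh_nice {h : ℝ} (hh : 0 ≤ h) {f : ℝ × ℝ → ℂ} {L M : ℝ} (hf : Nice f L M) :
    Nice (sh h f) (L + h) M where
  meas := by
    have := hf.meas
    unfold sh
    fun_prop
  bd z := hf.bd _
  supp z hz := by
    have h1 := hf.supp _ hz
    simp only at h1
    refine ⟨h1.1.trans (by linarith), ?_⟩
    have h2 := abs_le.1 h1.2
    rw [abs_le]
    constructor <;> linarith [h2.1, h2.2]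

lemma av_sh (δ h : ℝ) (f : ℝ × ℝ → ℂ) (z : ℝ × ℝ) : av δ (sh h f) z = av δ f (z.1, z.2 + h) := by
  unfold av sh
  congr 1
  ext s
  simp only
  congr 2
  ring

lemma Nice.sub {f g : ℝ × ℝ → ℂ} {L M M' : ℝ} (hf : Nice f L M) (hg : Nice g L M') :
    Nice (fun z => f z - g z) L (M + M') where
  meas := hf.meas.sub hg.meas
  bd z := (norm_sub_le _ _).trans (add_le_add (hf.bd z) (hg.bd z))
  supp z hz := by
    by_cases h : f z = 0
    · refine hg.supp z fun h' => hz ?_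
      simp [h, h']
    · exact hf.supp z h

/-- the mollification -/
noncomputable def FF (δ : ℝ) (f : ℝ × ℝ → ℂ) : ℝ × ℝ → ℂ := av δ (av δ f)

/-- its derivative -/
noncomputable def DD (δ : ℝ) (f : ℝ × ℝ → ℂ) (z : ℝ × ℝ) : ℂ :=
  ((δ⁻¹ : ℝ) : ℂ) * (sh δ (av δ f) z - av δ f z)

lemma FF_nice {δ : ℝ} (hδ : 0 ≤ δ) (hδ1 : δ ≤ 1) {f : ℝ × ℝ → ℂ} {M : ℝ} (hf : Nice f 1 M) :
    Nice (FF δ f) 3 M :=
  (av_nice hδ (av_nice hδ hf)).mono (by linarith) le_rfl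

lemma DD_nice {δ : ℝ} (hδ : 0 < δ) (hδ1 : δ ≤ 1) {f : ℝ × ℝ → ℂ} {M : ℝ} (hf : Nice f 1 M) :
    Nice (DD δ f) 3 (δ⁻¹ * (M + M)) := by
  have h1 := av_nice hδ.le hf
  have h2 := sh_nice hδ.le h1
  have h3 := (h2.mono (L' := 3) (by linarith) le_rfl).sub (h1.mono (L' := 3) (by linarith) le_rfl)
  exact h3.mul (a := fun _ => ((δ⁻¹ : ℝ) : ℂ)) measurable_const (A := δ⁻¹) (fun z _ => by
    rw [Complex.norm_real, Real.norm_eq_abs, abs_of_pos (inv_pos.2 hδ)]) (inv_pos.2 hδ).le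

lemma av_eq {δ : ℝ} (hδ : δ ≠ 0) (f : ℝ × ℝ → ℂ) (hi : ∀ x a b, IntervalIntegrable
    (fun u => f (x, u)) volume a b) (x y : ℝ) :
    av δ f (x, y) = ((δ⁻¹ : ℝ) : ℂ) *
      ((∫ u in (0 : ℝ)..(y + δ), f (x, u)) - ∫ u in (0 : ℝ)..y, f (x, u)) := by
  unfold av
  rw [← intervalIntegral.integral_of_le zero_le_one]
  have h := intervalIntegral.integral_comp_add_mul (a := 0) (b := 1) (fun u => f (x, u)) hδ y
  rw [h, mul_zero, mul_one, add_zero, intervalIntegral.integral_interval_sub_left (hi x _ _)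
    (hi x _ _), Complex.real_smul]

lemma nice_ii {f : ℝ × ℝ → ℂ} {L M : ℝ} (hf : Nice f L M) (x a b : ℝ) :
    IntervalIntegrable (fun u => f (x, u)) volume a b := by
  have hm := hf.meas
  have h1 : Measurable (fun u => f (x, u)) := by fun_prop
  rw [intervalIntegrable_iff]
  exact Measure.integrableOn_of_bounded (M := M) (by simp) h1.aestronglyMeasurable
    (Filter.Eventually.of_forall fun s => hf.bd _)

lemma av_cont {δ : ℝ} (hδ : δ ≠ 0) {f : ℝ × ℝ → ℂ} {L M : ℝ} (hf : Nice f L M) (x : ℝ) :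
    Continuous (fun y => av δ f (x, y)) := by
  have e : (fun y => av δ f (x, y)) = fun y => ((δ⁻¹ : ℝ) : ℂ) *
      ((∫ u in (0 : ℝ)..(y + δ), f (x, u)) - ∫ u in (0 : ℝ)..y, f (x, u)) := by
    ext y
    exact av_eq hδ f (nice_ii hf) x y
  rw [e]
  have hP : Continuous (fun b => ∫ u in (0 : ℝ)..b, f (x, u)) :=
    intervalIntegral.continuous_primitive (nice_ii hf x) 0
  exact continuous_const.mul ((hP.comp (continuous_id.add continuous_const)).sub hP)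

lemma FF_der {δ : ℝ} (hδ : 0 < δ) {f : ℝ × ℝ → ℂ} {L M : ℝ} (hf : Nice f L M) :
    DerY (FF δ f) (DD δ f) := by
  intro x y
  have hn := av_nice hδ.le hf
  have hc := av_cont hδ.ne' hf x
  have e : (fun y => FF δ f (x, y)) = fun y => ((δ⁻¹ : ℝ) : ℂ) *
      ((∫ u in (0 : ℝ)..(y + δ), av δ f (x, u)) - ∫ u in (0 : ℝ)..y, av δ f (x, u)) := by
    ext y
    exact av_eq hδ.ne' _ (nice_ii hn) x y
  rw [e]
  have hP : ∀ b, HasDerivAt (fun b => ∫ u in (0 : ℝ)..b, av δ f (x, u)) (av δ f (x, b)) b :=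
    fun b => intervalIntegral.integral_hasDerivAt_right (nice_ii hn x _ _)
      (hc.stronglyMeasurableAtFilter _ _) hc.continuousAt
  have h1 := (hP (y + δ)).comp_add_const y δ
  have h2 := (h1.sub (hP y)).const_mul ((δ⁻¹ : ℝ) : ℂ)
  exact h2

lemma two_sq (a b : ℝ≥0∞) : (a + b) ^ 2 ≤ 2 * (a ^ 2 + b ^ 2) := by
  by_cases h : a = ∞ ∨ b = ∞
  · rcases h with h | h <;> subst h <;> simp
  · push Not at h
    obtain ⟨ha, hb⟩ := h
    lift a to ℝ≥0 using ha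
    lift b to ℝ≥0 using hb
    norm_cast
    rw [← NNReal.coe_le_coe]
    push_cast
    nlinarith [sq_nonneg ((a : ℝ) - b)]

/-- slice masses of a sum -/
lemma add_slice {g h : ℝ → ℂ} (hg : Measurable g) :
    ∫⁻ y, ‖g y + h y‖ₑ ^ 2 ≤ 2 * ((∫⁻ y, ‖g y‖ₑ ^ 2) + ∫⁻ y, ‖h y‖ₑ ^ 2) := by
  rw [← lintegral_add_left (by fun_prop), ← lintegral_const_mul' _ _ (by norm_num)]
  refine lintegral_mono fun y => ?_
  refine le_trans ?_ (two_sq _ _)
  gcongr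
  exact enorm_add_le _ _

lemma sub_slice {g h : ℝ → ℂ} (hg : Measurable g) :
    ∫⁻ y, ‖g y - h y‖ₑ ^ 2 ≤ 2 * ((∫⁻ y, ‖g y‖ₑ ^ 2) + ∫⁻ y, ‖h y‖ₑ ^ 2) := by
  rw [← lintegral_add_left (by fun_prop), ← lintegral_const_mul' _ _ (by norm_num)]
  refine lintegral_mono fun y => ?_
  refine le_trans ?_ (two_sq _ _)
  gcongr
  exact enorm_sub_le

lemma FF_diff {f : ℝ × ℝ → ℂ} {L M τ x : ℝ} {k : ℝ≥0∞} (hτ : 0 ≤ τ) (hf : Nice f L M)
    (hr : Rs f x k τ) {δ : ℝ} (hδ : 0 < δ) :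
    ∫⁻ y, ‖FF δ f (x, y) - f (x, y)‖ₑ ^ 2 ≤ 4 * (k * ENNReal.ofReal (δ ^ τ)) := by
  have hm := hf.meas
  have ha := av_nice hδ.le hf
  have ham := ha.meas
  have e : ∀ y, FF δ f (x, y) - f (x, y) =
      av δ (fun z => av δ f z - f z) (x, y) + (av δ f (x, y) - f (x, y)) := by
    intro y
    rw [av_sub δ ha hf (x, y)]
    unfold FF
    ring
  have hm2 : Measurable (av δ (fun z => av δ f z - f z)) := av_meas δ (by fun_prop)
  simp only [e]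
  have h0 := av_diff hτ hf hr hδ
  calc ∫⁻ y, ‖av δ (fun z => av δ f z - f z) (x, y) + (av δ f (x, y) - f (x, y))‖ₑ ^ 2
      ≤ 2 * ((∫⁻ y, ‖av δ (fun z => av δ f z - f z) (x, y)‖ₑ ^ 2) +
          ∫⁻ y, ‖av δ f (x, y) - f (x, y)‖ₑ ^ 2) := add_slice (by fun_prop)
    _ ≤ 2 * (k * ENNReal.ofReal (δ ^ τ) + k * ENNReal.ofReal (δ ^ τ)) := by
        gcongr
        exact (av_slice δ (f := fun z => av δ f z - f z) (by fun_prop) x).trans h0
    _ = _ := by ring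

lemma DD_slice {f : ℝ × ℝ → ℂ} {L M τ x : ℝ} {k : ℝ≥0∞} (hf : Nice f L M)
    (hr : Rs f x k τ) {δ : ℝ} (hδ : 0 < δ) :
    ∫⁻ y, ‖DD δ f (x, y)‖ₑ ^ 2 ≤ ENNReal.ofReal (δ⁻¹ ^ 2) * (k * ENNReal.ofReal (δ ^ τ)) := by
  have hm := hf.meas
  have e : ∀ y, DD δ f (x, y) = ((δ⁻¹ : ℝ) : ℂ) * av δ (fun z => sh δ f z - f z) (x, y) := by
    intro y
    rw [av_sub δ (sh_nice hδ.le hf) hf (x, y), av_sh]
    rfl
  simp only [e, enorm_mul, mul_pow]
  rw [lintegral_const_mul' _ _ (by simp)]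
  have e2 : ‖((δ⁻¹ : ℝ) : ℂ)‖ₑ ^ 2 = ENNReal.ofReal (δ⁻¹ ^ 2) := by
    rw [← ofReal_norm, Complex.norm_real, Real.norm_eq_abs, abs_of_pos (inv_pos.2 hδ),
      ENNReal.ofReal_pow (inv_pos.2 hδ).le]
  rw [e2]
  gcongr
  exact (av_slice δ (f := fun z => sh δ f z - f z) (by unfold sh; fun_prop) x).trans (hr δ hδ)

end Pool.Agent.TH218.DR
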