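import Mathlib
import Pool.Agent.TH218.DR.A12
set_option autoImplicit false

/-!
# Directional regularity, part 13: `L²` and `L⁴` bounds for the pieces
-/

namespace Pool.Agent.TH218.DR

open MeasureTheory Set Complex
open scoped ENNReal NNReal Real FourierTransform

/-- powers of `R` -/
noncomputable def rp (R x : ℝ) : ℝ≥0∞ := ENNReal.ofReal (R ^ x)

lemma rp_mul {R : ℝ} (hR : 0 < R) (x y : ℝ) : rp R x * rp R y = rp R (x + y) := by
  unfold rp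
  rw [← ENNReal.ofReal_mul (by positivity), Real.rpow_add hR]

/-- the mass in terms of slices -/
lemma mass_w {W : ℝ × ℝ → ℝ≥0∞} (hW : Measurable W) (w : ℝ → ℝ≥0∞) (m k : ℝ≥0∞)
    (hwm : Measurable w) (hm : ∫⁻ x, w x ≤ m) (hD : ∀ x, ∫⁻ y, W (x, y) ≤ k * w x) :
    ∫⁻ z, W z ≤ k * m := by
  rw [Measure.volume_eq_prod, lintegral_prod _ hW.aemeasurable]
  calc ∫⁻ x, ∫⁻ y, W (x, y) ≤ ∫⁻ x, k * w x := lintegral_mono hD
    _ = k * ∫⁻ x, w x := lintegral_const_mul _ hwm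
    _ ≤ _ := by gcongr

lemma mass_box {W : ℝ × ℝ → ℝ≥0∞} (hW : Measurable W) {L : ℝ} (D : ℝ≥0∞)
    (h0 : ∀ x y, x ∉ Icc (-L) L → W (x, y) = 0) (hD : ∀ x, ∫⁻ y, W (x, y) ≤ D) :
    ∫⁻ z, W z ≤ ENNReal.ofReal (2 * L) * D := by
  rw [Measure.volume_eq_prod, lintegral_prod _ hW.aemeasurable]
  calc ∫⁻ x, ∫⁻ y, W (x, y) ≤ ∫⁻ x, (Icc (-L) L).indicator (fun _ => D) x := by
        refine lintegral_mono fun x => ?_
        by_cases hx : x ∈ Icc (-L) L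
        · rw [indicator_of_mem hx]
          exact hD x
        · rw [indicator_of_notMem hx]
          simp [h0 x _ hx]
    _ = _ := by
        rw [lintegral_indicator measurableSet_Icc, lintegral_const,
          Measure.restrict_apply_univ, Real.volume_Icc, mul_comm]
        congr 2
        ring

lemma WW_off {G G' : ℝ × ℝ → ℂ} {L M M' : ℝ} (hG : Nice G L M) (hG' : Nice G' L M') (B x y : ℝ)
    (hx : x ∉ Icc (-L) L) : WW G G' B (x, y) = 0 := by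
  unfold WW
  rw [hG.slice_x x y hx, hG'.slice_x x y hx]
  simp

lemma two_sh (R L M : ℝ) (hL : 0 ≤ L) {g : ℝ × ℝ → ℂ} (hg : Nice g L M) :
    ∫⁻ q, ‖EQ g q‖ₑ ^ 2 ∂(mu (Sh R)) ≤
      (4 * ((2 * π).toNNReal : ℝ≥0∞) ^ 2) * (rp R 1 * ∫⁻ z, ‖g z‖ₑ ^ 2) := by
  calc ∫⁻ q, ‖EQ g q‖ₑ ^ 2 ∂(mu (Sh R))
      ≤ ∫⁻ q, ‖EQ g q‖ₑ ^ 2 ∂(mu (Icc (-(2 * R)) (2 * R))) :=
        lintegral_mono' (mu_mono (Sh_sub R)) le_rfl
    _ = ENNReal.ofReal (2 * (2 * R)) * (ENNReal.ofReal ((2 * π) ^ 2) * ∫⁻ z, ‖g z‖ₑ ^ 2) :=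
        two' (2 * R) L M hL hg
    _ = _ := by
        have e1 : ENNReal.ofReal (2 * (2 * R)) = 4 * rp R 1 := by
          unfold rp
          rw [Real.rpow_one, show (2 : ℝ) * (2 * R) = 4 * R by ring,
            ENNReal.ofReal_mul (by norm_num)]
          norm_num
        have e2 : ENNReal.ofReal ((2 * π) ^ 2) = ((2 * π).toNNReal : ℝ≥0∞) ^ 2 := by
          rw [ENNReal.ofReal_pow (by positivity)]
          rfl
        rw [e1, e2]
        ring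

lemma LL2 (L ε : ℝ) (hL : 0 ≤ L) (hε : 0 < ε) (hε1 : ε ≤ 1) : ∃ C : ℝ≥0, ∀ R : ℝ, 1 ≤ R →
    LL (2 * R) L ≤ C * rp R ε := by
  obtain ⟨C, hC⟩ := LL_le L ε hL hε hε1
  refine ⟨C * 2, fun R hR => ?_⟩
  refine (hC (2 * R) (by linarith)).trans ?_
  push_cast
  rw [mul_assoc]
  gcongr
  unfold rp
  have e2 : (2 : ℝ≥0∞) = ENNReal.ofReal 2 := by norm_num
  rw [e2, ← ENNReal.ofReal_mul (by norm_num), Real.mul_rpow (by norm_num) (by linarith)]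
  apply ENNReal.ofReal_le_ofReal
  gcongr
  calc (2 : ℝ) ^ ε ≤ 2 ^ (1 : ℝ) := Real.rpow_le_rpow_of_exponent_le (by norm_num) hε1
    _ = 2 := by norm_num

/-- the difference of two mollifications -/
noncomputable def GD (δ δ' : ℝ) (f : ℝ × ℝ → ℂ) (z : ℝ × ℝ) : ℂ := FF δ' f z - FF δ f z

/-- its derivative -/
noncomputable def GD' (δ δ' : ℝ) (f : ℝ × ℝ → ℂ) (z : ℝ × ℝ) : ℂ := DD δ' f z - DD δ f z

lemma GD_slice {f : ℝ × ℝ → ℂ} {L M τ x : ℝ} {k : ℝ≥0∞} (hτ : 0 ≤ τ) (hf : Nice f L M)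
    (hr : Rs f x k τ) {δ δ' : ℝ} (hδ' : 0 < δ') (hδ : δ' ≤ δ) :
    ∫⁻ y, WW (GD δ δ' f) (GD' δ δ' f) δ'⁻¹ (x, y) ≤ 20 * (k * ENNReal.ofReal (δ ^ τ)) := by
  have hδ0 : 0 < δ := hδ'.trans_le hδ
  have hm := hf.meas
  have hFm : ∀ δ, Measurable (FF δ f) := fun δ => av_meas _ (av_meas _ hm)
  have hDm : ∀ δ, Measurable (DD δ f) := fun δ => by
    unfold DD sh
    have := av_meas δ hm
    fun_prop
  have hF1 := hFm δ
  have hF2 := hFm δ'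
  have hD1 := hDm δ
  have hD2 := hDm δ'
  have hXX : k * ENNReal.ofReal (δ' ^ τ) ≤ k * ENNReal.ofReal (δ ^ τ) := by
    gcongr
  set X := k * ENNReal.ofReal (δ ^ τ) with hX
  have hG : ∫⁻ y, ‖GD δ δ' f (x, y)‖ₑ ^ 2 ≤ 16 * X := by
    have e : ∀ y, GD δ δ' f (x, y) = (FF δ' f (x, y) - f (x, y)) - (FF δ f (x, y) - f (x, y)) := by
      intro y
      unfold GD
      ring
    simp only [e]
    calc ∫⁻ y, ‖(FF δ' f (x, y) - f (x, y)) - (FF δ f (x, y) - f (x, y))‖ₑ ^ 2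
        ≤ 2 * ((∫⁻ y, ‖FF δ' f (x, y) - f (x, y)‖ₑ ^ 2) +
            ∫⁻ y, ‖FF δ f (x, y) - f (x, y)‖ₑ ^ 2) := sub_slice (by fun_prop)
      _ ≤ 2 * (4 * X + 4 * X) := by
          gcongr
          · exact (FF_diff hτ hf hr hδ').trans (mul_le_mul_right hXX 4)
          · exact FF_diff hτ hf hr hδ0
      _ = _ := by ring
  have hG' : ∫⁻ y, ‖((δ'⁻¹⁻¹ : ℝ) : ℂ) * GD' δ δ' f (x, y)‖ₑ ^ 2 ≤ 4 * X := by
    have e : ∀ y, ((δ'⁻¹⁻¹ : ℝ) : ℂ) * GD' δ δ' f (x, y) =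
        ((δ' : ℝ) : ℂ) * DD δ' f (x, y) - ((δ' : ℝ) : ℂ) * DD δ f (x, y) := by
      intro y
      unfold GD'
      rw [inv_inv]
      ring
    simp only [e]
    have e2 : ∀ g : ℝ → ℂ, ∫⁻ y, ‖((δ' : ℝ) : ℂ) * g y‖ₑ ^ 2 =
        ENNReal.ofReal (δ' ^ 2) * ∫⁻ y, ‖g y‖ₑ ^ 2 := by
      intro g
      simp only [enorm_mul, mul_pow]
      rw [lintegral_const_mul' _ _ (by simp)]
      rw [← ofReal_norm, Complex.norm_real, Real.norm_eq_abs, abs_of_pos hδ',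
        ENNReal.ofReal_pow hδ'.le]
    calc ∫⁻ y, ‖((δ' : ℝ) : ℂ) * DD δ' f (x, y) - ((δ' : ℝ) : ℂ) * DD δ f (x, y)‖ₑ ^ 2
        ≤ 2 * ((∫⁻ y, ‖((δ' : ℝ) : ℂ) * DD δ' f (x, y)‖ₑ ^ 2) +
            ∫⁻ y, ‖((δ' : ℝ) : ℂ) * DD δ f (x, y)‖ₑ ^ 2) := sub_slice (by fun_prop)
      _ ≤ 2 * (X + X) := by
          rw [e2 (fun y => DD δ' f (x, y)), e2 (fun y => DD δ f (x, y))]
          gcongr
          · calc ENNReal.ofReal (δ' ^ 2) * ∫⁻ y, ‖DD δ' f (x, y)‖ₑ ^ 2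
                ≤ ENNReal.ofReal (δ' ^ 2) * (ENNReal.ofReal (δ'⁻¹ ^ 2) *
                  (k * ENNReal.ofReal (δ' ^ τ))) := by
                  gcongr
                  exact DD_slice hf hr hδ'
              _ = k * ENNReal.ofReal (δ' ^ τ) := by
                  rw [← mul_assoc, ← ENNReal.ofReal_mul (by positivity), ← mul_pow,
                    mul_inv_cancel₀ hδ'.ne']
                  simp
              _ ≤ X := hXX
          · calc ENNReal.ofReal (δ' ^ 2) * ∫⁻ y, ‖DD δ f (x, y)‖ₑ ^ 2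
                ≤ ENNReal.ofReal (δ ^ 2) * (ENNReal.ofReal (δ⁻¹ ^ 2) * X) := by
                  gcongr
                  exact DD_slice hf hr hδ0
              _ = X := by
                  rw [← mul_assoc, ← ENNReal.ofReal_mul (by positivity), ← mul_pow,
                    mul_inv_cancel₀ hδ0.ne']
                  simp
      _ = _ := by ring
  unfold WW
  have hGm : Measurable (GD δ δ' f) := by
    unfold GD
    fun_prop
  rw [lintegral_add_left (by fun_prop)]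
  calc _ ≤ 16 * X + 4 * X := add_le_add hG hG'
    _ = _ := by ring

lemma GD_nice {f : ℝ × ℝ → ℂ} {δ δ' : ℝ} (hf : Nice f 1 1) (hδ' : 0 < δ') (hδ : δ' ≤ δ)
    (hδ1 : δ ≤ 1) : Nice (GD δ δ' f) 3 2 := by
  have h1 := FF_nice hδ'.le (hδ.trans hδ1) hf
  have h2 := FF_nice (hδ'.le.trans hδ) hδ1 hf
  have := h1.sub h2
  exact this.mono le_rfl (by norm_num)

lemma GD'_nice {f : ℝ × ℝ → ℂ} {δ δ' : ℝ} (hf : Nice f 1 1) (hδ' : 0 < δ') (hδ : δ' ≤ δ)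
    (hδ1 : δ ≤ 1) : ∃ M', Nice (GD' δ δ' f) 3 M' := by
  have h1 := DD_nice hδ' (hδ.trans hδ1) hf
  have h2 := DD_nice (hδ'.trans_le hδ) hδ1 hf
  exact ⟨_, h1.sub h2⟩

lemma GD_der {f : ℝ × ℝ → ℂ} {δ δ' : ℝ} (hf : Nice f 1 1) (hδ' : 0 < δ') (hδ : δ' ≤ δ) :
    DerY (GD δ δ' f) (GD' δ δ' f) := by
  intro x y
  have h1 := FF_der hδ' hf x y
  have h2 := FF_der (hδ'.trans_le hδ) hf x y
  exact h1.sub h2

/-- the class of functions: regularity on lines, and regularity in the mean over lines -/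
structure Cl (f : ℝ × ℝ → ℂ) (K : ℝ≥0∞) (σ τ : ℝ) (w : ℝ → ℝ≥0∞) (m : ℝ≥0∞) : Prop where
  nice : Nice f 1 1
  rs : ∀ x, Rs f x K σ
  rw : ∀ x, Rs f x (w x) τ
  wm : Measurable w
  wi : ∫⁻ x, w x ≤ m

lemma del_pow {R b τ : ℝ} (hR : 0 < R) : ENNReal.ofReal ((R ^ (-b)) ^ τ) = rp R (-(τ * b)) := by
  unfold rp
  rw [← Real.rpow_mul hR.le]
  congr 2
  ring

/-- the intermediate pieces -/
lemma mid_piece (σ τ ε : ℝ) (hσ : 0 ≤ σ) (hτ : 0 ≤ τ) (hε : 0 < ε) (hε1 : ε ≤ 1) :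
    ∃ C : ℝ≥0, ∀ (f : ℝ × ℝ → ℂ) (K : ℝ≥0∞) (w : ℝ → ℝ≥0∞) (m : ℝ≥0∞) (R b b' : ℝ),
      Cl f K σ τ w m → 1 ≤ R → 0 ≤ b → b ≤ b' → 1 / 2 ≤ b' →
      ∫⁻ q, ‖EQ (GD (R ^ (-b)) (R ^ (-b')) f) q‖ₑ ^ 2 ∂(mu (Sh R)) ≤
        (C * m) * rp R (1 - τ * b) ∧
      ∫⁻ q, ‖EQ (GD (R ^ (-b)) (R ^ (-b')) f) q‖ₑ ^ 4 ∂(mu (Sh R)) ≤
        ((C * m) * K) * rp R (-1 + b' + ε - (σ + τ) * b) := by
  obtain ⟨C4, hC4⟩ := shell4
  obtain ⟨CL, hCL⟩ := LL2 3 ε (by norm_num) hε hε1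
  refine ⟨max ((4 * (2 * π).toNNReal ^ 2) * 20) (C4 * CL * (20 * 20)), ?_⟩
  intro f K w m R b b' hf hR hb hbb hb'
  have hR0 : 0 < R := by linarith
  set δ := R ^ (-b) with hδ
  set δ' := R ^ (-b') with hδ'
  have hδ'0 : 0 < δ' := Real.rpow_pos_of_pos hR0 _
  have hδδ : δ' ≤ δ := Real.rpow_le_rpow_of_exponent_le hR (by linarith)
  have hδ1 : δ ≤ 1 := Real.rpow_le_one_of_one_le_of_nonpos hR (by linarith)
  have nG := GD_nice hf.nice hδ'0 hδδ hδ1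
  obtain ⟨M', nG'⟩ := GD'_nice hf.nice hδ'0 hδδ hδ1
  have hd := GD_der hf.nice hδ'0 hδδ
  have hsl := fun x => GD_slice hσ hf.nice (hf.rs x) hδ'0 hδδ
  have hsw := fun x => GD_slice hτ hf.nice (hf.rw x) hδ'0 hδδ
  rw [hδ, del_pow hR0, ← hδ] at hsl hsw
  have hWm := WW_meas nG.meas nG'.meas δ'⁻¹
  have hmass := mass_w hWm w m (20 * rp R (-(τ * b))) hf.wm hf.wi
    (fun x => (hsw x).trans (le_of_eq (by ring)))
  constructor
  · refine (two_sh R 3 _ (by norm_num) nG).trans ?_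
    have h1 : ∫⁻ z, ‖GD δ δ' f z‖ₑ ^ 2 ≤ 20 * rp R (-(τ * b)) * m :=
      (lintegral_mono fun z => le_self_add).trans hmass
    calc (4 * ((2 * π).toNNReal : ℝ≥0∞) ^ 2) * (rp R 1 * ∫⁻ z, ‖GD δ δ' f z‖ₑ ^ 2)
        ≤ (4 * ((2 * π).toNNReal : ℝ≥0∞) ^ 2) * (rp R 1 * (20 * rp R (-(τ * b)) * m)) := by gcongr
      _ = (((4 * ((2 * π).toNNReal : ℝ≥0∞) ^ 2) * 20) * m) *
          (rp R 1 * rp R (-(τ * b))) := by ring
      _ ≤ _ := by
          rw [rp_mul hR0]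
          have e : (1 : ℝ) + -(τ * b) = 1 - τ * b := by ring
          rw [e]
          gcongr
          have := le_max_left ((4 * (2 * π).toNNReal ^ 2) * 20) (C4 * CL * (20 * 20))
          exact_mod_cast this
  · have hρ : R * (R ^ (-1 + b')) = δ'⁻¹ := by
      rw [hδ', ← Real.rpow_neg hR0.le, neg_neg]
      nth_rewrite 1 [← Real.rpow_one R]
      rw [← Real.rpow_add hR0]
      congr 1
      ring
    have hRr : 1 ≤ R * R ^ (-1 + b') * R ^ (-1 + b') := by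
      rw [hρ, hδ', ← Real.rpow_neg hR0.le, neg_neg, ← Real.rpow_add hR0]
      exact Real.one_le_rpow hR (by linarith)
    have h4 := hC4 R (R ^ (-1 + b')) 3 _ M' (GD δ δ' f) (GD' δ δ' f)
      (20 * (K * rp R (-(σ * b)))) hR0 (by positivity) hRr (by norm_num) nG nG' hd
      (fun x c => by
        rw [hρ]
        exact (setLIntegral_le_lintegral _ _).trans (hsl x))
    rw [hρ] at h4
    refine h4.trans ?_
    calc C4 * (ENNReal.ofReal (R ^ (-1 + b')) * (LL (2 * R) 3 *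
          (20 * (K * rp R (-(σ * b))) * ∫⁻ z, WW (GD δ δ' f) (GD' δ δ' f) δ'⁻¹ z)))
        ≤ C4 * (rp R (-1 + b') * ((CL * rp R ε) *
          (20 * (K * rp R (-(σ * b))) * (20 * rp R (-(τ * b)) * m)))) := by
          gcongr
          · exact le_rfl
          · exact hCL R hR
      _ = (((C4 * CL * (20 * 20)) * m) * K) *
          (rp R (-1 + b') * rp R ε * rp R (-(σ * b)) * rp R (-(τ * b))) := by ring
      _ ≤ _ := by
          rw [rp_mul hR0, rp_mul hR0, rp_mul hR0]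
          have e : (-1 + b' + ε + -(σ * b) + -(τ * b)) = -1 + b' + ε - (σ + τ) * b := by ring
          rw [e]
          gcongr
          have := le_max_right ((4 * (2 * π).toNNReal ^ 2) * 20) (C4 * CL * (20 * 20))
          exact_mod_cast this

end Pool.Agent.TH218.DR
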