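import Mathlib
import Pool.Agent.TH218.DR.A13
set_option autoImplicit false

/-!
# Directional regularity, part 14: the first and the last piece
-/

namespace Pool.Agent.TH218.DR

open MeasureTheory Set Complex
open scoped ENNReal NNReal Real FourierTransform

lemma low_slice {f : ℝ × ℝ → ℂ} {L M : ℝ} (hf : Nice f L M) {δ : ℝ} (hδ : 0 < δ) (x : ℝ) :
    ∫⁻ y, WW (FF δ f) (DD δ f) δ⁻¹ (x, y) ≤ 5 * ∫⁻ y, ‖f (x, y)‖ₑ ^ 2 := by
  have hm := hf.meas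
  have ham := av_meas δ hm
  have hFm : Measurable (FF δ f) := av_meas δ ham
  have h1 : ∫⁻ y, ‖FF δ f (x, y)‖ₑ ^ 2 ≤ ∫⁻ y, ‖f (x, y)‖ₑ ^ 2 :=
    (av_slice δ ham x).trans (av_slice δ hm x)
  have h2 : ∫⁻ y, ‖((δ⁻¹⁻¹ : ℝ) : ℂ) * DD δ f (x, y)‖ₑ ^ 2 ≤ 4 * ∫⁻ y, ‖f (x, y)‖ₑ ^ 2 := by
    have e : ∀ y, ((δ⁻¹⁻¹ : ℝ) : ℂ) * DD δ f (x, y) = av δ f (x, y + δ) - av δ f (x, y) := by
      intro y
      unfold DD sh
      rw [← mul_assoc, ← Complex.ofReal_mul, inv_inv, mul_inv_cancel₀ hδ.ne', Complex.ofReal_one,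
        one_mul]
    simp only [e]
    calc ∫⁻ y, ‖av δ f (x, y + δ) - av δ f (x, y)‖ₑ ^ 2
        ≤ 2 * ((∫⁻ y, ‖av δ f (x, y + δ)‖ₑ ^ 2) + ∫⁻ y, ‖av δ f (x, y)‖ₑ ^ 2) :=
          sub_slice (by fun_prop)
      _ = 2 * ((∫⁻ y, ‖av δ f (x, y)‖ₑ ^ 2) + ∫⁻ y, ‖av δ f (x, y)‖ₑ ^ 2) := by
          rw [lintegral_add_right_eq_self (fun y => ‖av δ f (x, y)‖ₑ ^ 2) δ]
      _ ≤ 2 * ((∫⁻ y, ‖f (x, y)‖ₑ ^ 2) + ∫⁻ y, ‖f (x, y)‖ₑ ^ 2) := by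
          exact mul_le_mul_right (add_le_add (av_slice δ hm x) (av_slice δ hm x)) 2
      _ = _ := by ring
  unfold WW
  rw [lintegral_add_left (by fun_prop)]
  calc _ ≤ (∫⁻ y, ‖f (x, y)‖ₑ ^ 2) + 4 * ∫⁻ y, ‖f (x, y)‖ₑ ^ 2 := add_le_add h1 h2
    _ = _ := by ring

/-- the low frequency piece -/
lemma low_piece (ε : ℝ) (hε : 0 < ε) (hε1 : ε ≤ 1) :
    ∃ C : ℝ≥0, ∀ (f : ℝ × ℝ → ℂ) (m : ℝ≥0∞) (R : ℝ), Nice f 1 1 → ∫⁻ z, ‖f z‖ₑ ^ 2 ≤ m → 1 ≤ R →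
      ∫⁻ q, ‖EQ (FF (R ^ (-(1 / 2) : ℝ)) f) q‖ₑ ^ 2 ∂(mu (Sh R)) ≤ (C * m) * rp R 1 ∧
      ∫⁻ q, ‖EQ (FF (R ^ (-(1 / 2) : ℝ)) f) q‖ₑ ^ 4 ∂(mu (Sh R)) ≤ (C * m) * rp R (-1 + ε) := by
  obtain ⟨C4, hC4⟩ := shell4
  obtain ⟨CL, hCL⟩ := LL2 3 ε (by norm_num) hε hε1
  refine ⟨max ((4 * (2 * π).toNNReal ^ 2) * 5) (C4 * CL * (10 * 5)), ?_⟩
  intro f m R hf hfm hR
  have hR0 : 0 < R := by linarith
  set δ := R ^ (-(1 / 2) : ℝ) with hδ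
  have hδ0 : 0 < δ := Real.rpow_pos_of_pos hR0 _
  have hδ1 : δ ≤ 1 := Real.rpow_le_one_of_one_le_of_nonpos hR (by norm_num)
  have nG := FF_nice hδ0.le hδ1 hf
  have nG' := DD_nice hδ0 hδ1 hf
  have hd := FF_der hδ0 hf
  have hRδ : R * δ = δ⁻¹ := by
    rw [hδ, ← Real.rpow_neg hR0.le]
    nth_rewrite 1 [← Real.rpow_one R]
    rw [← Real.rpow_add hR0]
    norm_num
  have hW5 : ∀ z, WW (FF δ f) (DD δ f) δ⁻¹ z ≤ 5 := by
    intro z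
    unfold WW
    have h1 : ‖FF δ f z‖ₑ ≤ 1 := by
      rw [← ofReal_norm, ← ENNReal.ofReal_one]
      exact ENNReal.ofReal_le_ofReal (nG.bd z)
    have h2 : ‖((δ⁻¹⁻¹ : ℝ) : ℂ) * DD δ f z‖ₑ ≤ 2 := by
      have e2 : (2 : ℝ≥0∞) = ENNReal.ofReal 2 := by norm_num
      rw [← ofReal_norm, e2, inv_inv]
      apply ENNReal.ofReal_le_ofReal
      rw [norm_mul, Complex.norm_real, Real.norm_eq_abs, abs_of_pos hδ0]
      calc δ * ‖DD δ f z‖ ≤ δ * (δ⁻¹ * (1 + 1)) := by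
            gcongr
            exact nG'.bd z
        _ = 2 := by
            field_simp
            norm_num
    calc ‖FF δ f z‖ₑ ^ 2 + ‖((δ⁻¹⁻¹ : ℝ) : ℂ) * DD δ f z‖ₑ ^ 2 ≤ 1 ^ 2 + 2 ^ 2 := by gcongr
      _ = 5 := by norm_num
  have hWm := WW_meas nG.meas nG'.meas δ⁻¹
  have hfm' := hf.meas
  have hw : Measurable (fun x : ℝ => ∫⁻ y, ‖f (x, y)‖ₑ ^ 2) := by
    have : Measurable (fun p : ℝ × ℝ => ‖f p‖ₑ ^ 2) := by fun_prop
    exact this.lintegral_prod_right'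
  have hwi : ∫⁻ x : ℝ, ∫⁻ y, ‖f (x, y)‖ₑ ^ 2 ≤ m := by
    refine le_trans (le_of_eq ?_) hfm
    rw [Measure.volume_eq_prod, lintegral_prod _ (by fun_prop)]
  have hmass := mass_w hWm _ m 5 hw hwi (fun x => low_slice hf hδ0 x)
  constructor
  · refine (two_sh R 3 _ (by norm_num) nG).trans ?_
    have h1 : ∫⁻ z, ‖FF δ f z‖ₑ ^ 2 ≤ 5 * m := (lintegral_mono fun z => le_self_add).trans hmass
    calc (4 * ((2 * π).toNNReal : ℝ≥0∞) ^ 2) * (rp R 1 * ∫⁻ z, ‖FF δ f z‖ₑ ^ 2)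
        ≤ (4 * ((2 * π).toNNReal : ℝ≥0∞) ^ 2) * (rp R 1 * (5 * m)) := by gcongr
      _ = (((4 * ((2 * π).toNNReal : ℝ≥0∞) ^ 2) * 5) * m) * rp R 1 := by ring
      _ ≤ _ := by
          gcongr
          have := le_max_left ((4 * (2 * π).toNNReal ^ 2) * 5) (C4 * CL * (10 * 5))
          exact_mod_cast this
  · have hRr : 1 ≤ R * δ * δ := by
      rw [hRδ, inv_mul_cancel₀ hδ0.ne']
    have h4 := hC4 R δ 3 _ _ (FF δ f) (DD δ f) (10 * ENNReal.ofReal δ) hR0 hδ0 hRr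
      (by norm_num) nG nG' hd (fun x c => by
        rw [hRδ]
        calc ∫⁻ y in Icc (c - δ) (c + δ), WW (FF δ f) (DD δ f) δ⁻¹ (x, y)
            ≤ ∫⁻ y in Icc (c - δ) (c + δ), 5 := lintegral_mono fun y => hW5 _
          _ = 10 * ENNReal.ofReal δ := by
              rw [lintegral_const, Measure.restrict_apply_univ, Real.volume_Icc,
                show c + δ - (c - δ) = 2 * δ by ring, ENNReal.ofReal_mul (by norm_num)]
              have e2 : ENNReal.ofReal 2 = 2 := by norm_num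
              rw [e2, ← mul_assoc]
              norm_num)
    rw [hRδ] at h4
    refine h4.trans ?_
    have eδ : ENNReal.ofReal δ = rp R (-(1 / 2)) := by
      rw [hδ]
      rfl
    rw [eδ]
    calc C4 * (rp R (-(1 / 2)) * (LL (2 * R) 3 *
          (10 * rp R (-(1 / 2)) * ∫⁻ z, WW (FF δ f) (DD δ f) δ⁻¹ z)))
        ≤ C4 * (rp R (-(1 / 2)) * ((CL * rp R ε) * (10 * rp R (-(1 / 2)) * (5 * m)))) := by
          gcongr
          exact hCL R hR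
      _ = ((C4 * CL * (10 * 5)) * m) * (rp R (-(1 / 2)) * rp R ε * rp R (-(1 / 2))) := by ring
      _ ≤ _ := by
          rw [rp_mul hR0, rp_mul hR0]
          have e : (-(1 / 2) + ε + -(1 / 2) : ℝ) = -1 + ε := by ring
          rw [e]
          gcongr
          have := le_max_right ((4 * (2 * π).toNNReal ^ 2) * 5) (C4 * CL * (10 * 5))
          exact_mod_cast this

/-- the last piece -/
lemma last_piece (σ τ ε : ℝ) (hσ : 0 ≤ σ) (hτ : 0 ≤ τ) (hε : 0 < ε) (hε1 : ε ≤ 1) :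
    ∃ C : ℝ≥0, ∀ (f : ℝ × ℝ → ℂ) (K : ℝ≥0∞) (w : ℝ → ℝ≥0∞) (m : ℝ≥0∞) (R : ℝ),
      Cl f K σ τ w m → 1 ≤ R →
      ∫⁻ q, ‖EQ (fun z => f z - FF (R ^ (-1 : ℝ)) f z) q‖ₑ ^ 2 ∂(mu (Sh R)) ≤
        (C * m) * rp R (1 - τ) ∧
      ∫⁻ q, ‖EQ (fun z => f z - FF (R ^ (-1 : ℝ)) f z) q‖ₑ ^ 4 ∂(mu (Sh R)) ≤
        ((C * m) * K) * rp R (ε - (σ + τ)) := by
  obtain ⟨CL, hCL⟩ := LL2 3 ε (by norm_num) hε hε1
  refine ⟨max ((4 * (2 * π).toNNReal ^ 2) * 4)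
    ((2 * π).toNNReal ^ 2 * (6 * (2 * CL * 4 * 4))), ?_⟩
  intro f K w m R hf hR
  have hR0 : 0 < R := by linarith
  set δ := R ^ (-1 : ℝ) with hδ
  have hδ0 : 0 < δ := Real.rpow_pos_of_pos hR0 _
  have hδ1 : δ ≤ 1 := Real.rpow_le_one_of_one_le_of_nonpos hR (by norm_num)
  have nG : Nice (fun z => f z - FF δ f z) 3 (1 + 1) :=
    (hf.nice.mono (by norm_num) le_rfl).sub (FF_nice hδ0.le hδ1 hf.nice)
  have hgen : ∀ (k : ℝ≥0∞) (κ x : ℝ), 0 ≤ κ → Rs f x k κ →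
      ∫⁻ y, ‖f (x, y) - FF δ f (x, y)‖ₑ ^ 2 ≤ 4 * (k * rp R (-κ)) := by
    intro k κ x hκ hr
    have h1 := FF_diff hκ hf.nice hr hδ0
    rw [hδ, del_pow hR0, ← hδ, mul_one] at h1
    refine le_trans (le_of_eq ?_) h1
    refine lintegral_congr fun y => ?_
    rw [← enorm_neg, neg_sub]
  have hsl := fun x => hgen K σ x hσ (hf.rs x)
  have hsw := fun x => hgen (w x) τ x hτ (hf.rw x)
  have hmass := mass_w (nG.meas.enorm.pow_const 2) w m (4 * rp R (-τ)) hf.wm hf.wi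
    (fun x => (hsw x).trans (le_of_eq (by ring)))
  constructor
  · refine (two_sh R 3 _ (by norm_num) nG).trans ?_
    calc (4 * ((2 * π).toNNReal : ℝ≥0∞) ^ 2) * (rp R 1 * ∫⁻ z, ‖f z - FF δ f z‖ₑ ^ 2)
        ≤ (4 * ((2 * π).toNNReal : ℝ≥0∞) ^ 2) * (rp R 1 * (4 * rp R (-τ) * m)) := by
          gcongr
      _ = (((4 * ((2 * π).toNNReal : ℝ≥0∞) ^ 2) * 4) * m) * (rp R 1 * rp R (-τ)) := by ring
      _ ≤ _ := by
          rw [rp_mul hR0]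
          have e : (1 : ℝ) + -τ = 1 - τ := by ring
          rw [e]
          gcongr
          have := le_max_left ((4 * (2 * π).toNNReal ^ 2) * 4)
            ((2 * π).toNNReal ^ 2 * (6 * (2 * CL * 4 * 4)))
          exact_mod_cast this
  · calc ∫⁻ q, ‖EQ (fun z => f z - FF δ f z) q‖ₑ ^ 4 ∂(mu (Sh R))
        ≤ ∫⁻ q, ‖EQ (fun z => f z - FF δ f z) q‖ₑ ^ 4 ∂(mu (Icc (-(2 * R)) (2 * R))) :=
          lintegral_mono' (mu_mono (Sh_sub R)) le_rfl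
      _ ≤ ENNReal.ofReal ((2 * π) ^ 2) * (ENNReal.ofReal (2 * 3) *
            (2 * LL (2 * R) 3 * (4 * (K * rp R (-σ))) * ∫⁻ z, ‖f z - FF δ f z‖ₑ ^ 2)) :=
          strip4' (2 * R) 3 3 0 _ (by positivity) (by norm_num) nG
            (fun z hz => by rw [sub_zero]; exact (nG.supp z hz).2) _ hsl
      _ ≤ ((2 * π).toNNReal : ℝ≥0∞) ^ 2 * (6 *
            (2 * (CL * rp R ε) * (4 * (K * rp R (-σ))) * (4 * rp R (-τ) * m))) := by
          have e6 : ENNReal.ofReal (2 * 3) = 6 := by norm_num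
          rw [e6]
          gcongr
          · rw [ENNReal.ofReal_pow (by positivity)]
            rfl
          · exact hCL R hR
      _ = (((((2 * π).toNNReal : ℝ≥0∞) ^ 2 * (6 * (2 * CL * 4 * 4))) * m) * K) *
          (rp R ε * rp R (-σ) * rp R (-τ)) := by ring
      _ ≤ _ := by
          rw [rp_mul hR0, rp_mul hR0]
          have e : (ε + -σ + -τ : ℝ) = ε - (σ + τ) := by ring
          rw [e]
          gcongr
          have := le_max_right ((4 * (2 * π).toNNReal ^ 2) * 4)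
            ((2 * π).toNNReal ^ 2 * (6 * (2 * CL * 4 * 4)))
          exact_mod_cast this

/-- functions with small slices -/
lemma tiny_piece (ε : ℝ) (hε : 0 < ε) (hε1 : ε ≤ 1) :
    ∃ C : ℝ≥0, ∀ (f : ℝ × ℝ → ℂ) (d m : ℝ≥0∞) (R : ℝ), Nice f 1 1 →
      (∀ x, ∫⁻ y, ‖f (x, y)‖ₑ ^ 2 ≤ d) → ∫⁻ z, ‖f z‖ₑ ^ 2 ≤ m → 1 ≤ R →
      ∫⁻ q, ‖EQ f q‖ₑ ^ 2 ∂(mu (Sh R)) ≤ (C * m) * rp R 1 ∧
      ∫⁻ q, ‖EQ f q‖ₑ ^ 4 ∂(mu (Sh R)) ≤ ((C * m) * d) * rp R ε := by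
  obtain ⟨CL, hCL⟩ := LL2 3 ε (by norm_num) hε hε1
  refine ⟨max (4 * (2 * π).toNNReal ^ 2) ((2 * π).toNNReal ^ 2 * (6 * (2 * CL))), ?_⟩
  intro f d m R hf hd hm hR
  have hR0 : 0 < R := by linarith
  have nG : Nice f 3 1 := hf.mono (by norm_num) le_rfl
  constructor
  · refine (two_sh R 3 _ (by norm_num) nG).trans ?_
    calc (4 * ((2 * π).toNNReal : ℝ≥0∞) ^ 2) * (rp R 1 * ∫⁻ z, ‖f z‖ₑ ^ 2)
        ≤ (4 * ((2 * π).toNNReal : ℝ≥0∞) ^ 2) * (rp R 1 * m) := by gcongr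
      _ = ((4 * ((2 * π).toNNReal : ℝ≥0∞) ^ 2) * m) * rp R 1 := by ring
      _ ≤ _ := by
          gcongr
          have := le_max_left (4 * (2 * π).toNNReal ^ 2)
            ((2 * π).toNNReal ^ 2 * (6 * (2 * CL)))
          exact_mod_cast this
  · calc ∫⁻ q, ‖EQ f q‖ₑ ^ 4 ∂(mu (Sh R))
        ≤ ∫⁻ q, ‖EQ f q‖ₑ ^ 4 ∂(mu (Icc (-(2 * R)) (2 * R))) :=
          lintegral_mono' (mu_mono (Sh_sub R)) le_rfl
      _ ≤ ENNReal.ofReal ((2 * π) ^ 2) * (ENNReal.ofReal (2 * 3) *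
            (2 * LL (2 * R) 3 * d * ∫⁻ z, ‖f z‖ₑ ^ 2)) :=
          strip4' (2 * R) 3 3 0 _ (by positivity) (by norm_num) nG
            (fun z hz => by rw [sub_zero]; exact (nG.supp z hz).2) _ hd
      _ ≤ ((2 * π).toNNReal : ℝ≥0∞) ^ 2 * (6 * (2 * (CL * rp R ε) * d * m)) := by
          have e6 : ENNReal.ofReal (2 * 3) = 6 := by norm_num
          rw [e6]
          gcongr
          · rw [ENNReal.ofReal_pow (by positivity)]
            rfl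
          · exact hCL R hR
      _ = (((((2 * π).toNNReal : ℝ≥0∞) ^ 2 * (6 * (2 * CL))) * m) * d) * rp R ε := by ring
      _ ≤ _ := by
          gcongr
          have := le_max_right (4 * (2 * π).toNNReal ^ 2)
            ((2 * π).toNNReal ^ 2 * (6 * (2 * CL)))
          exact_mod_cast this

end Pool.Agent.TH218.DR
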