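import Mathlib
import Pool.Agent.TH218.DR.A14
set_option autoImplicit false

/-!
# Directional regularity, part 15: the bound on a dyadic shell
-/

namespace Pool.Agent.TH218.DR

open MeasureTheory Set Complex
open scoped ENNReal NNReal Real FourierTransform

/-- the scales -/
noncomputable def bb (N i : ℕ) : ℝ := 1 / 2 + i / (2 * N)

/-- partial approximations -/
noncomputable def ap (N : ℕ) (R : ℝ) (f : ℝ × ℝ → ℂ) (j : ℕ) : ℝ × ℝ → ℂ :=
  if j ≤ N then FF (R ^ (-bb N j)) f else f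

/-- the pieces -/
noncomputable def pc (N : ℕ) (R : ℝ) (f : ℝ × ℝ → ℂ) : ℕ → ℝ × ℝ → ℂ
  | 0 => ap N R f 0
  | j + 1 => fun z => ap N R f (j + 1) z - ap N R f j z

lemma bb_nonneg (N i : ℕ) : 1 / 2 ≤ bb N i := by
  unfold bb
  have : (0 : ℝ) ≤ i / (2 * N) := by positivity
  linarith

lemma ap_nice {N : ℕ} {R : ℝ} (hR : 1 ≤ R) {f : ℝ × ℝ → ℂ} (hf : Nice f 1 1) (j : ℕ) :
    Nice (ap N R f j) 3 1 := by
  unfold ap
  split_ifs
  · refine FF_nice (Real.rpow_nonneg (by linarith) _)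
      (Real.rpow_le_one_of_one_le_of_nonpos hR ?_) hf
    linarith [bb_nonneg N j]
  · exact hf.mono (by norm_num) le_rfl

lemma pc_nice {N : ℕ} {R : ℝ} (hR : 1 ≤ R) {f : ℝ × ℝ → ℂ} (hf : Nice f 1 1) (j : ℕ) :
    Nice (pc N R f j) 3 2 := by
  cases j with
  | zero => exact (ap_nice hR hf 0).mono le_rfl (by norm_num)
  | succ j =>
    have := (ap_nice (N := N) hR hf (j + 1)).sub (ap_nice (N := N) hR hf j)
    exact this.mono le_rfl (by norm_num)

lemma pc_sum (N : ℕ) (R : ℝ) (f : ℝ × ℝ → ℂ) (z : ℝ × ℝ) :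
    ∑ j ∈ Finset.range (N + 2), pc N R f j z = f z := by
  rw [Finset.sum_range_succ']
  have : ∑ k ∈ Finset.range (N + 1), pc N R f (k + 1) z =
      ∑ k ∈ Finset.range (N + 1), (ap N R f (k + 1) z - ap N R f k z) := rfl
  rw [this, Finset.sum_range_sub (fun k => ap N R f k z)]
  show ap N R f (N + 1) z - ap N R f 0 z + ap N R f 0 z = f z
  rw [sub_add_cancel]
  unfold ap
  rw [if_neg (by omega)]

lemma pc_pieces (σ τ ε : ℝ) (hσ : 0 ≤ σ) (hτ : 0 ≤ τ) (hε : 0 < ε) (hε1 : ε ≤ 1)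
    (N : ℕ) (hN : 1 ≤ N) (a κ : ℝ) (ha0 : 0 ≤ a) (ha1 : a ≤ 1)
    (h1 : 1 - 2 * a + a * ε ≤ -κ)
    (h2 : ∀ i : ℕ, i ≤ N → 1 - 2 * a + a * ε + a / (2 * N) + bb N i * (a - (τ + a * σ)) ≤ -κ) :
    ∃ C : ℝ≥0, ∀ (f : ℝ × ℝ → ℂ) (K : ℝ≥0∞) (w : ℝ → ℝ≥0∞) (m' m : ℝ≥0∞) (R : ℝ),
      Cl f K σ τ w m' → ∫⁻ z, ‖f z‖ₑ ^ 2 ≤ m → 1 ≤ R → ∀ j < N + 2,
      ∫⁻ q, ‖EQ (pc N R f j) q‖ₑ ^ (2 + 2 * a) ∂(mu (Sh R)) ≤
        (C * (m + m' * K ^ a)) * rp R (-κ) := by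
  obtain ⟨C1, hC1⟩ := low_piece ε hε hε1
  obtain ⟨C2, hC2⟩ := mid_piece σ τ ε hσ hτ hε hε1
  obtain ⟨C3, hC3⟩ := last_piece σ τ ε hσ hτ hε hε1
  refine ⟨max C1 (max C2 C3), ?_⟩
  intro f K w m' m R hc hfm hR j hj
  have hf := hc.nice
  have hN0 : (0 : ℝ) < N := by exact_mod_cast hN
  have hm := (EQ_meas (pc_nice (N := N) hR hf j).meas).enorm
  have fin : ∀ (C : ℝ≥0), C ≤ max C1 (max C2 C3) → ((C : ℝ≥0∞) * m') * K ^ a ≤
      (((max C1 (max C2 C3) : ℝ≥0) : ℝ≥0∞) * (m + m' * K ^ a)) := by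
    intro C h
    rw [mul_assoc]
    gcongr
    exact le_add_self
  have fin1 : ((C1 : ℝ≥0∞) * m) * 1 ^ a ≤
      (((max C1 (max C2 C3) : ℝ≥0) : ℝ≥0∞) * (m + m' * K ^ a)) := by
    rw [ENNReal.one_rpow, mul_one]
    gcongr
    · exact le_max_left _ _
    · exact le_self_add
  cases j with
  | zero =>
    have e : pc N R f 0 = FF (R ^ (-(1 / 2) : ℝ)) f := by
      show ap N R f 0 = _
      unfold ap bb
      simp
    rw [e] at hm ⊢
    obtain ⟨p2, p4⟩ := hC1 f m R hf hfm hR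
    refine (interp_pow (mu (Sh R)) _ hm a _ R 1 (-1 + ε) κ ha0 ha1 rfl hR _ 1
      (by linarith) p2 (by rw [mul_one]; exact p4)).trans ?_
    exact mul_le_mul_left fin1 _
  | succ i =>
    have hi : i ≤ N := by omega
    rcases Nat.lt_or_ge i N with hiN | hiN
    · have e : pc N R f (i + 1) = GD (R ^ (-bb N i)) (R ^ (-bb N (i + 1))) f := by
        show (fun z => ap N R f (i + 1) z - ap N R f i z) = _
        unfold ap GD
        rw [if_pos (by omega), if_pos (by omega)]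
      rw [e] at hm ⊢
      have hbb : bb N (i + 1) = bb N i + 1 / (2 * N) := by
        unfold bb
        push_cast
        field_simp
        ring
      obtain ⟨p2, p4⟩ := hC2 f K w m' R (bb N i) (bb N (i + 1)) hc hR (by linarith [bb_nonneg N i])
        (by rw [hbb]; have : (0 : ℝ) ≤ 1 / (2 * N) := by positivity
            linarith) (bb_nonneg _ _)
      have m1 : C2 ≤ max C1 (max C2 C3) := (le_max_left _ _).trans (le_max_right _ _)
      refine (interp_pow (mu (Sh R)) _ hm a _ R (1 - τ * bb N i)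
        (-1 + bb N (i + 1) + ε - (σ + τ) * bb N i) κ ha0 ha1 rfl hR _ K ?_ p2 p4).trans
        (mul_le_mul_left (fin _ m1) _)
      have h3 := h2 i hi
      rw [hbb]
      have e3 : (1 - τ * bb N i) * (1 - a) + (-1 + (bb N i + 1 / (2 * N)) + ε -
          (σ + τ) * bb N i) * a = 1 - 2 * a + a * ε + a / (2 * N) +
          bb N i * (a - (τ + a * σ)) := by ring
      rw [e3]
      exact h3
    · have hiN' : i = N := by omega
      subst hiN'
      have hb1 : bb i i = 1 := by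
        unfold bb
        field_simp
        norm_num
      have e : pc i R f (i + 1) = fun z => f z - FF (R ^ (-1 : ℝ)) f z := by
        show (fun z => ap i R f (i + 1) z - ap i R f i z) = _
        unfold ap
        rw [if_neg (by omega), if_pos (by omega), hb1]
      rw [e] at hm ⊢
      obtain ⟨p2, p4⟩ := hC3 f K w m' R hc hR
      have m1 : C3 ≤ max C1 (max C2 C3) := (le_max_right _ _).trans (le_max_right _ _)
      refine (interp_pow (mu (Sh R)) _ hm a _ R (1 - τ) (ε - (σ + τ)) κ ha0 ha1 rfl hR _ K ?_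
        p2 p4).trans (mul_le_mul_left (fin _ m1) _)
      have h3 := h2 i le_rfl
      rw [hb1] at h3
      have : 0 ≤ a / (2 * i) := by positivity
      nlinarith

/-- **The bound on a dyadic shell.** -/
theorem shellq (σ τ a : ℝ) (hσ : 0 ≤ σ) (hτ : 0 ≤ τ) (ha0 : 1 / 2 < a) (ha1 : a < 1)
    (hst : 1 - a < τ + a * σ) :
    ∃ (C : ℝ≥0) (κ : ℝ), 0 < κ ∧ κ ≤ 1 ∧
      ∀ (f : ℝ × ℝ → ℂ) (K : ℝ≥0∞) (w : ℝ → ℝ≥0∞) (m' m : ℝ≥0∞) (R : ℝ),
      Cl f K σ τ w m' → ∫⁻ z, ‖f z‖ₑ ^ 2 ≤ m → 1 ≤ R →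
      ∫⁻ z, ‖EQ f z‖ₑ ^ (2 + 2 * a) ∂(mu (Sh R)) ≤ (C * (m + m' * K ^ a)) * rp R (-κ) := by
  have he1 : 0 < τ + a * σ - (1 - a) := by linarith
  set κ : ℝ := min ((2 * a - 1) / 2) (τ + a * σ - (1 - a)) / 3 with hκ
  have hm1 : 3 * κ ≤ (2 * a - 1) / 2 := by
    rw [hκ]
    linarith [min_le_left ((2 * a - 1) / 2) (τ + a * σ - (1 - a))]
  have hm2 : 3 * κ ≤ τ + a * σ - (1 - a) := by
    rw [hκ]
    linarith [min_le_right ((2 * a - 1) / 2) (τ + a * σ - (1 - a))]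
  have hκ0 : 0 < κ := by
    rw [hκ]
    have : 0 < min ((2 * a - 1) / 2) (τ + a * σ - (1 - a)) :=
      lt_min (by linarith) he1
    linarith
  obtain ⟨N, hN⟩ := exists_nat_ge (1 / (2 * κ))
  have hN1 : 1 ≤ N := by
    rw [Nat.one_le_iff_ne_zero]
    rintro rfl
    have : 0 < 1 / (2 * κ) := by positivity
    simp only [Nat.cast_zero] at hN
    linarith
  have hN0 : (0 : ℝ) < N := by exact_mod_cast hN1
  have hNκ : a / (2 * N) ≤ κ := by
    rw [div_le_iff₀ (by positivity)] at hN ⊢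
    nlinarith
  have hb : ∀ i : ℕ, i ≤ N → 1 / 2 ≤ bb N i ∧ bb N i ≤ 1 := by
    intro i hi
    refine ⟨bb_nonneg N i, ?_⟩
    unfold bb
    have h1 : (i : ℝ) / (2 * N) ≤ 1 / 2 := by
      rw [div_le_div_iff₀ (by positivity) (by norm_num)]
      have : (i : ℝ) ≤ N := by exact_mod_cast hi
      linarith
    linarith
  obtain ⟨C, hC⟩ := pc_pieces σ τ κ hσ hτ hκ0 (by linarith) N hN1 a κ (by linarith) ha1.le
    (by nlinarith) (by
      intro i hi
      obtain ⟨hb1, hb2⟩ := hb i hi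
      have h5 : a * κ ≤ κ := by nlinarith
      -- linear in `bb N i`
      have h6 : 1 - 2 * a + bb N i * (a - (τ + a * σ)) ≤ -(3 * κ) := by
        by_cases h : 0 ≤ a - (τ + a * σ)
        · nlinarith
        · push Not at h
          nlinarith
      linarith)
  refine ⟨((N + 2 : ℕ) : ℝ≥0) ^ (2 + 2 * a - 1) * ((N + 2 : ℕ) * C), κ, hκ0, by linarith, ?_⟩
  intro f K w m' m R hc hfm hR
  have hf := hc.nice
  have hn := fun j => pc_nice (N := N) hR hf j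
  have e : f = fun z => ∑ j ∈ Finset.range (N + 2), pc N R f j z := by
    ext z
    rw [pc_sum]
  have hsum : ∀ z, EQ f z = ∑ j ∈ Finset.range (N + 2), EQ (pc N R f j) z := by
    intro z
    rw [← EQ_sum (N + 2) (pc N R f) hn z, ← e]
  calc ∫⁻ z, ‖EQ f z‖ₑ ^ (2 + 2 * a) ∂(mu (Sh R))
      ≤ ∫⁻ z, ((N + 2 : ℕ) : ℝ≥0∞) ^ (2 + 2 * a - 1) *
          ∑ j ∈ Finset.range (N + 2), ‖EQ (pc N R f j) z‖ₑ ^ (2 + 2 * a) ∂(mu (Sh R)) := by
        refine lintegral_mono fun z => ?_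
        show ‖EQ f z‖ₑ ^ (2 + 2 * a) ≤ _
        rw [hsum z]
        calc ‖∑ j ∈ Finset.range (N + 2), EQ (pc N R f j) z‖ₑ ^ (2 + 2 * a)
            ≤ (∑ j ∈ Finset.range (N + 2), ‖EQ (pc N R f j) z‖ₑ) ^ (2 + 2 * a) := by
              gcongr
              exact enorm_sum_le _ _
          _ ≤ _ := by
              have := ENNReal.rpow_sum_le_const_mul_sum_rpow (Finset.range (N + 2))
                (fun j => ‖EQ (pc N R f j) z‖ₑ) (p := 2 + 2 * a) (by linarith)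
              rwa [Finset.card_range] at this
    _ = ((N + 2 : ℕ) : ℝ≥0∞) ^ (2 + 2 * a - 1) *
          ∑ j ∈ Finset.range (N + 2), ∫⁻ z, ‖EQ (pc N R f j) z‖ₑ ^ (2 + 2 * a) ∂(mu (Sh R)) := by
        rw [lintegral_const_mul, lintegral_finsetSum]
        · intro j _
          exact (EQ_meas (hn j).meas).enorm.pow_const _
        · exact Finset.measurable_sum _ fun j _ => (EQ_meas (hn j).meas).enorm.pow_const _
    _ ≤ ((N + 2 : ℕ) : ℝ≥0∞) ^ (2 + 2 * a - 1) *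
          ∑ j ∈ Finset.range (N + 2), (C * (m + m' * K ^ a)) * rp R (-κ) := by
        gcongr with j hj
        exact hC f K w m' m R hc hfm hR j (Finset.mem_range.1 hj)
    _ = _ := by
        rw [Finset.sum_const, Finset.card_range, nsmul_eq_mul]
        rw [ENNReal.coe_mul, ENNReal.coe_rpow_of_nonneg _ (by linarith)]
        push_cast
        ring

/-- a class of functions with a power gain on shells -/
def ShB (P : (ℝ × ℝ → ℂ) → ℝ≥0∞ → Prop) (a : ℝ) : Prop :=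
  ∃ (C : ℝ≥0) (κ : ℝ), 0 < κ ∧ ∀ (f : ℝ × ℝ → ℂ) (m : ℝ≥0∞) (R : ℝ), P f m → 1 ≤ R →
    ∫⁻ z, ‖EQ f z‖ₑ ^ (2 + 2 * a) ∂(mu (Sh R)) ≤ (C * m) * rp R (-κ)

end Pool.Agent.TH218.DR
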