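import Mathlib
import Pool.Agent.TH218.DR.A15
set_option autoImplicit false

/-!
# Directional regularity, part 16: the global bound
-/

namespace Pool.Agent.TH218.DR

open MeasureTheory Set Complex
open scoped ENNReal NNReal Real FourierTransform

lemma EQ_sup {f : ℝ × ℝ → ℂ} (hf : Nice f 1 1) (q : ℝ × ℝ × ℝ) : ‖EQ f q‖ₑ ≤ 4 := by
  unfold EQ EX
  have e : ∫ z : ℝ × ℝ, ee (z.1 * q.2.1 + z.2 * q.2.2 + (z.1 ^ 2 + z.2 ^ 2) * q.1) * f z =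
      ∫ z in box 1, ee (z.1 * q.2.1 + z.2 * q.2.2 + (z.1 ^ 2 + z.2 ^ 2) * q.1) * f z := by
    symm
    apply setIntegral_eq_integral_of_forall_compl_eq_zero
    intro z hz
    rw [hf.off z hz, mul_zero]
  rw [e]
  calc ‖∫ z in box 1, ee (z.1 * q.2.1 + z.2 * q.2.2 + (z.1 ^ 2 + z.2 ^ 2) * q.1) * f z‖ₑ
      ≤ ∫⁻ z in box 1, ‖ee (z.1 * q.2.1 + z.2 * q.2.2 + (z.1 ^ 2 + z.2 ^ 2) * q.1) * f z‖ₑ :=
        enorm_integral_le_lintegral_enorm _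
    _ ≤ ∫⁻ z in box 1, 1 := by
        refine lintegral_mono fun z => ?_
        show ‖ee (z.1 * q.2.1 + z.2 * q.2.2 + (z.1 ^ 2 + z.2 ^ 2) * q.1) * f z‖ₑ ≤ 1
        rw [enorm_mul, ee_enorm, one_mul, ← ofReal_norm, ← ENNReal.ofReal_one]
        exact ENNReal.ofReal_le_ofReal (hf.bd z)
    _ = 4 := by
        rw [setLIntegral_one]
        unfold box
        rw [Measure.volume_eq_prod, Measure.prod_prod, Real.volume_Icc]
        norm_num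

/-- the slices of the `L^q` norm -/
noncomputable def Ps (f : ℝ × ℝ → ℂ) (q t : ℝ) : ℝ≥0∞ := ∫⁻ ξ, ∫⁻ η, ‖EQ f (t, ξ, η)‖ₑ ^ q

lemma shell_sum (κ : ℝ) (hκ : 0 < κ) : ∑' k : ℕ, rp (2 ^ k) (-κ) < ∞ := by
  have e : ∀ k : ℕ, rp (2 ^ k) (-κ) = (ENNReal.ofReal ((2 : ℝ) ^ (-κ))) ^ k := by
    intro k
    unfold rp
    rw [← ENNReal.ofReal_pow (by positivity), ← Real.rpow_natCast 2 k, ← Real.rpow_mul (by norm_num),
      mul_comm, Real.rpow_mul (by norm_num), Real.rpow_natCast]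
  simp only [e]
  rw [ENNReal.tsum_geometric]
  apply ENNReal.inv_lt_top.2
  rw [tsub_pos_iff_lt, ENNReal.ofReal_lt_one]
  exact Real.rpow_lt_one_of_one_lt_of_neg (by norm_num) (by linarith)

lemma cover : (univ : Set ℝ) ⊆ Icc (-1) 1 ∪ ⋃ k : ℕ, Sh (2 ^ k) := by
  intro t _
  by_cases h : |t| ≤ 1
  · exact Or.inl (abs_le.1 h)
  · push Not at h
    right
    obtain ⟨n, hn1, hn2⟩ := exists_nat_pow_near h.le (by norm_num : (1 : ℝ) < 2)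
    rw [mem_iUnion]
    refine ⟨n, hn1, ?_⟩
    rw [pow_succ] at hn2
    linarith

/-- **The restricted bound.** -/
theorem total (P : (ℝ × ℝ → ℂ) → ℝ≥0∞ → Prop)
    (hP : ∀ f m, P f m → Nice f 1 1 ∧ ∫⁻ z, ‖f z‖ₑ ^ 2 ≤ m) (a : ℝ) (ha : 0 ≤ a) (hSh : ShB P a) :
    ∃ C : ℝ≥0, ∀ (f : ℝ × ℝ → ℂ) (m : ℝ≥0∞), P f m →
      ∫⁻ z : ℝ × ℝ × ℝ, ‖EQ f z‖ₑ ^ (2 + 2 * a) ≤ C * m := by
  obtain ⟨C, κ, hκ, hC⟩ := hSh
  have hfin := shell_sum κ hκ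
  refine ⟨4 ^ (2 * a) * (2 * ((2 * π).toNNReal ^ 2)) +
    C * (∑' k : ℕ, rp (2 ^ k) (-κ)).toNNReal, ?_⟩
  intro f m hc
  obtain ⟨hf, hfm⟩ := hP f m hc
  have hm := (EQ_meas hf.meas).enorm
  have hmq := hm.pow_const (2 + 2 * a)
  have e1 : ∫⁻ z : ℝ × ℝ × ℝ, ‖EQ f z‖ₑ ^ (2 + 2 * a) = ∫⁻ t in univ, Ps f (2 + 2 * a) t := by
    have h1 := tri (S := univ) hmq
    rw [show mu univ = volume by unfold mu; rw [Measure.restrict_univ]; rfl] at h1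
    exact h1
  have e2 : ∀ S : Set ℝ, ∫⁻ t in S, Ps f (2 + 2 * a) t =
      ∫⁻ z, ‖EQ f z‖ₑ ^ (2 + 2 * a) ∂(mu S) := fun S => (tri (S := S) hmq).symm
  have l1 : ∫⁻ t in Icc (-1) 1, Ps f (2 + 2 * a) t ≤
      ((4 : ℝ≥0) ^ (2 * a) * (2 * ((2 * π).toNNReal ^ 2)) : ℝ≥0) * m := by
    rw [e2]
    have h2 := two' 1 1 1 zero_le_one hf
    calc ∫⁻ z, ‖EQ f z‖ₑ ^ (2 + 2 * a) ∂(mu (Icc (-1) 1))
        ≤ ∫⁻ z, (4 : ℝ≥0∞) ^ (2 * a) * ‖EQ f z‖ₑ ^ 2 ∂(mu (Icc (-1) 1)) := by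
          refine lintegral_mono fun z => ?_
          show ‖EQ f z‖ₑ ^ (2 + 2 * a) ≤ (4 : ℝ≥0∞) ^ (2 * a) * ‖EQ f z‖ₑ ^ 2
          have e3 : ‖EQ f z‖ₑ ^ (2 + 2 * a) = ‖EQ f z‖ₑ ^ (2 * a) * ‖EQ f z‖ₑ ^ 2 := by
            rw [← ENNReal.rpow_natCast, ← ENNReal.rpow_add_of_nonneg _ _ (by linarith)
              (by norm_num)]
            congr 1
            push_cast
            ring
          rw [e3]
          gcongr
          exact EQ_sup hf z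
      _ = (4 : ℝ≥0∞) ^ (2 * a) * (ENNReal.ofReal (2 * 1) *
            (ENNReal.ofReal ((2 * π) ^ 2) * ∫⁻ z, ‖f z‖ₑ ^ 2)) := by
          rw [lintegral_const_mul _ (hm.pow_const 2), h2]
      _ ≤ (4 : ℝ≥0∞) ^ (2 * a) * (2 * (((2 * π).toNNReal : ℝ≥0∞) ^ 2 * m)) := by
          gcongr
          · norm_num
          · rw [ENNReal.ofReal_pow (by positivity)]
            rfl
      _ = _ := by
          rw [ENNReal.coe_mul, ENNReal.coe_rpow_of_nonneg _ (by linarith)]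
          push_cast
          ring
  have l2 : ∀ k : ℕ, ∫⁻ t in Sh (2 ^ k), Ps f (2 + 2 * a) t ≤ (C * m) * rp (2 ^ k) (-κ) := by
    intro k
    rw [e2]
    exact hC f m (2 ^ k) hc (one_le_pow₀ (by norm_num))
  calc ∫⁻ z : ℝ × ℝ × ℝ, ‖EQ f z‖ₑ ^ (2 + 2 * a) = ∫⁻ t in univ, Ps f (2 + 2 * a) t := e1
    _ ≤ ∫⁻ t in Icc (-1) 1 ∪ ⋃ k : ℕ, Sh (2 ^ k), Ps f (2 + 2 * a) t := lintegral_mono_set cover
    _ ≤ (∫⁻ t in Icc (-1) 1, Ps f (2 + 2 * a) t) +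
          (∫⁻ t in ⋃ k : ℕ, Sh (2 ^ k), Ps f (2 + 2 * a) t) := lintegral_union_le _ _ _
    _ ≤ (∫⁻ t in Icc (-1) 1, Ps f (2 + 2 * a) t) +
          ∑' k : ℕ, ∫⁻ t in Sh (2 ^ k), Ps f (2 + 2 * a) t := by
        gcongr
        exact lintegral_iUnion_le _ _
    _ ≤ ((4 : ℝ≥0) ^ (2 * a) * (2 * ((2 * π).toNNReal ^ 2)) : ℝ≥0) * m +
          ∑' k : ℕ, (C * m) * rp (2 ^ k) (-κ) := by
        gcongr with k
        exact l2 k
    _ = _ := by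
        rw [ENNReal.tsum_mul_left]
        push_cast
        rw [ENNReal.coe_toNNReal hfin.ne]
        ring

end Pool.Agent.TH218.DR
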