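import Mathlib
import Pool.Agent.TH218.DR.A16
set_option autoImplicit false

/-!
# Directional regularity, part 17: summing over dyadic heights
-/

namespace Pool.Agent.TH218.DR

open MeasureTheory Set Complex
open scoped ENNReal NNReal Real FourierTransform

lemma geo (α : ℝ) (hα : 0 < α) : ∃ G : ℝ, 0 ≤ G ∧ ∀ (n : ℕ) (v : ℝ), 0 < v →
    ∑ j ∈ Finset.range n, (if 2 ^ j * v ≤ 1 then (2 ^ j * v) ^ α else 0) ≤ G := by
  have h2 : 1 < (2 : ℝ) ^ α := Real.one_lt_rpow (by norm_num) hα
  set G0 : ℝ := 1 / ((2 : ℝ) ^ α - 1) with hG0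
  have hG0p : 0 < G0 := by
    rw [hG0]
    apply one_div_pos.2
    linarith
  have hG1 : G0 * ((2 : ℝ) ^ α - 1) = 1 := by
    rw [hG0]
    field_simp
    rw [div_self]
    linarith
  refine ⟨G0 * 2 ^ α, by positivity, ?_⟩
  intro n v hv
  have key : ∀ n : ℕ, ∑ j ∈ Finset.range n, (if 2 ^ j * v ≤ 1 then (2 ^ j * v) ^ α else 0) ≤
      G0 * (min (2 ^ n * v) 2) ^ α := by
    intro n
    induction n with
    | zero =>
      rw [Finset.sum_range_zero]
      positivity
    | succ n ih =>
      rw [Finset.sum_range_succ]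
      have hu : 0 < 2 ^ n * v := by positivity
      have e : (2 : ℝ) ^ (n + 1) * v = 2 * (2 ^ n * v) := by ring
      rw [e]
      set u := (2 : ℝ) ^ n * v with hu'
      split_ifs with h
      · rw [min_eq_left (by linarith)] at ih
        rw [min_eq_left (by linarith), Real.mul_rpow (by norm_num) hu.le]
        have h3 : G0 * (2 ^ α * u ^ α) = G0 * u ^ α + (G0 * ((2 : ℝ) ^ α - 1)) * u ^ α := by ring
        rw [h3, hG1, one_mul]
        linarith
      · rw [add_zero]
        refine ih.trans ?_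
        gcongr
        linarith
  refine (key n).trans ?_
  gcongr
  exact min_le_right _ _

lemma geo' (α : ℝ) (hα : 0 < α) : ∃ G : ℝ, 0 ≤ G ∧ ∀ (n : ℕ) (v : ℝ), 0 < v →
    ∑ j ∈ Finset.range n, (if 1 ≤ 2 ^ j * v then ((2 ^ j * v)⁻¹) ^ α else 0) ≤ G := by
  obtain ⟨G, hG, h⟩ := geo α hα
  refine ⟨G, hG, ?_⟩
  intro n v hv
  have h1 := h n ((2 ^ (n - 1) * v)⁻¹) (by positivity)
  rw [← Finset.sum_range_reflect] at h1
  refine le_trans (le_of_eq ?_) h1
  refine Finset.sum_congr rfl fun j hj => ?_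
  have hj' := Finset.mem_range.1 hj
  have e : (2 : ℝ) ^ (n - 1 - j) * (2 ^ (n - 1) * v)⁻¹ = (2 ^ j * v)⁻¹ := by
    have e2 : (2 : ℝ) ^ (n - 1) = 2 ^ (n - 1 - j) * 2 ^ j := by
      rw [← pow_add]
      congr 1
      omega
    rw [e2]
    have h3 : (2 : ℝ) ^ (n - 1 - j) ≠ 0 := by positivity
    have h4 : (2 : ℝ) ^ j ≠ 0 := by positivity
    field_simp
  rw [e]
  have hp : 0 < 2 ^ j * v := by positivity
  have : (1 ≤ 2 ^ j * v) ↔ ((2 ^ j * v)⁻¹ ≤ 1) := (inv_le_one₀ hp).symm
  simp only [this]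

/-- **Decoupling of dyadic heights.** -/
lemma decouple (p0 q p1 : ℝ) (h0 : 0 < p0) (h01 : p0 < q) (h1 : q < p1) :
    ∃ G : ℝ, 0 ≤ G ∧ ∀ (n : ℕ) (H : ℝ) (c : ℕ → ℝ), 0 < H → (∀ j, 0 ≤ c j) →
      (∑ j ∈ Finset.range n, (2 ^ j * H) * c j) ^ q ≤
        G * ∑ j ∈ Finset.range n, (2 ^ j * H) ^ q * ((c j) ^ p0 + (c j) ^ p1) := by
  have hq0 : 0 < q := by linarith
  have hp10 : 0 < p1 := by linarith
  have ha0 : 0 < q / p0 - 1 := by
    rw [sub_pos, lt_div_iff₀ h0]
    linarith
  have ha1 : 0 < 1 - q / p1 := by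
    rw [sub_pos, div_lt_iff₀ hp10]
    linarith
  obtain ⟨G1, hG1, hg1⟩ := geo (1 - q / p1) ha1
  obtain ⟨G0, hG0, hg0⟩ := geo' (q / p0 - 1) ha0
  refine ⟨(G1 + G0) ^ q, by positivity, ?_⟩
  intro n H c hH hc
  set B := ∑ j ∈ Finset.range n, (2 ^ j * H) ^ q * ((c j) ^ p0 + (c j) ^ p1) with hB
  have hterm : ∀ j, 0 ≤ (2 ^ j * H) ^ q * ((c j) ^ p0 + (c j) ^ p1) := fun j => by
    have := hc j
    positivity
  have hB0 : 0 ≤ B := Finset.sum_nonneg fun j _ => hterm j
  have hle : ∀ j ∈ Finset.range n, (2 ^ j * H) ^ q * ((c j) ^ p0 + (c j) ^ p1) ≤ B := fun j hj =>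
    Finset.single_le_sum (f := fun j => (2 ^ j * H) ^ q * ((c j) ^ p0 + (c j) ^ p1))
      (fun i _ => hterm i) hj
  rcases hB0.eq_or_lt with hBz | hBp
  · -- all coefficients vanish
    have hz : ∀ j ∈ Finset.range n, c j = 0 := by
      intro j hj
      have h2 := hle j hj
      rw [← hBz] at h2
      have h3 : (2 ^ j * H) ^ q * ((c j) ^ p0 + (c j) ^ p1) = 0 := le_antisymm h2 (hterm j)
      have h4 : 0 < (2 ^ j * H) ^ q := by positivity
      have h5 : (c j) ^ p0 + (c j) ^ p1 = 0 := by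
        rcases mul_eq_zero.1 h3 with h | h
        · exact absurd h h4.ne'
        · exact h
      have h6 : (c j) ^ p0 = 0 := by
        have a1 := Real.rpow_nonneg (hc j) p0
        have a2 := Real.rpow_nonneg (hc j) p1
        linarith
      rwa [Real.rpow_eq_zero (hc j) h0.ne'] at h6
    have : ∑ j ∈ Finset.range n, (2 ^ j * H) * c j = 0 :=
      Finset.sum_eq_zero fun j hj => by rw [hz j hj, mul_zero]
    rw [this, Real.zero_rpow hq0.ne', ← hBz, mul_zero]
  · set β := B ^ (1 / q) with hβ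
    have hβ0 : 0 < β := Real.rpow_pos_of_pos hBp _
    have hβq : β ^ q = B := by
      rw [hβ, ← Real.rpow_mul hB0]
      simp [hq0.ne']
    have hgen : ∀ p, 0 < p → ∀ j ∈ Finset.range n, (2 ^ j * H) ^ q * (c j) ^ p ≤ B →
        (2 ^ j * H) * c j ≤ β * (2 ^ j * (H / β)) ^ (1 - q / p) := by
      intro p hp j hj h
      have hh : 0 < 2 ^ j * H := by positivity
      have e : 2 ^ j * (H / β) = (2 ^ j * H) / β := by ring
      rw [e]
      set h' := 2 ^ j * H with hh'
      have h2 : (c j) ^ p ≤ (β / h') ^ q := by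
        rw [Real.div_rpow hβ0.le hh.le, hβq, le_div_iff₀ (by positivity)]
        linarith
      have h3 : c j ≤ (β / h') ^ (q / p) := by
        have h4 : ((c j) ^ p) ^ (1 / p) ≤ ((β / h') ^ q) ^ (1 / p) := by
          have := Real.rpow_nonneg (hc j) p
          gcongr
        rw [← Real.rpow_mul (hc j), ← Real.rpow_mul (by positivity)] at h4
        have e3 : p * (1 / p) = 1 := by field_simp
        have e4 : q * (1 / p) = q / p := by ring
        rwa [e3, e4, Real.rpow_one] at h4
      calc h' * c j ≤ h' * (β / h') ^ (q / p) := by gcongr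
        _ = β * (h' / β) ^ (1 - q / p) := by
          have e5 : β / h' = (h' / β)⁻¹ := by rw [inv_div]
          rw [e5, Real.inv_rpow (by positivity), Real.rpow_sub (by positivity), Real.rpow_one]
          field_simp
    have hbound : ∀ j ∈ Finset.range n, (2 ^ j * H) * c j ≤
        β * ((if 2 ^ j * (H / β) ≤ 1 then (2 ^ j * (H / β)) ^ (1 - q / p1) else 0) +
          (if 1 ≤ 2 ^ j * (H / β) then ((2 ^ j * (H / β))⁻¹) ^ (q / p0 - 1) else 0)) := by
      intro j hj
      have hv : 0 < 2 ^ j * (H / β) := by positivity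
      have hj2 := hle j hj
      have n0 := Real.rpow_nonneg (hc j) p0
      have n1 := Real.rpow_nonneg (hc j) p1
      have hhq : 0 ≤ (2 ^ j * H) ^ q := by positivity
      by_cases h : 2 ^ j * (H / β) ≤ 1
      · have h3 := hgen p1 hp10 j hj (by nlinarith)
        rw [if_pos h]
        refine h3.trans ?_
        apply mul_le_mul_of_nonneg_left _ hβ0.le
        have : 0 ≤ (if 1 ≤ 2 ^ j * (H / β) then ((2 ^ j * (H / β))⁻¹) ^ (q / p0 - 1) else 0) := by
          split_ifs
          · positivity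
          · exact le_rfl
        linarith
      · push Not at h
        have h3 := hgen p0 h0 j hj (by nlinarith)
        rw [if_neg (not_le.2 h), if_pos h.le, zero_add]
        refine h3.trans (le_of_eq ?_)
        rw [Real.inv_rpow hv.le, ← Real.rpow_neg hv.le]
        congr 2
        ring
    calc (∑ j ∈ Finset.range n, (2 ^ j * H) * c j) ^ q
        ≤ (∑ j ∈ Finset.range n,
          β * ((if 2 ^ j * (H / β) ≤ 1 then (2 ^ j * (H / β)) ^ (1 - q / p1) else 0) +
          (if 1 ≤ 2 ^ j * (H / β) then ((2 ^ j * (H / β))⁻¹) ^ (q / p0 - 1) else 0))) ^ q := by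
          have : 0 ≤ ∑ j ∈ Finset.range n, (2 ^ j * H) * c j :=
            Finset.sum_nonneg fun j _ => by
              have := hc j
              positivity
          exact Real.rpow_le_rpow this (Finset.sum_le_sum hbound) hq0.le
      _ ≤ (β * (G1 + G0)) ^ q := by
          rw [← Finset.mul_sum, Finset.sum_add_distrib]
          have a1 := hg1 n (H / β) (by positivity)
          have a0 := hg0 n (H / β) (by positivity)
          have b1 : 0 ≤ ∑ j ∈ Finset.range n,
              (if 2 ^ j * (H / β) ≤ 1 then (2 ^ j * (H / β)) ^ (1 - q / p1) else 0) :=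
            Finset.sum_nonneg fun j _ => by
              split_ifs
              · positivity
              · exact le_rfl
          have b0 : 0 ≤ ∑ j ∈ Finset.range n,
              (if 1 ≤ 2 ^ j * (H / β) then ((2 ^ j * (H / β))⁻¹) ^ (q / p0 - 1) else 0) :=
            Finset.sum_nonneg fun j _ => by
              split_ifs
              · positivity
              · exact le_rfl
          gcongr
      _ = (G1 + G0) ^ q * B := by
          rw [Real.mul_rpow hβ0.le (by positivity), hβq]
          ring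

end Pool.Agent.TH218.DR
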