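import Mathlib
import Pool.Agent.TH218.DR.A17
set_option autoImplicit false

/-!
# Directional regularity, part 18: from restricted bounds to strong bounds
-/

namespace Pool.Agent.TH218.DR

open MeasureTheory Set Complex
open scoped ENNReal NNReal Real FourierTransform

/-- the restricted bound in the whole range -/
theorem total_all (P : (ℝ × ℝ → ℂ) → ℝ≥0∞ → Prop)
    (hP : ∀ f m, P f m → Nice f 1 1 ∧ ∫⁻ z, ‖f z‖ₑ ^ 2 ≤ m) (a b : ℝ) (hb : 0 ≤ b) (hba : b ≤ a)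
    (hSh : ShB P b) :
    ∃ C : ℝ≥0, ∀ (f : ℝ × ℝ → ℂ) (m : ℝ≥0∞), P f m →
      ∫⁻ z : ℝ × ℝ × ℝ, ‖EQ f z‖ₑ ^ (2 + 2 * a) ≤ C * m := by
  obtain ⟨C, hC⟩ := total P hP b hb hSh
  refine ⟨4 ^ (2 * (a - b)) * C, fun f m hc => ?_⟩
  obtain ⟨hf, -⟩ := hP f m hc
  have hm := (EQ_meas hf.meas).enorm
  calc ∫⁻ z : ℝ × ℝ × ℝ, ‖EQ f z‖ₑ ^ (2 + 2 * a)
      ≤ ∫⁻ z : ℝ × ℝ × ℝ, (4 : ℝ≥0∞) ^ (2 * (a - b)) * ‖EQ f z‖ₑ ^ (2 + 2 * b) := by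
        refine lintegral_mono fun z => ?_
        show ‖EQ f z‖ₑ ^ (2 + 2 * a) ≤ (4 : ℝ≥0∞) ^ (2 * (a - b)) * ‖EQ f z‖ₑ ^ (2 + 2 * b)
        have e3 : ‖EQ f z‖ₑ ^ (2 + 2 * a) =
            ‖EQ f z‖ₑ ^ (2 * (a - b)) * ‖EQ f z‖ₑ ^ (2 + 2 * b) := by
          rw [← ENNReal.rpow_add_of_nonneg _ _ (by linarith) (by linarith)]
          congr 1
          ring
        rw [e3]
        gcongr
        exact EQ_sup hf z
    _ = (4 : ℝ≥0∞) ^ (2 * (a - b)) * ∫⁻ z : ℝ × ℝ × ℝ, ‖EQ f z‖ₑ ^ (2 + 2 * b) := by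
        rw [lintegral_const_mul _ (hm.pow_const _)]
    _ ≤ (4 : ℝ≥0∞) ^ (2 * (a - b)) * (C * m) := by
        gcongr
        exact hC f m hc
    _ = _ := by
        rw [ENNReal.coe_mul, ENNReal.coe_rpow_of_nonneg _ (by linarith)]
        push_cast
        ring

/-- **Strong bound for sums of dyadic heights.** -/
theorem strong (P : (ℝ × ℝ → ℂ) → ℝ≥0∞ → Prop)
    (hP : ∀ f m, P f m → Nice f 1 1 ∧ ∫⁻ z, ‖f z‖ₑ ^ 2 ≤ m) (a b : ℝ) (hb : 0 ≤ b) (hba : b < a)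
    (hSh : ShB P b) :
    ∃ C : ℝ≥0, ∀ (n : ℕ) (H : ℝ) (g : ℕ → ℝ × ℝ → ℂ) (m : ℕ → ℝ≥0∞), 0 < H →
      (∀ j, P (g j) (m j)) →
      ∫⁻ z : ℝ × ℝ × ℝ, ‖∑ j ∈ Finset.range n, ((2 ^ j * H : ℝ) : ℂ) * EQ (g j) z‖ₑ ^ (2 + 2 * a) ≤
        C * ∑ j ∈ Finset.range n, ENNReal.ofReal ((2 ^ j * H) ^ (2 + 2 * a)) * m j := by
  obtain ⟨C0, hC0⟩ := total_all P hP b b hb le_rfl hSh
  obtain ⟨C1, hC1⟩ := total_all P hP (a + 1) b hb (by linarith) hSh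
  obtain ⟨G, hG0, hG⟩ := decouple (2 + 2 * b) (2 + 2 * a) (2 + 2 * (a + 1)) (by linarith)
    (by linarith) (by linarith)
  refine ⟨G.toNNReal * (C0 + C1), ?_⟩
  intro n H g m hH hc
  have hgm : ∀ j, Measurable fun z => ‖EQ (g j) z‖ₑ := fun j =>
    (EQ_meas (hP _ _ (hc j)).1.meas).enorm
  have hpt : ∀ z : ℝ × ℝ × ℝ,
      ‖∑ j ∈ Finset.range n, ((2 ^ j * H : ℝ) : ℂ) * EQ (g j) z‖ₑ ^ (2 + 2 * a) ≤
      ENNReal.ofReal G * ∑ j ∈ Finset.range n, ENNReal.ofReal ((2 ^ j * H) ^ (2 + 2 * a)) *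
        (‖EQ (g j) z‖ₑ ^ (2 + 2 * b) + ‖EQ (g j) z‖ₑ ^ (2 + 2 * (a + 1))) := by
    intro z
    have h1 := hG n H (fun j => ‖EQ (g j) z‖) hH (fun j => norm_nonneg _)
    have h2 : ‖∑ j ∈ Finset.range n, ((2 ^ j * H : ℝ) : ℂ) * EQ (g j) z‖ ≤
        ∑ j ∈ Finset.range n, (2 ^ j * H) * ‖EQ (g j) z‖ := by
      refine (norm_sum_le _ _).trans (Finset.sum_le_sum fun j _ => ?_)
      rw [norm_mul, Complex.norm_real, Real.norm_eq_abs, abs_of_pos (by positivity)]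
    have h3 : ‖∑ j ∈ Finset.range n, ((2 ^ j * H : ℝ) : ℂ) * EQ (g j) z‖ ^ (2 + 2 * a) ≤
        G * ∑ j ∈ Finset.range n, (2 ^ j * H) ^ (2 + 2 * a) *
          (‖EQ (g j) z‖ ^ (2 + 2 * b) + ‖EQ (g j) z‖ ^ (2 + 2 * (a + 1))) :=
      (Real.rpow_le_rpow (norm_nonneg _) h2 (by linarith)).trans h1
    have h4 := ENNReal.ofReal_le_ofReal h3
    rw [← ENNReal.ofReal_rpow_of_nonneg (norm_nonneg _) (by linarith), ofReal_norm,
      ENNReal.ofReal_mul hG0, ENNReal.ofReal_sum_of_nonneg (fun j _ => by positivity)] at h4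
    refine h4.trans (le_of_eq ?_)
    congr 1
    refine Finset.sum_congr rfl fun j _ => ?_
    rw [ENNReal.ofReal_mul (by positivity), ENNReal.ofReal_add (by positivity) (by positivity),
      ← ENNReal.ofReal_rpow_of_nonneg (norm_nonneg _) (by linarith), ofReal_norm,
      ← ENNReal.ofReal_rpow_of_nonneg (norm_nonneg _) (by linarith), ofReal_norm]
  calc ∫⁻ z : ℝ × ℝ × ℝ, ‖∑ j ∈ Finset.range n, ((2 ^ j * H : ℝ) : ℂ) * EQ (g j) z‖ₑ ^ (2 + 2 * a)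
      ≤ ∫⁻ z : ℝ × ℝ × ℝ, ENNReal.ofReal G * ∑ j ∈ Finset.range n,
        ENNReal.ofReal ((2 ^ j * H) ^ (2 + 2 * a)) *
        (‖EQ (g j) z‖ₑ ^ (2 + 2 * b) + ‖EQ (g j) z‖ₑ ^ (2 + 2 * (a + 1))) := lintegral_mono hpt
    _ = ENNReal.ofReal G * ∑ j ∈ Finset.range n,
        ENNReal.ofReal ((2 ^ j * H) ^ (2 + 2 * a)) *
        ((∫⁻ z : ℝ × ℝ × ℝ, ‖EQ (g j) z‖ₑ ^ (2 + 2 * b)) +
          ∫⁻ z : ℝ × ℝ × ℝ, ‖EQ (g j) z‖ₑ ^ (2 + 2 * (a + 1))) := by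
        have hmj : ∀ j, Measurable fun z : ℝ × ℝ × ℝ =>
            ENNReal.ofReal ((2 ^ j * H) ^ (2 + 2 * a)) *
            (‖EQ (g j) z‖ₑ ^ (2 + 2 * b) + ‖EQ (g j) z‖ₑ ^ (2 + 2 * (a + 1))) := fun j =>
          (((hgm j).pow_const _).add ((hgm j).pow_const _)).const_mul _
        rw [lintegral_const_mul _ (Finset.measurable_sum _ fun j _ => hmj j),
          lintegral_finsetSum _ (fun j _ => hmj j)]
        congr 1
        refine Finset.sum_congr rfl fun j _ => ?_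
        have hsum : Measurable fun z : ℝ × ℝ × ℝ =>
            ‖EQ (g j) z‖ₑ ^ (2 + 2 * b) + ‖EQ (g j) z‖ₑ ^ (2 + 2 * (a + 1)) :=
          ((hgm j).pow_const _).add ((hgm j).pow_const _)
        rw [lintegral_const_mul _ hsum, lintegral_add_left ((hgm j).pow_const _)]
    _ ≤ ENNReal.ofReal G * ∑ j ∈ Finset.range n,
        ENNReal.ofReal ((2 ^ j * H) ^ (2 + 2 * a)) * (C0 * m j + C1 * m j) := by
        gcongr with j _
        · exact hC0 (g j) (m j) (hc j)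
        · exact hC1 (g j) (m j) (hc j)
    _ = _ := by
        have e : ∀ j, ENNReal.ofReal ((2 ^ j * H) ^ (2 + 2 * a)) * (C0 * m j + C1 * m j) =
            (C0 + C1) * (ENNReal.ofReal ((2 ^ j * H) ^ (2 + 2 * a)) * m j) := by
          intro j
          ring
        simp only [e]
        rw [← Finset.mul_sum, ← mul_assoc]
        push_cast
        rfl

/-- the class of the regular functions with parameters `σ, τ` -/
def PC (K : ℝ≥0) (σ τ : ℝ) (f : ℝ × ℝ → ℂ) (m : ℝ≥0∞) : Prop :=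
  (∃ w, Cl f K σ τ w m) ∧ ∫⁻ z, ‖f z‖ₑ ^ 2 ≤ m

lemma PC_nice {K : ℝ≥0} {σ τ : ℝ} (f : ℝ × ℝ → ℂ) (m : ℝ≥0∞) (h : PC K σ τ f m) :
    Nice f 1 1 ∧ ∫⁻ z, ‖f z‖ₑ ^ 2 ≤ m := by
  obtain ⟨⟨w, hw⟩, h2⟩ := h
  exact ⟨hw.nice, h2⟩

lemma PC_ShB (K : ℝ≥0) (σ τ a : ℝ) (hσ : 0 ≤ σ) (hτ : 0 ≤ τ) (ha0 : 1 / 2 < a) (ha1 : a < 1)
    (hst : 1 - a < τ + a * σ) : ShB (PC K σ τ) a := by
  obtain ⟨C, κ, hκ, -, hC⟩ := shellq σ τ a hσ hτ ha0 ha1 hst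
  refine ⟨C * (1 + K ^ a), κ, hκ, ?_⟩
  rintro f m R ⟨⟨w, hw⟩, h2⟩ hR
  refine (hC f K w m m R hw h2 hR).trans (le_of_eq ?_)
  congr 1
  push_cast
  rw [ENNReal.coe_rpow_of_nonneg _ (by linarith)]
  ring

/-- a smaller admissible exponent -/
lemma PC_low (K : ℝ≥0) (σ τ a : ℝ) (hσ : 0 ≤ σ) (hτ : 0 ≤ τ) (ha0 : 1 / 2 < a)
    (hst : 1 - a < τ + a * σ) (hpos : 0 < σ + τ) :
    ∃ b : ℝ, 0 ≤ b ∧ b < a ∧ ShB (PC K σ τ) b := by
  have hex : ∃ b : ℝ, b < a ∧ 1 / 2 < b ∧ b < 1 ∧ 1 - b < τ + b * σ := by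
    by_cases h : a ≤ 1
    · set e : ℝ := min ((a - 1 / 2) / 2) ((τ + a * σ - (1 - a)) / (2 * (1 + σ))) with he
      have h1 : e ≤ (a - 1 / 2) / 2 := min_le_left _ _
      have h2 : e ≤ (τ + a * σ - (1 - a)) / (2 * (1 + σ)) := min_le_right _ _
      have h3 : 0 < e := lt_min (by linarith) (div_pos (by linarith) (by positivity))
      refine ⟨a - e, by linarith, by linarith, by linarith, ?_⟩
      rw [le_div_iff₀ (by positivity)] at h2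
      nlinarith
    · push Not at h
      set e : ℝ := min (1 / 4) ((σ + τ) / (2 * (1 + σ))) with he
      have h1 : e ≤ 1 / 4 := min_le_left _ _
      have h2 : e ≤ (σ + τ) / (2 * (1 + σ)) := min_le_right _ _
      have h3 : 0 < e := lt_min (by norm_num) (by positivity)
      refine ⟨1 - e, by linarith, by linarith, by linarith, ?_⟩
      rw [le_div_iff₀ (by positivity)] at h2
      nlinarith
  obtain ⟨b, h1, h2, h3, h4⟩ := hex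
  exact ⟨b, by linarith, h1, PC_ShB K σ τ b hσ hτ h2 h3 h4⟩

end Pool.Agent.TH218.DR
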