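import Mathlib
import Pool.Agent.TH218.DR.A18
set_option autoImplicit false

/-!
# Directional regularity, part U1: preparations for sections of varying length
-/

namespace Pool.Agent.TH218.DR

open MeasureTheory Set Complex Filter Topology
open scoped ENNReal NNReal Real FourierTransform

/-- dyadic numbers -/
noncomputable def ek (k : ℕ) : ℝ≥0∞ := (2⁻¹ : ℝ≥0∞) ^ k

lemma ek_pos (k : ℕ) : ek k ≠ 0 := by
  unfold ek
  exact pow_ne_zero _ (by simp)

lemma ek_top (k : ℕ) : ek k ≠ ∞ := by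
  unfold ek
  exact ENNReal.pow_ne_top (by simp)

lemma ek_le (k : ℕ) : ek k ≤ 1 := by
  unfold ek
  exact pow_le_one' (by simp) k

lemma ek_succ (k : ℕ) : 2 * ek (k + 1) = ek k := by
  unfold ek
  rw [pow_succ, mul_comm, mul_assoc, ENNReal.inv_mul_cancel (by simp) (by simp), mul_one]

lemma ek_sum (γ : ℝ) (hγ : 0 < γ) : ∃ Λ : ℝ≥0, ∀ n : ℕ, ∑ k ∈ Finset.range n, (ek k) ^ γ ≤ Λ := by
  set r : ℝ≥0∞ := (2⁻¹ : ℝ≥0∞) ^ γ with hr
  have hr1 : r < 1 := ENNReal.rpow_lt_one (by simp) hγ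
  have hfin : (1 - r)⁻¹ ≠ ∞ := by
    rw [ENNReal.inv_ne_top]
    exact (tsub_pos_iff_lt.2 hr1).ne'
  refine ⟨((1 - r)⁻¹).toNNReal, fun n => ?_⟩
  rw [ENNReal.coe_toNNReal hfin, ← ENNReal.tsum_geometric]
  have e : ∀ k, (ek k) ^ γ = r ^ k := by
    intro k
    unfold ek
    rw [hr, ← ENNReal.rpow_natCast, ← ENNReal.rpow_natCast, ← ENNReal.rpow_mul,
      ← ENNReal.rpow_mul, mul_comm]
  simp only [e]
  exact ENNReal.sum_le_tsum _

/-- weighted power mean inequality -/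
lemma wq (n : ℕ) (a : ℕ → ℝ≥0∞) (q γ : ℝ) (hq : 1 < q) :
    (∑ k ∈ Finset.range n, a k) ^ q ≤ (∑ k ∈ Finset.range n, (ek k) ^ γ) ^ (q - 1) *
      ∑ k ∈ Finset.range n, (ek k) ^ (-(γ * (q - 1))) * a k ^ q := by
  have h := ENNReal.inner_le_weight_mul_Lp_of_nonneg (Finset.range n) hq.le
    (fun k => (ek k) ^ γ) (fun k => ((ek k) ^ γ)⁻¹ * a k)
  have hne : ∀ k, (ek k) ^ γ ≠ 0 := fun k => by
    simp [ENNReal.rpow_eq_zero_iff, ek_pos, ek_top]
  have hnt : ∀ k, (ek k) ^ γ ≠ ∞ := fun k => by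
    simp [ENNReal.rpow_eq_top_iff, ek_pos, ek_top]
  have e1 : ∀ k, (ek k) ^ γ * (((ek k) ^ γ)⁻¹ * a k) = a k := by
    intro k
    rw [← mul_assoc, ENNReal.mul_inv_cancel (hne k) (hnt k), one_mul]
  have e2 : ∀ k, (ek k) ^ γ * (((ek k) ^ γ)⁻¹ * a k) ^ q =
      (ek k) ^ (-(γ * (q - 1))) * a k ^ q := by
    intro k
    rw [ENNReal.mul_rpow_of_nonneg _ _ (by linarith), ← mul_assoc, ← ENNReal.rpow_neg,
      ← ENNReal.rpow_mul, ← ENNReal.rpow_add _ _ (ek_pos k) (ek_top k)]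
    congr 2
    ring
  simp only [e1, e2] at h
  have hq0 : 0 < q := by linarith
  calc (∑ k ∈ Finset.range n, a k) ^ q
      ≤ ((∑ k ∈ Finset.range n, (ek k) ^ γ) ^ (1 - q⁻¹) *
        (∑ k ∈ Finset.range n, (ek k) ^ (-(γ * (q - 1))) * a k ^ q) ^ q⁻¹) ^ q := by
        gcongr
    _ = _ := by
        rw [ENNReal.mul_rpow_of_nonneg _ _ hq0.le, ← ENNReal.rpow_mul, ← ENNReal.rpow_mul,
          inv_mul_cancel₀ hq0.ne', ENNReal.rpow_one]
        congr 2
        field_simp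

lemma geo_mean {X Y Z : ℝ≥0∞} (ϑ : ℝ) (h0 : 0 ≤ ϑ) (h1 : ϑ ≤ 1) (hX : Z ≤ X) (hY : Z ≤ Y) :
    Z ≤ X ^ (1 - ϑ) * Y ^ ϑ := by
  calc Z = Z ^ (1 - ϑ) * Z ^ ϑ := by
        rw [← ENNReal.rpow_add_of_nonneg _ _ (by linarith) h0, sub_add_cancel, ENNReal.rpow_one]
    _ ≤ X ^ (1 - ϑ) * Y ^ ϑ := by
        gcongr

/-- counting the dyadic length of a section -/
lemma cntE (v : ℝ≥0∞) (n : ℕ) :
    ∑ k ∈ Finset.range n, (if ek k < v ∧ v ≤ 2 * ek k then (1 : ℂ) else 0) =
      if 2 * ek n < v ∧ v ≤ 2 then 1 else 0 := by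
  induction n with
  | zero =>
    rw [Finset.sum_range_zero, if_neg]
    rintro ⟨h1, h2⟩
    unfold ek at h1
    rw [pow_zero, mul_one] at h1
    exact absurd h1 (not_lt.2 h2)
  | succ n ih =>
    rw [Finset.sum_range_succ, ih, ek_succ]
    have hle : 2 * ek n ≤ 2 := by
      calc 2 * ek n ≤ 2 * 1 := by
            gcongr
            exact ek_le n
        _ = 2 := mul_one 2
    have hee : ek n ≤ 2 * ek n := by
      calc ek n = 1 * ek n := (one_mul _).symm
        _ ≤ 2 * ek n := by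
          gcongr
          norm_num
    by_cases h1 : 2 * ek n < v
    · rw [if_neg (show ¬ (ek n < v ∧ v ≤ 2 * ek n) from fun h => absurd h.2 (not_le.2 h1)), add_zero]
      by_cases h2 : v ≤ 2
      · rw [if_pos ⟨h1, h2⟩, if_pos ⟨hee.trans_lt h1, h2⟩]
      · rw [if_neg (fun h => h2 h.2), if_neg (fun h => h2 h.2)]
    · rw [if_neg (show ¬ (2 * ek n < v ∧ v ≤ 2) from fun h => h1 h.1), zero_add]
      push Not at h1
      by_cases h2 : ek n < v
      · rw [if_pos ⟨h2, h1⟩, if_pos ⟨h2, h1.trans hle⟩]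
      · rw [if_neg (fun h => h2 h.1), if_neg (fun h => h2 h.1)]

/-- lowering the regularity exponent relative to the length of the section -/
lemma relax {s s' : ℝ} (hs' : 0 ≤ s') (hss : s' ≤ s) (K v Z : ℝ≥0∞) (hv : v ≠ ∞)
    {h : ℝ} (hh : 0 < h) (h1 : Z ≤ K * v ^ (1 - 2 * s) * ENNReal.ofReal (h ^ (2 * s)))
    (h2 : Z ≤ 4 * v) : Z ≤ (K + 4) * v ^ (1 - 2 * s') * ENNReal.ofReal (h ^ (2 * s')) := by
  by_cases hv0 : v = 0
  · rw [hv0, mul_zero] at h2
    exact h2.trans zero_le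
  have hv' : v = ENNReal.ofReal v.toReal := (ENNReal.ofReal_toReal hv).symm
  set L := v.toReal with hL
  have hLp : 0 < L := ENNReal.toReal_pos hv0 hv
  rw [hv'] at h1 h2 ⊢
  rw [ENNReal.ofReal_rpow_of_pos hLp] at h1 ⊢
  rcases le_total h L with h3 | h3
  · calc Z ≤ K * ENNReal.ofReal (L ^ (1 - 2 * s)) * ENNReal.ofReal (h ^ (2 * s)) := h1
      _ = K * ENNReal.ofReal (L ^ (1 - 2 * s) * h ^ (2 * s)) := by
          rw [mul_assoc, ENNReal.ofReal_mul (by positivity)]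
      _ ≤ K * ENNReal.ofReal (L ^ (1 - 2 * s') * h ^ (2 * s')) := by
          refine mul_le_mul_right (ENNReal.ofReal_le_ofReal ?_) K
          have e1 : L ^ (1 - 2 * s) * h ^ (2 * s) =
              L ^ (1 - 2 * s') * h ^ (2 * s') * (h / L) ^ (2 * (s - s')) := by
            rw [Real.div_rpow hh.le hLp.le]
            have a1 : L ^ (1 - 2 * s') = L ^ (1 - 2 * s) * L ^ (2 * (s - s')) := by
              rw [← Real.rpow_add hLp]
              congr 1
              ring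
            have a2 : h ^ (2 * s) = h ^ (2 * s') * h ^ (2 * (s - s')) := by
              rw [← Real.rpow_add hh]
              congr 1
              ring
            rw [a1, a2]
            have a3 : L ^ (2 * (s - s')) ≠ 0 := (Real.rpow_pos_of_pos hLp _).ne'
            field_simp
          rw [e1]
          have e2 : (h / L) ^ (2 * (s - s')) ≤ 1 :=
            Real.rpow_le_one (by positivity) ((div_le_one hLp).2 h3) (by linarith)
          have e3 : 0 ≤ L ^ (1 - 2 * s') * h ^ (2 * s') := by positivity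
          nlinarith
      _ = K * ENNReal.ofReal (L ^ (1 - 2 * s')) * ENNReal.ofReal (h ^ (2 * s')) := by
          rw [mul_assoc, ENNReal.ofReal_mul (by positivity)]
      _ ≤ _ := by
          gcongr
          exact le_self_add
  · calc Z ≤ 4 * ENNReal.ofReal L := h2
      _ = 4 * ENNReal.ofReal (L ^ (1 - 2 * s') * L ^ (2 * s')) := by
          rw [← Real.rpow_add hLp]
          congr 2
          rw [sub_add_cancel, Real.rpow_one]
      _ ≤ 4 * ENNReal.ofReal (L ^ (1 - 2 * s') * h ^ (2 * s')) := by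
          gcongr
      _ = 4 * ENNReal.ofReal (L ^ (1 - 2 * s')) * ENNReal.ofReal (h ^ (2 * s')) := by
          rw [mul_assoc, ENNReal.ofReal_mul (by positivity)]
      _ ≤ _ := by
          gcongr
          exact le_add_self

end Pool.Agent.TH218.DR
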