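import Mathlib
import Pool.Agent.TH218.DR.U1
set_option autoImplicit false

/-!
# Directional regularity, part U2: functions regular relative to the length of their sections
-/

namespace Pool.Agent.TH218.DR

open MeasureTheory Set Complex Filter Topology
open scoped ENNReal NNReal Real FourierTransform

/-- length of the section -/
noncomputable def len (A : Set (ℝ × ℝ)) (x : ℝ) : ℝ≥0∞ := volume (Prod.mk x ⁻¹' A)

lemma len_meas {A : Set (ℝ × ℝ)} (hA : MeasurableSet A) : Measurable (len A) :=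
  measurable_measure_prodMk_left hA

lemma len_int {A : Set (ℝ × ℝ)} (hA : MeasurableSet A) : ∫⁻ x, len A x = volume A := by
  unfold len
  rw [Measure.volume_eq_prod, Measure.prod_apply hA]

/-- the class -/
structure Pu (K : ℝ≥0) (s : ℝ) (f : ℝ × ℝ → ℂ) (A : Set (ℝ × ℝ)) (n : ℕ) : Prop where
  nice : Nice f 1 1
  am : MeasurableSet A
  off : ∀ z, z ∉ A → f z = 0
  box : ∀ z ∈ A, |z.1| ≤ 1 ∧ |z.2| ≤ 1
  big : ∀ x, len A x ≤ 2 * ek n → ∀ y, f (x, y) = 0
  reg : ∀ x, Rs f x (K * len A x ^ (1 - 2 * s)) (2 * s)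

lemma Pu.len_le {K : ℝ≥0} {s : ℝ} {f : ℝ × ℝ → ℂ} {A : Set (ℝ × ℝ)} {n : ℕ} (h : Pu K s f A n)
    (x : ℝ) : len A x ≤ 2 := by
  unfold len
  calc volume (Prod.mk x ⁻¹' A) ≤ volume (Icc (-1 : ℝ) 1) := by
        apply measure_mono
        intro y hy
        exact abs_le.1 (h.box _ hy).2
    _ = 2 := by
        rw [Real.volume_Icc]
        norm_num

lemma Pu.slice {K : ℝ≥0} {s : ℝ} {f : ℝ × ℝ → ℂ} {A : Set (ℝ × ℝ)} {n : ℕ} (h : Pu K s f A n)
    (x : ℝ) : ∫⁻ y, ‖f (x, y)‖ₑ ^ 2 ≤ len A x := by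
  have hS : MeasurableSet (Prod.mk x ⁻¹' A) := measurable_prodMk_left h.am
  unfold len
  rw [← lintegral_indicator_one hS]
  refine lintegral_mono fun y => ?_
  by_cases hy : (x, y) ∈ A
  · rw [indicator_of_mem (show y ∈ Prod.mk x ⁻¹' A from hy)]
    have : ‖f (x, y)‖ₑ ≤ 1 := by
      rw [← ofReal_norm, ← ENNReal.ofReal_one]
      exact ENNReal.ofReal_le_ofReal (h.nice.bd _)
    calc ‖f (x, y)‖ₑ ^ 2 ≤ 1 ^ 2 := by gcongr
      _ = 1 := one_pow 2
  · rw [h.off _ hy]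
    simp

lemma shift4 {f : ℝ × ℝ → ℂ} (hf : Measurable f) (x h : ℝ) :
    ∫⁻ y, ‖f (x, y + h) - f (x, y)‖ₑ ^ 2 ≤ 4 * ∫⁻ y, ‖f (x, y)‖ₑ ^ 2 := by
  calc ∫⁻ y, ‖f (x, y + h) - f (x, y)‖ₑ ^ 2
      ≤ 2 * ((∫⁻ y, ‖f (x, y + h)‖ₑ ^ 2) + ∫⁻ y, ‖f (x, y)‖ₑ ^ 2) := sub_slice (by fun_prop)
    _ = 2 * ((∫⁻ y, ‖f (x, y)‖ₑ ^ 2) + ∫⁻ y, ‖f (x, y)‖ₑ ^ 2) := by
        rw [lintegral_add_right_eq_self (fun y => ‖f (x, y)‖ₑ ^ 2) h]
    _ = _ := by ring

/-- the lines with section of dyadic length -/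
def Xk (A : Set (ℝ × ℝ)) (k : ℕ) : Set ℝ := {x | ek k < len A x ∧ len A x ≤ 2 * ek k}

lemma Xk_meas {A : Set (ℝ × ℝ)} (hA : MeasurableSet A) (k : ℕ) : MeasurableSet (Xk A k) :=
  (measurableSet_lt measurable_const (len_meas hA)).inter
    (measurableSet_le (len_meas hA) measurable_const)

/-- the part of `f` over `X_k` -/
noncomputable def fk (f : ℝ × ℝ → ℂ) (A : Set (ℝ × ℝ)) (k : ℕ) (z : ℝ × ℝ) : ℂ :=
  (if ek k < len A z.1 ∧ len A z.1 ≤ 2 * ek k then (1 : ℂ) else 0) * f z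

lemma fk_in {f : ℝ × ℝ → ℂ} {A : Set (ℝ × ℝ)} {k : ℕ} {x : ℝ} (hx : x ∈ Xk A k) (y : ℝ) :
    fk f A k (x, y) = f (x, y) := by
  unfold fk
  have hx' : ek k < len A x ∧ len A x ≤ 2 * ek k := hx
  rw [if_pos hx', one_mul]

lemma fk_out {f : ℝ × ℝ → ℂ} {A : Set (ℝ × ℝ)} {k : ℕ} {x : ℝ} (hx : x ∉ Xk A k) (y : ℝ) :
    fk f A k (x, y) = 0 := by
  unfold fk
  have hx' : ¬ (ek k < len A x ∧ len A x ≤ 2 * ek k) := hx
  rw [if_neg hx', zero_mul]

lemma fk_nice {K : ℝ≥0} {s : ℝ} {f : ℝ × ℝ → ℂ} {A : Set (ℝ × ℝ)} {n : ℕ} (h : Pu K s f A n)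
    (k : ℕ) : Nice (fk f A k) 1 1 := by
  have hm := h.nice.meas
  have hl := len_meas h.am
  refine ⟨?_, ?_, ?_⟩
  · unfold fk
    apply Measurable.mul _ hm
    apply Measurable.ite _ measurable_const measurable_const
    exact measurable_fst (Xk_meas h.am k)
  · rintro ⟨x, y⟩
    by_cases hx : x ∈ Xk A k
    · rw [fk_in hx y]
      exact h.nice.bd _
    · rw [fk_out hx y, norm_zero]
      exact zero_le_one
  · rintro ⟨x, y⟩ hz
    apply h.nice.supp
    intro h0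
    apply hz
    unfold fk
    rw [h0, mul_zero]

lemma fk_sum {K : ℝ≥0} {s : ℝ} {f : ℝ × ℝ → ℂ} {A : Set (ℝ × ℝ)} {n : ℕ} (h : Pu K s f A n)
    (z : ℝ × ℝ) : ∑ k ∈ Finset.range n, fk f A k z = f z := by
  unfold fk
  rw [← Finset.sum_mul, cntE]
  by_cases h1 : 2 * ek n < len A z.1
  · rw [if_pos ⟨h1, h.len_le _⟩, one_mul]
  · push Not at h1
    have := h.big z.1 h1 z.2
    rw [show f z = 0 from this, mul_zero]

/-- mass of the `k`-th part -/
noncomputable def mk (A : Set (ℝ × ℝ)) (k : ℕ) : ℝ≥0∞ := ∫⁻ x in Xk A k, len A x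

lemma mk_sum {A : Set (ℝ × ℝ)} (hA : MeasurableSet A) (n : ℕ) :
    ∑ k ∈ Finset.range n, mk A k ≤ volume A := by
  unfold mk
  have hX := fun k => Xk_meas hA k
  have hl := len_meas hA
  have e : ∀ k, ∫⁻ x in Xk A k, len A x = ∫⁻ x, (Xk A k).indicator (len A) x := fun k =>
    (lintegral_indicator (hX k) _).symm
  simp only [e]
  rw [← lintegral_finsetSum _ (fun k _ => hl.indicator (hX k)), ← len_int hA]
  refine lintegral_mono fun x => ?_
  -- at most one term is non zero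
  have key : ∀ n : ℕ, ∑ k ∈ Finset.range n, (Xk A k).indicator (len A) x ≤
      (if 2 * ek n < len A x ∧ len A x ≤ 2 then len A x else 0) := by
    intro n
    have h1 := cntE (len A x) n
    have h2 : ∑ k ∈ Finset.range n, (Xk A k).indicator (len A) x =
        ∑ k ∈ Finset.range n, (if ek k < len A x ∧ len A x ≤ 2 * ek k then (1 : ℝ≥0∞) else 0) *
          len A x := by
      refine Finset.sum_congr rfl fun k _ => ?_
      by_cases hx : x ∈ Xk A k
      · have hx' : ek k < len A x ∧ len A x ≤ 2 * ek k := hx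
        rw [indicator_of_mem hx, if_pos hx', one_mul]
      · have hx' : ¬ (ek k < len A x ∧ len A x ≤ 2 * ek k) := hx
        rw [indicator_of_notMem hx, if_neg hx', zero_mul]
    rw [h2, ← Finset.sum_mul]
    have h3 : (∑ k ∈ Finset.range n,
        (if ek k < len A x ∧ len A x ≤ 2 * ek k then (1 : ℝ≥0∞) else 0)) =
        if 2 * ek n < len A x ∧ len A x ≤ 2 then 1 else 0 := by
      have hc : ∀ k, (if ek k < len A x ∧ len A x ≤ 2 * ek k then (1 : ℝ≥0∞) else 0) =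
          (((if ek k < len A x ∧ len A x ≤ 2 * ek k then (1 : ℕ) else 0) : ℕ) : ℝ≥0∞) := by
        intro k
        split_ifs <;> simp
      have hc' : ∀ k, (if ek k < len A x ∧ len A x ≤ 2 * ek k then (1 : ℂ) else 0) =
          (((if ek k < len A x ∧ len A x ≤ 2 * ek k then (1 : ℕ) else 0) : ℕ) : ℂ) := by
        intro k
        split_ifs <;> simp
      simp only [hc'] at h1
      rw [← Nat.cast_sum] at h1
      simp only [hc]
      rw [← Nat.cast_sum]
      by_cases hcc : 2 * ek n < len A x ∧ len A x ≤ 2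
      · rw [if_pos hcc] at h1 ⊢
        have : (∑ k ∈ Finset.range n,
          (if ek k < len A x ∧ len A x ≤ 2 * ek k then (1 : ℕ) else 0)) = 1 := by exact_mod_cast h1
        rw [this]
        simp
      · rw [if_neg hcc] at h1 ⊢
        have : (∑ k ∈ Finset.range n,
          (if ek k < len A x ∧ len A x ≤ 2 * ek k then (1 : ℕ) else 0)) = 0 := by exact_mod_cast h1
        rw [this]
        simp
    rw [h3]
    split_ifs <;> simp
  refine (key n).trans ?_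
  split_ifs
  · exact le_rfl
  · exact zero_le

end Pool.Agent.TH218.DR
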