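import Mathlib
import Pool.Agent.TH218.DR.U2
set_option autoImplicit false

/-!
# Directional regularity, part U3: the bound on shells for functions with sections of varying length
-/

namespace Pool.Agent.TH218.DR

open MeasureTheory Set Complex Filter Topology
open scoped ENNReal NNReal Real FourierTransform

lemma fk_reg {K : ℝ≥0} {s s' : ℝ} (hs' : 0 < s') (hss : s' ≤ s)
    {f : ℝ × ℝ → ℂ} {A : Set (ℝ × ℝ)} {n : ℕ} (h : Pu K s f A n) (k : ℕ) {x : ℝ}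
    (hx : x ∈ Xk A k) : Rs (fk f A k) x ((K + 4) * len A x ^ (1 - 2 * s')) (2 * s') := by
  intro t ht
  simp only [fk_in hx]
  have hv : len A x ≠ ∞ := ((h.len_le x).trans_lt (by norm_num)).ne
  exact relax hs'.le hss K (len A x) _ hv ht (h.reg x t ht)
    ((shift4 h.nice.meas x t).trans (by gcongr; exact h.slice x))

lemma fk_cl {K : ℝ≥0} {s s' : ℝ} (hs' : 0 < s') (hss : s' ≤ s) (hs2 : s' ≤ 1 / 2)
    {f : ℝ × ℝ → ℂ} {A : Set (ℝ × ℝ)} {n : ℕ} (h : Pu K s f A n) (k : ℕ) :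
    Cl (fk f A k) ((K + 4) * (2 * ek k) ^ (1 - 2 * s')) (2 * s') (2 * s')
      ((Xk A k).indicator fun x => (K + 4) * len A x ^ (1 - 2 * s'))
      ((K + 4) * (ek k) ^ (-(2 * s')) * mk A k) := by
  have hX := Xk_meas h.am k
  have hl := len_meas h.am
  have hwm : Measurable fun x => ((K : ℝ≥0∞) + 4) * len A x ^ (1 - 2 * s') := by fun_prop
  refine ⟨fk_nice h k, ?_, ?_, hwm.indicator hX, ?_⟩
  · intro x
    by_cases hx : x ∈ Xk A k
    · intro t ht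
      refine (fk_reg hs' hss h k hx t ht).trans ?_
      have hx2 : len A x ≤ 2 * ek k := hx.2
      have : len A x ^ (1 - 2 * s') ≤ (2 * ek k) ^ (1 - 2 * s') :=
        ENNReal.rpow_le_rpow hx2 (by linarith)
      gcongr
    · intro t ht
      simp [fk_out hx]
  · intro x
    by_cases hx : x ∈ Xk A k
    · rw [indicator_of_mem hx]
      exact fk_reg hs' hss h k hx
    · intro t ht
      simp [fk_out hx]
  · rw [lintegral_indicator hX]
    unfold mk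
    rw [← lintegral_const_mul _ hl]
    refine setLIntegral_mono' hX fun x hx => ?_
    have h0 : len A x ≠ 0 := ((zero_le).trans_lt hx.1).ne'
    have ht : len A x ≠ ∞ := ((h.len_le x).trans_lt (by norm_num)).ne
    have e1 : len A x ^ (1 - 2 * s') = len A x * len A x ^ (-(2 * s')) := by
      rw [sub_eq_add_neg, ENNReal.rpow_add _ _ h0 ht, ENNReal.rpow_one]
    have e2 : len A x ^ (-(2 * s')) ≤ (ek k) ^ (-(2 * s')) := by
      rw [ENNReal.rpow_neg, ENNReal.rpow_neg]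
      apply ENNReal.inv_le_inv.2
      exact ENNReal.rpow_le_rpow hx.1.le (by linarith)
    rw [e1]
    calc ((K : ℝ≥0∞) + 4) * (len A x * len A x ^ (-(2 * s')))
        ≤ (K + 4) * (len A x * (ek k) ^ (-(2 * s'))) := by gcongr
      _ = _ := by ring

lemma fk_mass {K : ℝ≥0} {s : ℝ} {f : ℝ × ℝ → ℂ} {A : Set (ℝ × ℝ)} {n : ℕ} (h : Pu K s f A n)
    (k : ℕ) : ∫⁻ z, ‖fk f A k z‖ₑ ^ 2 ≤ mk A k := by
  have hX := Xk_meas h.am k
  have hm := (fk_nice h k).meas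
  unfold mk
  rw [Measure.volume_eq_prod, lintegral_prod _ (by fun_prop), ← lintegral_indicator hX]
  refine lintegral_mono fun x => ?_
  by_cases hx : x ∈ Xk A k
  · rw [indicator_of_mem hx]
    simp only [fk_in hx]
    exact h.slice x
  · rw [indicator_of_notMem hx]
    simp [fk_out hx]

lemma fk_slice {K : ℝ≥0} {s : ℝ} {f : ℝ × ℝ → ℂ} {A : Set (ℝ × ℝ)} {n : ℕ} (h : Pu K s f A n)
    (k : ℕ) (x : ℝ) : ∫⁻ y, ‖fk f A k (x, y)‖ₑ ^ 2 ≤ 2 * ek k := by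
  by_cases hx : x ∈ Xk A k
  · simp only [fk_in hx]
    exact (h.slice x).trans hx.2
  · simp [fk_out hx]

/-- bound for one dyadic length -/
lemma fk_bound (K : ℝ≥0) (s a : ℝ) (hs : 0 < s) (ha0 : 1 / 2 < a) (ha1 : a < 1)
    (hst : 1 - a < 2 * s * (1 + a)) :
    ∃ (C : ℝ≥0) (κ : ℝ), 0 < κ ∧ κ ≤ 1 ∧ ∀ (f : ℝ × ℝ → ℂ) (A : Set (ℝ × ℝ)) (n k : ℕ) (R : ℝ),
      Pu K s f A n → 1 ≤ R →
      ∫⁻ z, ‖EQ (fk f A k) z‖ₑ ^ (2 + 2 * a) ∂(mu (Sh R)) ≤
        (C * mk A k) * ((2 * ek k) ^ (a * (κ / 4)) * rp R (-(κ / 2))) := by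
  set s' : ℝ := min s (a / (2 * (1 + a))) with hs'
  have h1 : s' ≤ s := min_le_left _ _
  have h2 : s' ≤ a / (2 * (1 + a)) := min_le_right _ _
  have h3 : 0 < s' := lt_min hs (by positivity)
  have h4 : 2 * s' * (1 + a) ≤ a := by
    rw [le_div_iff₀ (by positivity)] at h2
    linarith
  have h5 : s' ≤ 1 / 2 := by nlinarith
  have h6 : 1 - a < 2 * s' * (1 + a) := by
    rcases min_choice s (a / (2 * (1 + a))) with h | h
    · rw [hs', h]
      exact hst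
    · rw [hs', h]
      have : 2 * (a / (2 * (1 + a))) * (1 + a) = a := by
        field_simp
      rw [this]
      linarith
  obtain ⟨C1, κ, hκ, hκ1, hC1⟩ := shellq (2 * s') (2 * s') a (by linarith) (by linarith) ha0 ha1
    (by linarith)
  obtain ⟨C2, hC2⟩ := tiny_piece 1 zero_lt_one le_rfl
  set D : ℝ≥0 := max (C1 * (1 + 2 * (K + 4) ^ (1 + a))) C2 with hD
  refine ⟨D, κ, hκ, hκ1, ?_⟩
  intro f A n k R h hR
  have hR0 : 0 < R := by linarith
  have hn := fk_nice h k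
  have hm := (EQ_meas hn.meas).enorm
  set m := mk A k with hmdef
  -- first bound
  have b1 : ∫⁻ z, ‖EQ (fk f A k) z‖ₑ ^ (2 + 2 * a) ∂(mu (Sh R)) ≤ (D * m) * rp R (-κ) := by
    refine (hC1 _ _ _ _ m R (fk_cl h3 h1 h5 h k) (fk_mass h k) hR).trans
      (mul_le_mul_left ?_ _)
    have e1 : ((K : ℝ≥0∞) + 4) * (ek k) ^ (-(2 * s')) * m *
        (((K : ℝ≥0∞) + 4) * (2 * ek k) ^ (1 - 2 * s')) ^ a ≤ 2 * ((K : ℝ≥0∞) + 4) ^ (1 + a) * m := by
      have hK0 : ((K : ℝ≥0∞) + 4) ≠ 0 := by simp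
      have hKt : ((K : ℝ≥0∞) + 4) ≠ ∞ := by simp
      have x1 : (((K : ℝ≥0∞) + 4) * (2 * ek k) ^ (1 - 2 * s')) ^ a =
          ((K : ℝ≥0∞) + 4) ^ a * (2 ^ ((1 - 2 * s') * a) * (ek k) ^ ((1 - 2 * s') * a)) := by
        rw [ENNReal.mul_rpow_of_nonneg _ _ (by linarith), ← ENNReal.rpow_mul,
          ENNReal.mul_rpow_of_nonneg _ _ (mul_nonneg (by linarith) (by linarith))]
      have x2 : (ek k) ^ (-(2 * s')) * (ek k) ^ ((1 - 2 * s') * a) ≤ 1 := by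
        rw [← ENNReal.rpow_add _ _ (ek_pos k) (ek_top k)]
        have e : -(2 * s') + (1 - 2 * s') * a = a - 2 * s' * (1 + a) := by ring
        rw [e]
        exact ENNReal.rpow_le_one (ek_le k) (by linarith)
      have x3 : (2 : ℝ≥0∞) ^ ((1 - 2 * s') * a) ≤ 2 := by
        calc (2 : ℝ≥0∞) ^ ((1 - 2 * s') * a) ≤ 2 ^ (1 : ℝ) :=
              ENNReal.rpow_le_rpow_of_exponent_le (by norm_num) (by nlinarith)
          _ = 2 := ENNReal.rpow_one 2
      have x4 : ((K : ℝ≥0∞) + 4) ^ (1 + a) = ((K : ℝ≥0∞) + 4) * ((K : ℝ≥0∞) + 4) ^ a := by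
        rw [ENNReal.rpow_add _ _ hK0 hKt, ENNReal.rpow_one]
      rw [x1, x4]
      calc ((K : ℝ≥0∞) + 4) * (ek k) ^ (-(2 * s')) * m * (((K : ℝ≥0∞) + 4) ^ a *
            (2 ^ ((1 - 2 * s') * a) * (ek k) ^ ((1 - 2 * s') * a)))
          = (2 ^ ((1 - 2 * s') * a)) * (((K : ℝ≥0∞) + 4) * ((K : ℝ≥0∞) + 4) ^ a) * m *
            ((ek k) ^ (-(2 * s')) * (ek k) ^ ((1 - 2 * s') * a)) := by ring
        _ ≤ 2 * (((K : ℝ≥0∞) + 4) * ((K : ℝ≥0∞) + 4) ^ a) * m * 1 := by gcongr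
        _ = _ := by ring
    calc (C1 : ℝ≥0∞) * (m + ((K : ℝ≥0∞) + 4) * (ek k) ^ (-(2 * s')) * m *
        (((K : ℝ≥0∞) + 4) * (2 * ek k) ^ (1 - 2 * s')) ^ a)
        ≤ C1 * (m + 2 * ((K : ℝ≥0∞) + 4) ^ (1 + a) * m) := by gcongr
      _ = ((C1 * (1 + 2 * (K + 4) ^ (1 + a)) : ℝ≥0) : ℝ≥0∞) * m := by
          push_cast
          rw [ENNReal.coe_rpow_of_nonneg _ (by linarith)]
          push_cast
          ring
      _ ≤ D * m := by
          gcongr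
          exact le_max_left _ _
  -- second bound
  have b2 : ∫⁻ z, ‖EQ (fk f A k) z‖ₑ ^ (2 + 2 * a) ∂(mu (Sh R)) ≤
      (D * m) * (2 * ek k) ^ a * rp R 1 := by
    obtain ⟨p2, p4⟩ := hC2 _ (2 * ek k) m R hn (fk_slice h k) (fk_mass h k) hR
    have := interp_pow (mu (Sh R)) _ hm a _ R 1 1 (-1) (by linarith) ha1.le rfl hR _ _ (by linarith)
      p2 p4
    rw [neg_neg] at this
    refine this.trans ?_
    unfold rp
    gcongr
    exact le_max_right _ _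
  refine (geo_mean (κ / 4) (by linarith) (by linarith) b1 b2).trans ?_
  have hϑ : 0 ≤ κ / 4 := by linarith
  have hϑ1 : 0 ≤ 1 - κ / 4 := by linarith
  rw [ENNReal.mul_rpow_of_nonneg _ _ hϑ1, ENNReal.mul_rpow_of_nonneg _ _ hϑ,
    ENNReal.mul_rpow_of_nonneg _ _ hϑ, ← ENNReal.rpow_mul]
  have r1 : rp R (-κ) ^ (1 - κ / 4) * rp R 1 ^ (κ / 4) ≤ rp R (-(κ / 2)) := by
    unfold rp
    rw [ENNReal.ofReal_rpow_of_nonneg (by positivity) hϑ1,
      ENNReal.ofReal_rpow_of_nonneg (by positivity) hϑ, ← ENNReal.ofReal_mul (by positivity),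
      ← Real.rpow_mul hR0.le, ← Real.rpow_mul hR0.le, ← Real.rpow_add hR0, one_mul]
    apply ENNReal.ofReal_le_ofReal
    apply Real.rpow_le_rpow_of_exponent_le hR
    nlinarith
  have r2 : ((D : ℝ≥0∞) * m) ^ (1 - κ / 4) * ((D : ℝ≥0∞) * m) ^ (κ / 4) = D * m := by
    rw [← ENNReal.rpow_add_of_nonneg _ _ hϑ1 hϑ, sub_add_cancel, ENNReal.rpow_one]
  calc ((D : ℝ≥0∞) * m) ^ (1 - κ / 4) * rp R (-κ) ^ (1 - κ / 4) *
        (((D : ℝ≥0∞) * m) ^ (κ / 4) * (2 * ek k) ^ (a * (κ / 4)) * rp R 1 ^ (κ / 4))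
      = (((D : ℝ≥0∞) * m) ^ (1 - κ / 4) * ((D : ℝ≥0∞) * m) ^ (κ / 4)) *
        ((2 * ek k) ^ (a * (κ / 4)) * (rp R (-κ) ^ (1 - κ / 4) * rp R 1 ^ (κ / 4))) := by ring
    _ ≤ (D * m) * ((2 * ek k) ^ (a * (κ / 4)) * rp R (-(κ / 2))) := by
        rw [r2]
        gcongr

/-- the class as a predicate -/
def PU (K : ℝ≥0) (s : ℝ) (f : ℝ × ℝ → ℂ) (m : ℝ≥0∞) : Prop :=
  ∃ (A : Set (ℝ × ℝ)) (n : ℕ), Pu K s f A n ∧ volume A ≤ m

lemma PU_nice {K : ℝ≥0} {s : ℝ} (f : ℝ × ℝ → ℂ) (m : ℝ≥0∞) (h : PU K s f m) :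
    Nice f 1 1 ∧ ∫⁻ z, ‖f z‖ₑ ^ 2 ≤ m := by
  obtain ⟨A, n, h, hA⟩ := h
  refine ⟨h.nice, ?_⟩
  have hm := h.nice.meas
  rw [Measure.volume_eq_prod, lintegral_prod _ (by fun_prop)]
  refine le_trans ?_ hA
  rw [← len_int h.am]
  exact lintegral_mono h.slice

/-- **The bound on shells for the class.** -/
theorem PU_ShB (K : ℝ≥0) (s a : ℝ) (hs : 0 < s) (ha0 : 1 / 2 < a) (ha1 : a < 1)
    (hst : 1 - a < 2 * s * (1 + a)) : ShB (PU K s) a := by
  obtain ⟨C, κ, hκ, hκ1, hC⟩ := fk_bound K s a hs ha0 ha1 hst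
  set γ : ℝ := a * (κ / 4) / (1 + 2 * a) with hγ
  have hγ0 : 0 < γ := by positivity
  have hγq : γ * ((2 + 2 * a) - 1) = a * (κ / 4) := by
    rw [hγ]
    field_simp
    ring
  obtain ⟨Λ, hΛ⟩ := ek_sum γ hγ0
  refine ⟨Λ ^ (1 + 2 * a) * (C * 2 ^ (a * (κ / 4))), κ / 2, by linarith, ?_⟩
  rintro f m R ⟨A, n, h, hA⟩ hR
  have hn := fun k => fk_nice h k
  have e : f = fun z => ∑ k ∈ Finset.range n, fk f A k z := by
    ext z
    rw [fk_sum h]
  have hsum : ∀ z, EQ f z = ∑ k ∈ Finset.range n, EQ (fk f A k) z := by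
    intro z
    rw [← EQ_sum n (fk f A) hn z, ← e]
  have hmk : ∀ k, Measurable fun z : ℝ × ℝ × ℝ =>
      (ek k) ^ (-(a * (κ / 4))) * ‖EQ (fk f A k) z‖ₑ ^ (2 + 2 * a) := fun k =>
    ((EQ_meas (hn k).meas).enorm.pow_const _).const_mul _
  calc ∫⁻ z, ‖EQ f z‖ₑ ^ (2 + 2 * a) ∂(mu (Sh R))
      ≤ ∫⁻ z, (Λ : ℝ≥0∞) ^ (1 + 2 * a) * ∑ k ∈ Finset.range n,
          (ek k) ^ (-(a * (κ / 4))) * ‖EQ (fk f A k) z‖ₑ ^ (2 + 2 * a) ∂(mu (Sh R)) := by
        refine lintegral_mono fun z => ?_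
        show ‖EQ f z‖ₑ ^ (2 + 2 * a) ≤ _
        rw [hsum z]
        calc ‖∑ k ∈ Finset.range n, EQ (fk f A k) z‖ₑ ^ (2 + 2 * a)
            ≤ (∑ k ∈ Finset.range n, ‖EQ (fk f A k) z‖ₑ) ^ (2 + 2 * a) := by
              gcongr
              exact enorm_sum_le _ _
          _ ≤ (∑ k ∈ Finset.range n, (ek k) ^ γ) ^ ((2 + 2 * a) - 1) *
              ∑ k ∈ Finset.range n, (ek k) ^ (-(γ * ((2 + 2 * a) - 1))) *
                ‖EQ (fk f A k) z‖ₑ ^ (2 + 2 * a) :=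
              wq n (fun k => ‖EQ (fk f A k) z‖ₑ) (2 + 2 * a) γ (by linarith)
          _ ≤ _ := by
              rw [hγq]
              have e1 : (2 + 2 * a) - 1 = 1 + 2 * a := by ring
              rw [e1]
              gcongr
              exact hΛ n
    _ = (Λ : ℝ≥0∞) ^ (1 + 2 * a) * ∑ k ∈ Finset.range n,
          (ek k) ^ (-(a * (κ / 4))) * ∫⁻ z, ‖EQ (fk f A k) z‖ₑ ^ (2 + 2 * a) ∂(mu (Sh R)) := by
        rw [lintegral_const_mul _ (Finset.measurable_sum _ fun k _ => hmk k),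
          lintegral_finsetSum _ (fun k _ => hmk k)]
        congr 1
        refine Finset.sum_congr rfl fun k _ => ?_
        rw [lintegral_const_mul _ ((EQ_meas (hn k).meas).enorm.pow_const _)]
    _ ≤ (Λ : ℝ≥0∞) ^ (1 + 2 * a) * ∑ k ∈ Finset.range n,
          (ek k) ^ (-(a * (κ / 4))) * ((C * mk A k) *
            ((2 * ek k) ^ (a * (κ / 4)) * rp R (-(κ / 2)))) := by
        gcongr with k _
        exact hC f A n k R h hR
    _ = (Λ : ℝ≥0∞) ^ (1 + 2 * a) * ∑ k ∈ Finset.range n,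
          (C * 2 ^ (a * (κ / 4)) * rp R (-(κ / 2))) * mk A k := by
        congr 1
        refine Finset.sum_congr rfl fun k _ => ?_
        have e2 : (2 * ek k) ^ (a * (κ / 4)) = 2 ^ (a * (κ / 4)) * (ek k) ^ (a * (κ / 4)) :=
          ENNReal.mul_rpow_of_nonneg _ _ (by positivity)
        have e3 : (ek k) ^ (-(a * (κ / 4))) * (ek k) ^ (a * (κ / 4)) = 1 := by
          rw [← ENNReal.rpow_add _ _ (ek_pos k) (ek_top k), neg_add_cancel, ENNReal.rpow_zero]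
        rw [e2]
        calc (ek k) ^ (-(a * (κ / 4))) * ((C * mk A k) *
              (2 ^ (a * (κ / 4)) * (ek k) ^ (a * (κ / 4)) * rp R (-(κ / 2))))
            = ((ek k) ^ (-(a * (κ / 4))) * (ek k) ^ (a * (κ / 4))) *
              ((C * 2 ^ (a * (κ / 4)) * rp R (-(κ / 2))) * mk A k) := by ring
          _ = _ := by rw [e3, one_mul]
    _ ≤ (Λ : ℝ≥0∞) ^ (1 + 2 * a) * ((C * 2 ^ (a * (κ / 4)) * rp R (-(κ / 2))) * m) := by
        rw [← Finset.mul_sum]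
        gcongr
        exact (mk_sum h.am n).trans hA
    _ = _ := by
        rw [ENNReal.coe_mul, ENNReal.coe_mul, ENNReal.coe_rpow_of_nonneg _ (by linarith),
          ENNReal.coe_rpow_of_nonneg _ (by positivity)]
        push_cast
        ring

/-- a smaller admissible exponent -/
lemma PU_low (K : ℝ≥0) (s a : ℝ) (hs : 0 < s) (ha0 : 1 / 2 < a) (hst : 1 - a < 2 * s * (1 + a)) :
    ∃ b : ℝ, 0 ≤ b ∧ b < a ∧ ShB (PU K s) b := by
  have hex : ∃ b : ℝ, b < a ∧ 1 / 2 < b ∧ b < 1 ∧ 1 - b < 2 * s * (1 + b) := by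
    by_cases h : a ≤ 1
    · set e : ℝ := min ((a - 1 / 2) / 2) ((2 * s * (1 + a) - (1 - a)) / (2 * (1 + 2 * s))) with he
      have h1 : e ≤ (a - 1 / 2) / 2 := min_le_left _ _
      have h2 : e ≤ (2 * s * (1 + a) - (1 - a)) / (2 * (1 + 2 * s)) := min_le_right _ _
      have h3 : 0 < e := lt_min (by linarith) (div_pos (by linarith) (by positivity))
      refine ⟨a - e, by linarith, by linarith, by linarith, ?_⟩
      rw [le_div_iff₀ (by positivity)] at h2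
      nlinarith
    · push Not at h
      set e : ℝ := min (1 / 4) (2 * s / (1 + 2 * s)) with he
      have h1 : e ≤ 1 / 4 := min_le_left _ _
      have h2 : e ≤ 2 * s / (1 + 2 * s) := min_le_right _ _
      have h3 : 0 < e := lt_min (by norm_num) (by positivity)
      refine ⟨1 - e, by linarith, by linarith, by linarith, ?_⟩
      rw [le_div_iff₀ (by positivity)] at h2
      nlinarith
  obtain ⟨b, h1, h2, h3, h4⟩ := hex
  exact ⟨b, by linarith, h1, PU_ShB K s b hs h2 h3 h4⟩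

end Pool.Agent.TH218.DR
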