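import Mathlib
import Pool.Agent.TH218.DR.U3
set_option autoImplicit false

/-!
# Directional regularity, part U4: the unified theorem
-/

namespace Pool.Agent.TH218.DR

open MeasureTheory Set Complex Filter Topology
open scoped ENNReal NNReal Real FourierTransform

/-- passage to the limit -/
lemma fatou {f : ℝ × ℝ → ℂ} (hf : Integrable f) (F : ℕ → ℝ × ℝ → ℂ) (hF : ∀ n, Measurable (F n))
    (hle : ∀ n z, ‖F n z‖ ≤ ‖f z‖)
    (hlim : ∀ᵐ z, Tendsto (fun n => F n z) atTop (𝓝 (f z)))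
    (q : ℝ) (A : ℝ≥0∞) (hA : ∀ n, ∫⁻ z : ℝ × ℝ × ℝ, ‖EQ (F n) z‖ₑ ^ q ≤ A) :
    ∫⁻ z : ℝ × ℝ × ℝ, ‖EQ f z‖ₑ ^ q ≤ A := by
  have hpt : ∀ z : ℝ × ℝ × ℝ, Tendsto (fun n => EQ (F n) z) atTop (𝓝 (EQ f z)) := by
    intro z
    unfold EQ EX
    have hem := ee_meas
    apply tendsto_integral_of_dominated_convergence (fun z => ‖f z‖)
    · intro n
      have := hF n
      have h1 : Measurable (fun w : ℝ × ℝ =>
        ee (w.1 * z.2.1 + w.2 * z.2.2 + (w.1 ^ 2 + w.2 ^ 2) * z.1) * F n w) := by fun_prop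
      exact h1.aestronglyMeasurable
    · exact hf.norm
    · intro n
      refine Eventually.of_forall fun w => ?_
      rw [norm_mul, ee_norm, one_mul]
      exact hle n w
    · filter_upwards [hlim] with w hw
      exact hw.const_mul _
  have hpt2 : ∀ z : ℝ × ℝ × ℝ, Tendsto (fun n => ‖EQ (F n) z‖ₑ ^ q) atTop (𝓝 (‖EQ f z‖ₑ ^ q)) := by
    intro z
    exact ((ENNReal.continuous_rpow_const (y := q)).tendsto _).comp ((hpt z).enorm)
  calc ∫⁻ z : ℝ × ℝ × ℝ, ‖EQ f z‖ₑ ^ q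
      = ∫⁻ z : ℝ × ℝ × ℝ, liminf (fun n => ‖EQ (F n) z‖ₑ ^ q) atTop :=
        lintegral_congr fun z => ((hpt2 z).liminf_eq).symm
    _ ≤ liminf (fun n => ∫⁻ z : ℝ × ℝ × ℝ, ‖EQ (F n) z‖ₑ ^ q) atTop :=
        lintegral_liminf_le fun n => (EQ_meas (hF n)).enorm.pow_const q
    _ ≤ liminf (fun _ : ℕ => A) atTop := liminf_le_liminf (Eventually.of_forall hA)
    _ = A := by simp

lemma EQ_sum' {L M : ℝ} (n : ℕ) (H : ℝ) (g : ℕ → ℝ × ℝ → ℂ) (hg : ∀ k, Nice (g k) L M)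
    (q : ℝ × ℝ × ℝ) : EQ (fun z => ∑ k ∈ Finset.range n, ((2 ^ k * H : ℝ) : ℂ) * g k z) q =
      ∑ k ∈ Finset.range n, ((2 ^ k * H : ℝ) : ℂ) * EQ (g k) q := by
  unfold EQ EX
  simp only [Finset.mul_sum]
  have hi : ∀ k, Integrable (fun z : ℝ × ℝ =>
      ee (z.1 * q.2.1 + z.2 * q.2.2 + (z.1 ^ 2 + z.2 ^ 2) * q.1) *
        (((2 ^ k * H : ℝ) : ℂ) * g k z)) := by
    intro k
    have h := (ee_mul_int (hg k) q.2.1 q.2.2 q.1).const_mul ((2 ^ k * H : ℝ) : ℂ)
    refine h.congr (Eventually.of_forall fun z => ?_)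
    simp only
    ring
  rw [integral_finsetSum _ (fun k _ => hi k)]
  refine Finset.sum_congr rfl fun k _ => ?_
  rw [← integral_const_mul]
  congr 1
  ext z
  ring

lemma cnt (v H : ℝ) (hH : 0 < H) (n : ℕ) :
    ∑ j ∈ Finset.range n, (if 2 ^ j * H < 2 * v ∧ v ≤ 2 ^ j * H then (1 : ℝ) else 0) =
      if H < 2 * v ∧ 2 * v ≤ 2 ^ n * H then 1 else 0 := by
  induction n with
  | zero =>
    rw [Finset.sum_range_zero, if_neg]
    rintro ⟨h1, h2⟩
    simp only [pow_zero, one_mul] at h2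
    linarith
  | succ n ih =>
    rw [Finset.sum_range_succ, ih]
    have e : (2 : ℝ) ^ (n + 1) * H = 2 * (2 ^ n * H) := by ring
    rw [e]
    have hn : H ≤ 2 ^ n * H := by
      have : (1 : ℝ) ≤ 2 ^ n := one_le_pow₀ (by norm_num)
      nlinarith
    set u := (2 : ℝ) ^ n * H with hu
    by_cases h1 : 2 * v ≤ u
    · rw [if_neg (show ¬ (u < 2 * v ∧ v ≤ u) from fun h => absurd h.1 (not_lt.2 h1)), add_zero]
      by_cases h2 : H < 2 * v
      · rw [if_pos ⟨h2, h1⟩, if_pos ⟨h2, by linarith⟩]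
      · rw [if_neg fun h => h2 h.1, if_neg fun h => h2 h.1]
    · push Not at h1
      rw [if_neg (show ¬ (H < 2 * v ∧ 2 * v ≤ u) from fun h => absurd h.2 (not_le.2 h1)), zero_add]
      by_cases h2 : v ≤ u
      · rw [if_pos ⟨h1, h2⟩, if_pos ⟨by linarith, by linarith⟩]
      · rw [if_neg fun h => h2 h.2, if_neg fun h => h2 (by linarith [h.2])]

lemma box_int {f : ℝ × ℝ → ℂ} {L : ℝ} (hf : Measurable f)
    (hs : ∀ z, f z ≠ 0 → |z.1| ≤ L ∧ |z.2| ≤ L) {q : ℝ} (hq : 1 ≤ q)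
    (hN : ∫⁻ z, ‖f z‖ₑ ^ q ≠ ∞) : Integrable f := by
  refine ⟨hf.aestronglyMeasurable, ?_⟩
  have hpw : ∀ z : ℝ × ℝ, ‖f z‖ₑ ≤ (box L).indicator (fun _ => 1) z + ‖f z‖ₑ ^ q := by
    intro z
    by_cases h0 : f z = 0
    · rw [h0, enorm_zero]
      exact zero_le
    · have hs := hs z h0
      rw [indicator_of_mem (show z ∈ box L from ⟨abs_le.1 hs.1, abs_le.1 hs.2⟩)]
      rcases le_total (‖f z‖ₑ) 1 with h2 | h2
      · exact h2.trans le_self_add
      · calc ‖f z‖ₑ = ‖f z‖ₑ ^ (1 : ℝ) := by rw [ENNReal.rpow_one]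
          _ ≤ ‖f z‖ₑ ^ q := ENNReal.rpow_le_rpow_of_exponent_le h2 hq
          _ ≤ _ := le_add_self
  calc ∫⁻ z, ‖f z‖ₑ ≤ ∫⁻ z : ℝ × ℝ, ((box L).indicator (fun _ => 1) z + ‖f z‖ₑ ^ q) :=
        lintegral_mono hpw
    _ = (∫⁻ z : ℝ × ℝ, (box L).indicator (fun _ => 1) z) + ∫⁻ z : ℝ × ℝ, ‖f z‖ₑ ^ q :=
        lintegral_add_left (measurable_const.indicator (box_meas L)) _
    _ < ∞ := by
        apply ENNReal.add_lt_top.2
        refine ⟨?_, hN.lt_top⟩
        rw [lintegral_indicator (box_meas L), setLIntegral_one]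
        exact box_fin L

/-- the part of the plane where `M` is in `(t/2, t]` -/
def Lv (M : ℝ × ℝ → ℝ) (t : ℝ) : Set (ℝ × ℝ) := {z | t < 2 * M z ∧ M z ≤ t}

lemma Lv_meas {M : ℝ × ℝ → ℝ} (hM : Measurable M) (t : ℝ) : MeasurableSet (Lv M t) :=
  (measurableSet_lt measurable_const (hM.const_mul 2)).inter (measurableSet_le hM measurable_const)

/-- the part of `f` where `M` is in `(t/2, t]` -/
noncomputable def lv (f : ℝ × ℝ → ℂ) (M : ℝ × ℝ → ℝ) (t : ℝ) : ℝ × ℝ → ℂ := (Lv M t).indicator f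

/-- the hypotheses of the unified theorem, on every line -/
structure Un (f : ℝ × ℝ → ℂ) (M : ℝ × ℝ → ℝ) (K : ℝ≥0) (s : ℝ) : Prop where
  fm : Measurable f
  mm : Measurable M
  bd : ∀ z, ‖f z‖ ≤ M z
  supp : ∀ z, M z ≠ 0 → |z.1| ≤ 1 ∧ |z.2| ≤ 1
  reg : ∀ (x : ℝ) (j : ℤ) (h : ℝ), 0 < h → h ≤ 1 →
    ∫⁻ y, ‖lv f M (2 ^ j) (x, y + h) - lv f M (2 ^ j) (x, y)‖ₑ ^ 2 ≤
      K * ENNReal.ofReal (((2 : ℝ) ^ j) ^ 2 * h ^ (2 * s)) *
        len (Lv M (2 ^ j)) x ^ (1 - 2 * s)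

/-- the normalised pieces -/
noncomputable def gU (f : ℝ × ℝ → ℂ) (M : ℝ × ℝ → ℝ) (t : ℝ) (n : ℕ) (z : ℝ × ℝ) : ℂ :=
  ((t⁻¹ : ℝ) : ℂ) * (if 2 * ek n < len (Lv M t) z.1 then lv f M t z else 0)

lemma gU_in {f : ℝ × ℝ → ℂ} {M : ℝ × ℝ → ℝ} {t : ℝ} {n : ℕ} {x : ℝ}
    (hx : 2 * ek n < len (Lv M t) x) (y : ℝ) :
    gU f M t n (x, y) = ((t⁻¹ : ℝ) : ℂ) * lv f M t (x, y) := by
  unfold gU
  rw [if_pos hx]

lemma gU_out {f : ℝ × ℝ → ℂ} {M : ℝ × ℝ → ℝ} {t : ℝ} {n : ℕ} {x : ℝ}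
    (hx : ¬ 2 * ek n < len (Lv M t) x) (y : ℝ) : gU f M t n (x, y) = 0 := by
  unfold gU
  rw [if_neg hx, mul_zero]

lemma gU_pu {f : ℝ × ℝ → ℂ} {M : ℝ × ℝ → ℝ} {K : ℝ≥0} {s : ℝ} (hs : 0 < s) (hs2 : s ≤ 1 / 2)
    (h : Un f M K s) (j : ℤ) (n : ℕ) : Pu (max K 8) s (gU f M (2 ^ j) n) (Lv M (2 ^ j)) n := by
  have hfm := h.fm
  have hA := Lv_meas h.mm (2 ^ j)
  have hl := len_meas hA
  set t : ℝ := 2 ^ j with ht
  have ht0 : 0 < t := by rw [ht]; positivity
  have hlv : Measurable (lv f M t) := hfm.indicator hA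
  have hbox : ∀ z ∈ Lv M t, |z.1| ≤ 1 ∧ |z.2| ≤ 1 := by
    intro z hz
    apply h.supp
    have h1 : t < 2 * M z := hz.1
    intro h0
    rw [h0] at h1
    linarith
  have hoff : ∀ z, z ∉ Lv M t → gU f M t n z = 0 := by
    intro z hz
    unfold gU
    rw [show lv f M t z = 0 from indicator_of_notMem hz f]
    simp
  have hgm : Measurable (gU f M t n) := by
    unfold gU
    apply Measurable.const_mul
    apply Measurable.ite _ hlv measurable_const
    exact measurableSet_lt measurable_const (hl.comp measurable_fst)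
  have hn : Nice (gU f M t n) 1 1 := by
    refine ⟨hgm, ?_, fun z hz => hbox z ?_⟩
    · intro z
      by_cases hz : z ∈ Lv M t
      · unfold gU
        rw [norm_mul, Complex.norm_real, Real.norm_eq_abs, abs_of_pos (inv_pos.2 ht0),
          inv_mul_le_iff₀ ht0, mul_one]
        split_ifs
        · rw [show lv f M t z = f z from indicator_of_mem hz f]
          exact (h.bd z).trans hz.2
        · rw [norm_zero]
          exact ht0.le
      · rw [hoff z hz, norm_zero]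
        exact zero_le_one
    · by_contra hc
      exact hz (hoff z hc)
  have hlen2 : ∀ x, len (Lv M t) x ≤ 2 := by
    intro x
    unfold len
    calc volume (Prod.mk x ⁻¹' (Lv M t)) ≤ volume (Icc (-1 : ℝ) 1) := by
          apply measure_mono
          intro y hy
          exact abs_le.1 (hbox _ hy).2
      _ = 2 := by
          rw [Real.volume_Icc]
          norm_num
  have hslice : ∀ x, ∫⁻ y, ‖gU f M t n (x, y)‖ₑ ^ 2 ≤ len (Lv M t) x := by
    intro x
    have hS : MeasurableSet (Prod.mk x ⁻¹' (Lv M t)) := measurable_prodMk_left hA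
    unfold len
    rw [← lintegral_indicator_one hS]
    refine lintegral_mono fun y => ?_
    by_cases hy : (x, y) ∈ Lv M t
    · rw [indicator_of_mem (show y ∈ Prod.mk x ⁻¹' (Lv M t) from hy)]
      have : ‖gU f M t n (x, y)‖ₑ ≤ 1 := by
        rw [← ofReal_norm, ← ENNReal.ofReal_one]
        exact ENNReal.ofReal_le_ofReal (hn.bd _)
      calc ‖gU f M t n (x, y)‖ₑ ^ 2 ≤ 1 ^ 2 := by gcongr
        _ = 1 := one_pow 2
    · rw [hoff _ hy]
      simp
  refine ⟨hn, hA, hoff, hbox, ?_, ?_⟩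
  · intro x hx y
    exact gU_out (not_lt.2 hx) y
  · intro x h' hh'
    by_cases hx : 2 * ek n < len (Lv M t) x
    · by_cases h1 : h' ≤ 1
      · simp only [gU_in hx]
        have e : ∀ y, ((t⁻¹ : ℝ) : ℂ) * lv f M t (x, y + h') - ((t⁻¹ : ℝ) : ℂ) * lv f M t (x, y) =
            ((t⁻¹ : ℝ) : ℂ) * (lv f M t (x, y + h') - lv f M t (x, y)) := fun y => by ring
        simp only [e, enorm_mul, mul_pow]
        rw [lintegral_const_mul' _ _ (ENNReal.pow_ne_top enorm_ne_top)]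
        have e2 : ‖((t⁻¹ : ℝ) : ℂ)‖ₑ ^ 2 = ENNReal.ofReal (t⁻¹ ^ 2) := by
          rw [← ofReal_norm, Complex.norm_real, Real.norm_eq_abs, abs_of_pos (inv_pos.2 ht0),
            ENNReal.ofReal_pow (inv_pos.2 ht0).le]
        rw [e2]
        calc ENNReal.ofReal (t⁻¹ ^ 2) * ∫⁻ y, ‖lv f M t (x, y + h') - lv f M t (x, y)‖ₑ ^ 2
            ≤ ENNReal.ofReal (t⁻¹ ^ 2) * (K * ENNReal.ofReal (t ^ 2 * h' ^ (2 * s)) *
              len (Lv M t) x ^ (1 - 2 * s)) := by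
              gcongr
              exact h.reg x j h' hh' h1
          _ = (ENNReal.ofReal (t⁻¹ ^ 2) * ENNReal.ofReal (t ^ 2)) *
              (K * len (Lv M t) x ^ (1 - 2 * s) * ENNReal.ofReal (h' ^ (2 * s))) := by
              rw [ENNReal.ofReal_mul (by positivity)]
              ring
          _ = 1 * (K * len (Lv M t) x ^ (1 - 2 * s) * ENNReal.ofReal (h' ^ (2 * s))) := by
              rw [← ENNReal.ofReal_mul (by positivity), ← mul_pow, inv_mul_cancel₀ ht0.ne',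
                one_pow, ENNReal.ofReal_one]
          _ ≤ _ := by
              rw [one_mul]
              gcongr
              exact le_max_left _ _
      · push Not at h1
        have h2 : 1 ≤ ENNReal.ofReal (h' ^ (2 * s)) := by
          rw [ENNReal.one_le_ofReal]
          exact Real.one_le_rpow h1.le (by linarith)
        calc ∫⁻ y, ‖gU f M t n (x, y + h') - gU f M t n (x, y)‖ₑ ^ 2
            ≤ 4 * ∫⁻ y, ‖gU f M t n (x, y)‖ₑ ^ 2 := shift4 hgm x h'
          _ ≤ 4 * len (Lv M t) x := by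
              gcongr
              exact hslice x
          _ = 4 * (len (Lv M t) x ^ (2 * s) * len (Lv M t) x ^ (1 - 2 * s)) := by
              rw [← ENNReal.rpow_add_of_nonneg _ _ (by linarith) (by linarith)]
              congr 1
              rw [add_sub_cancel, ENNReal.rpow_one]
          _ ≤ 4 * (2 * len (Lv M t) x ^ (1 - 2 * s)) := by
              gcongr
              calc len (Lv M t) x ^ (2 * s) ≤ 2 ^ (2 * s) :=
                    ENNReal.rpow_le_rpow (hlen2 x) (by linarith)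
                _ ≤ 2 ^ (1 : ℝ) :=
                    ENNReal.rpow_le_rpow_of_exponent_le (by norm_num) (by linarith)
                _ = 2 := ENNReal.rpow_one 2
          _ = (8 : ℝ≥0) * len (Lv M t) x ^ (1 - 2 * s) * 1 := by
              push_cast
              ring
          _ ≤ _ := by
              gcongr
              exact le_max_right _ _
    · simp [gU_out hx]

end Pool.Agent.TH218.DR
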