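import Mathlib
import Pool.Agent.TH218.DR.U4
set_option autoImplicit false

/-!
# Directional regularity, part U5: the unified theorem
-/

namespace Pool.Agent.TH218.DR

open MeasureTheory Set Complex Filter Topology
open scoped ENNReal NNReal Real FourierTransform

lemma lv_mass {M : ℝ × ℝ → ℝ} (hM : Measurable M) {H : ℝ} (hH : 0 < H) (n : ℕ) {q : ℝ}
    (hq : 0 < q) :
    ∑ j ∈ Finset.range n, ENNReal.ofReal ((2 ^ j * H) ^ q) * volume (Lv M (2 ^ j * H)) ≤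
      2 ^ q * ∫⁻ z, ENNReal.ofReal (M z) ^ q := by
  have h1 : ∀ j : ℕ, ENNReal.ofReal ((2 ^ j * H) ^ q) * volume (Lv M (2 ^ j * H)) ≤
      ∫⁻ z, (Lv M (2 ^ j * H)).indicator (fun z => ENNReal.ofReal (2 * M z) ^ q) z := by
    intro j
    have hX := Lv_meas hM (2 ^ j * H)
    rw [lintegral_indicator hX, ← setLIntegral_const]
    refine setLIntegral_mono' hX fun z hz => ?_
    rw [← ENNReal.ofReal_rpow_of_nonneg (by positivity) hq.le]
    exact ENNReal.rpow_le_rpow (ENNReal.ofReal_le_ofReal hz.1.le) hq.le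
  calc ∑ j ∈ Finset.range n, ENNReal.ofReal ((2 ^ j * H) ^ q) * volume (Lv M (2 ^ j * H))
      ≤ ∑ j ∈ Finset.range n,
        ∫⁻ z, (Lv M (2 ^ j * H)).indicator (fun z => ENNReal.ofReal (2 * M z) ^ q) z :=
        Finset.sum_le_sum fun j _ => h1 j
    _ = ∫⁻ z, ∑ j ∈ Finset.range n,
          (Lv M (2 ^ j * H)).indicator (fun z => ENNReal.ofReal (2 * M z) ^ q) z := by
        rw [lintegral_finsetSum]
        intro j _
        exact (by fun_prop : Measurable fun z => ENNReal.ofReal (2 * M z) ^ q).indicator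
          (Lv_meas hM _)
    _ ≤ ∫⁻ z, 2 ^ q * ENNReal.ofReal (M z) ^ q := by
        refine lintegral_mono fun z => ?_
        have e1 : ∀ j : ℕ, (Lv M (2 ^ j * H)).indicator (fun z => ENNReal.ofReal (2 * M z) ^ q) z =
            ENNReal.ofReal (if 2 ^ j * H < 2 * M z ∧ M z ≤ 2 ^ j * H then (1 : ℝ) else 0) *
              ENNReal.ofReal (2 * M z) ^ q := by
          intro j
          by_cases hx : z ∈ Lv M (2 ^ j * H)
          · have hx' : 2 ^ j * H < 2 * M z ∧ M z ≤ 2 ^ j * H := hx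
            rw [indicator_of_mem hx, if_pos hx', ENNReal.ofReal_one, one_mul]
          · have hx' : ¬ (2 ^ j * H < 2 * M z ∧ M z ≤ 2 ^ j * H) := hx
            rw [indicator_of_notMem hx, if_neg hx', ENNReal.ofReal_zero, zero_mul]
        simp only [e1]
        rw [← Finset.sum_mul, ← ENNReal.ofReal_sum_of_nonneg, cnt _ _ hH]
        · calc ENNReal.ofReal (if H < 2 * M z ∧ 2 * M z ≤ 2 ^ n * H then (1 : ℝ) else 0) *
              ENNReal.ofReal (2 * M z) ^ q ≤ 1 * ENNReal.ofReal (2 * M z) ^ q := by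
                gcongr
                split_ifs <;> simp
            _ = 2 ^ q * ENNReal.ofReal (M z) ^ q := by
                rw [one_mul, ENNReal.ofReal_mul (by norm_num),
                  ENNReal.mul_rpow_of_nonneg _ _ hq.le]
                norm_num
        · intro j _
          split_ifs <;> norm_num
    _ = _ := by
        rw [lintegral_const_mul' _ _ (by
          exact ENNReal.rpow_ne_top_of_nonneg hq.le (by norm_num))]

/-- the approximations -/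
noncomputable def FJ (f : ℝ × ℝ → ℂ) (M : ℝ × ℝ → ℝ) (J : ℕ) (z : ℝ × ℝ) : ℂ :=
  ∑ j ∈ Finset.range (2 * J + 1), ((2 ^ j * (2 ^ J)⁻¹ : ℝ) : ℂ) * gU f M (2 ^ j * (2 ^ J)⁻¹) J z

lemma FJ_eq (f : ℝ × ℝ → ℂ) (M : ℝ × ℝ → ℝ) (J : ℕ) (z : ℝ × ℝ) :
    FJ f M J z = ((∑ j ∈ Finset.range (2 * J + 1),
      (if 2 ^ j * (2 ^ J)⁻¹ < 2 * M z ∧ M z ≤ 2 ^ j * (2 ^ J)⁻¹ then (1 : ℝ) else 0) *
        (if 2 * ek J < len (Lv M (2 ^ j * (2 ^ J)⁻¹)) z.1 then (1 : ℝ) else 0) : ℝ) : ℂ) * f z := by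
  unfold FJ
  rw [Complex.ofReal_sum, Finset.sum_mul]
  refine Finset.sum_congr rfl fun j _ => ?_
  set t : ℝ := 2 ^ j * (2 ^ J)⁻¹ with ht
  have ht0 : t ≠ 0 := by
    rw [ht]
    positivity
  unfold gU
  rw [← mul_assoc, ← Complex.ofReal_mul, mul_inv_cancel₀ ht0, Complex.ofReal_one, one_mul]
  by_cases h1 : 2 * ek J < len (Lv M t) z.1
  · rw [if_pos h1, if_pos h1, mul_one]
    by_cases hz : z ∈ Lv M t
    · have hz' : t < 2 * M z ∧ M z ≤ t := hz
      rw [show lv f M t z = f z from indicator_of_mem hz f, if_pos hz', Complex.ofReal_one, one_mul]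
    · have hz' : ¬ (t < 2 * M z ∧ M z ≤ t) := hz
      rw [show lv f M t z = 0 from indicator_of_notMem hz f, if_neg hz', Complex.ofReal_zero,
        zero_mul]
  · rw [if_neg h1, if_neg h1, mul_zero, Complex.ofReal_zero, zero_mul]

lemma FJ_le (f : ℝ × ℝ → ℂ) (M : ℝ × ℝ → ℝ) (J : ℕ) (z : ℝ × ℝ) : ‖FJ f M J z‖ ≤ ‖f z‖ := by
  rw [FJ_eq, norm_mul, Complex.norm_real, Real.norm_eq_abs]
  set S := ∑ j ∈ Finset.range (2 * J + 1),
    (if 2 ^ j * (2 ^ J)⁻¹ < 2 * M z ∧ M z ≤ 2 ^ j * (2 ^ J)⁻¹ then (1 : ℝ) else 0) *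
      (if 2 * ek J < len (Lv M (2 ^ j * (2 ^ J)⁻¹)) z.1 then (1 : ℝ) else 0) with hS
  have h0 : 0 ≤ S := by
    rw [hS]
    refine Finset.sum_nonneg fun j _ => ?_
    split_ifs <;> norm_num
  have h1 : S ≤ 1 := by
    calc S ≤ ∑ j ∈ Finset.range (2 * J + 1),
          (if 2 ^ j * (2 ^ J)⁻¹ < 2 * M z ∧ M z ≤ 2 ^ j * (2 ^ J)⁻¹ then (1 : ℝ) else 0) := by
          rw [hS]
          refine Finset.sum_le_sum fun j _ => ?_
          split_ifs <;> norm_num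
      _ = _ := cnt (M z) ((2 ^ J)⁻¹) (by positivity) (2 * J + 1)
      _ ≤ 1 := by split_ifs <;> norm_num
  rw [abs_of_nonneg h0]
  calc S * ‖f z‖ ≤ 1 * ‖f z‖ := by gcongr
    _ = ‖f z‖ := one_mul _

/-- almost every point sees sections of positive length -/
lemma good_ae {M : ℝ × ℝ → ℝ} (hM : Measurable M) :
    ∀ᵐ z : ℝ × ℝ, ∀ i : ℤ, z ∈ Lv M (2 ^ i) → len (Lv M (2 ^ i)) z.1 ≠ 0 := by
  rw [ae_all_iff]
  intro i
  have hA := Lv_meas hM (2 ^ i)
  have hl := len_meas hA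
  have hS : MeasurableSet ((Lv M (2 ^ i)) ∩ {z : ℝ × ℝ | len (Lv M (2 ^ i)) z.1 = 0}) :=
    hA.inter ((hl.comp measurable_fst) (measurableSet_singleton 0))
  have h0 : volume ((Lv M (2 ^ i)) ∩ {z : ℝ × ℝ | len (Lv M (2 ^ i)) z.1 = 0}) = 0 := by
    rw [Measure.volume_eq_prod, Measure.measure_prod_null hS]
    refine Eventually.of_forall fun x => ?_
    show volume (Prod.mk x ⁻¹' ((Lv M (2 ^ i)) ∩ {z : ℝ × ℝ | len (Lv M (2 ^ i)) z.1 = 0})) = 0
    by_cases hx : len (Lv M (2 ^ i)) x = 0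
    · refine le_antisymm ((measure_mono ?_).trans hx.le) (zero_le)
      intro y hy
      exact hy.1
    · have : Prod.mk x ⁻¹' ((Lv M (2 ^ i)) ∩ {z : ℝ × ℝ | len (Lv M (2 ^ i)) z.1 = 0}) = ∅ := by
        ext y
        constructor
        · intro hy
          exact absurd hy.2 hx
        · intro hy
          exact absurd hy (notMem_empty _)
      rw [this, measure_empty]
  have h1 := measure_eq_zero_iff_ae_notMem.1 h0
  filter_upwards [h1] with z hz hzi hzero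
  exact hz ⟨hzi, hzero⟩

lemma FJ_lim {f : ℝ × ℝ → ℂ} {M : ℝ × ℝ → ℝ} (hM : Measurable M) (hfM : ∀ z, ‖f z‖ ≤ M z) :
    ∀ᵐ z, Tendsto (fun J => FJ f M J z) atTop (𝓝 (f z)) := by
  filter_upwards [good_ae hM] with z hz
  by_cases h0 : f z = 0
  · have : ∀ J, FJ f M J z = 0 := by
      intro J
      rw [FJ_eq, h0, mul_zero]
    simp only [this, h0]
    exact tendsto_const_nhds
  · have hp : 0 < M z := (norm_pos_iff.2 h0).trans_le (hfM z)
    obtain ⟨i, hi1, hi2⟩ := exists_mem_Ioc_zpow (x := 2 * M z) (y := 2) (by linarith) (by norm_num)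
    have hi3 : M z ≤ 2 ^ i := by
      rw [zpow_add₀ (by norm_num), zpow_one] at hi2
      linarith
    have hmem : z ∈ Lv M (2 ^ i) := ⟨hi1, hi3⟩
    have hlen := hz i hmem
    -- eventually the cut-off is inactive
    have hek : Tendsto (fun J : ℕ => 2 * ek J) atTop (𝓝 0) := by
      have h1 : Tendsto (fun J : ℕ => ek J) atTop (𝓝 0) := by
        unfold ek
        exact ENNReal.tendsto_pow_atTop_nhds_zero_of_lt_one (by simp)
      have := ENNReal.Tendsto.const_mul (a := 2) h1 (Or.inr (by norm_num))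
      rwa [mul_zero] at this
    have hev : ∀ᶠ J : ℕ in atTop, 2 * ek J < len (Lv M (2 ^ i)) z.1 :=
      hek.eventually (gt_mem_nhds (pos_iff_ne_zero.2 hlen))
    have hev2 : ∀ᶠ J : ℕ in atTop, i.natAbs ≤ J := eventually_ge_atTop _
    apply tendsto_const_nhds.congr'
    filter_upwards [hev, hev2] with J hJ1 hJ2
    rw [FJ_eq]
    -- the index
    obtain ⟨j0, hj0⟩ : ∃ j0 : ℕ, (j0 : ℤ) = i + J := ⟨(i + J).toNat, by omega⟩
    have hj1 : j0 ∈ Finset.range (2 * J + 1) := by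
      rw [Finset.mem_range]
      omega
    have ht : (2 : ℝ) ^ j0 * (2 ^ J)⁻¹ = 2 ^ i := by
      rw [← zpow_natCast, ← zpow_natCast, ← zpow_neg, ← zpow_add₀ (by norm_num), hj0]
      congr 1
      ring
    have hlow : (1 : ℝ) ≤ ∑ j ∈ Finset.range (2 * J + 1),
        (if 2 ^ j * (2 ^ J)⁻¹ < 2 * M z ∧ M z ≤ 2 ^ j * (2 ^ J)⁻¹ then (1 : ℝ) else 0) *
          (if 2 * ek J < len (Lv M (2 ^ j * (2 ^ J)⁻¹)) z.1 then (1 : ℝ) else 0) := by
      refine le_trans ?_ (Finset.single_le_sum (f := fun j =>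
        (if 2 ^ j * (2 ^ J)⁻¹ < 2 * M z ∧ M z ≤ 2 ^ j * (2 ^ J)⁻¹ then (1 : ℝ) else 0) *
          (if 2 * ek J < len (Lv M (2 ^ j * (2 ^ J)⁻¹)) z.1 then (1 : ℝ) else 0))
        (fun j _ => by split_ifs <;> norm_num) hj1)
      rw [ht, if_pos ⟨hi1, hi3⟩, if_pos hJ1, mul_one]
    have hup : ∑ j ∈ Finset.range (2 * J + 1),
        (if 2 ^ j * (2 ^ J)⁻¹ < 2 * M z ∧ M z ≤ 2 ^ j * (2 ^ J)⁻¹ then (1 : ℝ) else 0) *
          (if 2 * ek J < len (Lv M (2 ^ j * (2 ^ J)⁻¹)) z.1 then (1 : ℝ) else 0) ≤ 1 := by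
      calc _ ≤ ∑ j ∈ Finset.range (2 * J + 1),
            (if 2 ^ j * (2 ^ J)⁻¹ < 2 * M z ∧ M z ≤ 2 ^ j * (2 ^ J)⁻¹ then (1 : ℝ) else 0) := by
            refine Finset.sum_le_sum fun j _ => ?_
            split_ifs <;> norm_num
        _ = _ := cnt (M z) ((2 ^ J)⁻¹) (by positivity) (2 * J + 1)
        _ ≤ 1 := by split_ifs <;> norm_num
    rw [le_antisymm hup hlow, Complex.ofReal_one, one_mul]

/-- **The unified theorem (every line).** -/
theorem unified (K : ℝ≥0) (s a : ℝ) (hs : 0 < s) (hs2 : s ≤ 1 / 2) (ha : 1 / 2 < a)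
    (hst : 1 - a < 2 * s * (1 + a)) : ∃ C : ℝ≥0, ∀ (f : ℝ × ℝ → ℂ) (M : ℝ × ℝ → ℝ), Un f M K s →
    ∫⁻ z : ℝ × ℝ × ℝ, ‖EQ f z‖ₑ ^ (2 + 2 * a) ≤
      C * ∫⁻ z, ENNReal.ofReal (M z) ^ (2 + 2 * a) := by
  obtain ⟨b, hb0, hba, hSh⟩ := PU_low (max K 8) s a hs ha hst
  obtain ⟨C, hC⟩ := strong (PU (max K 8) s) PU_nice a b hb0 hba hSh
  refine ⟨C * 2 ^ (2 + 2 * a) + 1, ?_⟩
  intro f M h
  by_cases hN : ∫⁻ z, ENNReal.ofReal (M z) ^ (2 + 2 * a) = ∞
  · rw [hN, ENNReal.mul_top]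
    · exact le_top
    · simp
  have hfm := h.fm
  have hMm := h.mm
  have hle : ∀ z, ‖f z‖ₑ ≤ ENNReal.ofReal (M z) := by
    intro z
    rw [← ofReal_norm]
    exact ENNReal.ofReal_le_ofReal (h.bd z)
  have hi : Integrable f := by
    refine box_int (L := 1) (q := 2 + 2 * a) hfm ?_ (by linarith) ?_
    · intro z hz
      apply h.supp
      intro h0
      have := h.bd z
      rw [h0] at this
      exact hz (norm_le_zero_iff.1 this)
    · refine ne_top_of_le_ne_top hN (lintegral_mono fun z => ?_)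
      exact ENNReal.rpow_le_rpow (hle z) (by linarith)
  have hpu : ∀ (J j : ℕ), PU (max K 8) s (gU f M (2 ^ j * (2 ^ J)⁻¹) J)
      (volume (Lv M (2 ^ j * (2 ^ J)⁻¹))) := by
    intro J j
    have ht : (2 : ℝ) ^ j * (2 ^ J)⁻¹ = 2 ^ ((j : ℤ) - J) := by
      rw [← zpow_natCast, ← zpow_natCast, ← zpow_neg, ← zpow_add₀ (by norm_num)]
      rfl
    rw [ht]
    exact ⟨_, J, gU_pu hs hs2 h _ J, le_rfl⟩
  refine fatou hi (FJ f M) ?_ (FJ_le f M) (FJ_lim hMm h.bd) _ _ ?_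
  · intro J
    unfold FJ
    refine Finset.measurable_sum _ fun j _ => ?_
    have := (PU_nice _ _ (hpu J j)).1.meas
    fun_prop
  · intro J
    have hH0 : (0 : ℝ) < (2 ^ J)⁻¹ := by positivity
    calc ∫⁻ z : ℝ × ℝ × ℝ, ‖EQ (FJ f M J) z‖ₑ ^ (2 + 2 * a)
        = ∫⁻ z : ℝ × ℝ × ℝ, ‖∑ j ∈ Finset.range (2 * J + 1),
          ((2 ^ j * (2 ^ J)⁻¹ : ℝ) : ℂ) * EQ (gU f M (2 ^ j * (2 ^ J)⁻¹) J) z‖ₑ ^ (2 + 2 * a) := by
          refine lintegral_congr fun z => ?_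
          unfold FJ
          rw [EQ_sum' (2 * J + 1) ((2 ^ J)⁻¹) (fun j => gU f M (2 ^ j * (2 ^ J)⁻¹) J)
            (fun j => (PU_nice _ _ (hpu J j)).1)]
      _ ≤ C * ∑ j ∈ Finset.range (2 * J + 1), ENNReal.ofReal ((2 ^ j * (2 ^ J)⁻¹) ^ (2 + 2 * a)) *
            volume (Lv M (2 ^ j * (2 ^ J)⁻¹)) :=
          hC (2 * J + 1) ((2 ^ J)⁻¹) (fun j => gU f M (2 ^ j * (2 ^ J)⁻¹) J) _ hH0 (hpu J)
      _ ≤ C * (2 ^ (2 + 2 * a) * ∫⁻ z, ENNReal.ofReal (M z) ^ (2 + 2 * a)) := by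
          gcongr
          exact lv_mass hMm hH0 _ (by linarith)
      _ = (C * 2 ^ (2 + 2 * a)) * ∫⁻ z, ENNReal.ofReal (M z) ^ (2 + 2 * a) := by ring
      _ ≤ _ := by
          gcongr
          rw [ENNReal.coe_add, ENNReal.coe_mul, ENNReal.coe_rpow_of_nonneg _ (by linarith)]
          push_cast
          exact le_self_add

end Pool.Agent.TH218.DR
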