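import Mathlib
import Pool.Agent.TH218.DR.U5
set_option autoImplicit false

/-!
# Directional regularity, part 20: functions with few monotonicity intervals
-/

namespace Pool.Agent.TH218.DR

open MeasureTheory Set Complex Filter Topology
open scoped ENNReal NNReal Real FourierTransform

/-- the superlevel sets of `u` at positive heights are unions of `K` intervals -/
def Modal (K : ℕ) (u : ℝ → ℝ) : Prop :=
  ∀ l : ℝ, 0 < l → ∃ I : Fin K → Set ℝ, (∀ i, (I i).OrdConnected) ∧ {y | l < u y} = ⋃ i, I i

/-- the points where membership changes after a translation by `h` -/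
def bS (A : Set ℝ) (h : ℝ) : Set ℝ := {y | ¬ (y ∈ A ↔ y + h ∈ A)}

lemma oc_shift {I : Set ℝ} (hI : I.OrdConnected) {h : ℝ} (hh : 0 < h) :
    volume (bS I h) ≤ 2 * ENNReal.ofReal h := by
  have hsub : bS I h ⊆ {y | y ∈ I ∧ y + h ∉ I} ∪ {y | y ∉ I ∧ y + h ∈ I} := by
    intro y hy
    by_cases h1 : y ∈ I
    · left
      refine ⟨h1, fun h2 => hy ⟨fun _ => h2, fun _ => h1⟩⟩
    · right
      refine ⟨h1, ?_⟩
      by_contra h2
      exact hy ⟨fun h3 => absurd h3 h1, fun h3 => absurd h3 h2⟩
  have key : ∀ S : Set ℝ, (∀ y1 ∈ S, ∀ y2 ∈ S, y1 ≤ y2 → y2 - y1 ≤ h) →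
      volume S ≤ ENNReal.ofReal h := by
    intro S hS
    refine (Real.volume_le_diam S).trans ?_
    apply Metric.ediam_le
    intro x hx y hy
    rw [edist_dist, Real.dist_eq]
    apply ENNReal.ofReal_le_ofReal
    rcases le_total x y with hxy | hxy
    · rw [abs_sub_comm, abs_of_nonneg (by linarith)]
      exact hS x hx y hy hxy
    · rw [abs_of_nonneg (by linarith)]
      exact hS y hy x hx hxy
  have h1 : volume {y | y ∈ I ∧ y + h ∉ I} ≤ ENNReal.ofReal h := by
    apply key
    intro y1 hy1 y2 hy2 h12
    by_contra hc
    push Not at hc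
    exact hy1.2 (hI.out hy1.1 hy2.1 ⟨by linarith, by linarith⟩)
  have h2 : volume {y | y ∉ I ∧ y + h ∈ I} ≤ ENNReal.ofReal h := by
    apply key
    intro y1 hy1 y2 hy2 h12
    by_contra hc
    push Not at hc
    exact hy2.1 (hI.out hy1.2 hy2.2 ⟨by linarith, by linarith⟩)
  calc volume (bS I h) ≤ volume ({y | y ∈ I ∧ y + h ∉ I} ∪ {y | y ∉ I ∧ y + h ∈ I}) :=
        measure_mono hsub
    _ ≤ volume {y | y ∈ I ∧ y + h ∉ I} + volume {y | y ∉ I ∧ y + h ∈ I} := measure_union_le _ _
    _ ≤ ENNReal.ofReal h + ENNReal.ofReal h := add_le_add h1 h2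
    _ = _ := by ring

lemma union_shift {K : ℕ} {I : Fin K → Set ℝ} (hI : ∀ i, (I i).OrdConnected) {h : ℝ}
    (hh : 0 < h) : volume (bS (⋃ i, I i) h) ≤ K * (2 * ENNReal.ofReal h) := by
  have hsub : bS (⋃ i, I i) h ⊆ ⋃ i, bS (I i) h := by
    intro y hy
    by_contra hc
    rw [mem_iUnion] at hc
    push Not at hc
    apply hy
    rw [mem_iUnion, mem_iUnion]
    constructor
    · rintro ⟨i, hi⟩
      refine ⟨i, ?_⟩
      have := hc i
      unfold bS at this
      rw [mem_ofPred_eq, not_not] at this
      exact this.1 hi
    · rintro ⟨i, hi⟩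
      refine ⟨i, ?_⟩
      have := hc i
      unfold bS at this
      rw [mem_ofPred_eq, not_not] at this
      exact this.2 hi
  calc volume (bS (⋃ i, I i) h) ≤ volume (⋃ i, bS (I i) h) := measure_mono hsub
    _ ≤ ∑ i, volume (bS (I i) h) := measure_iUnion_fintype_le _ _
    _ ≤ ∑ _i : Fin K, 2 * ENNReal.ofReal h := Finset.sum_le_sum fun i _ => oc_shift (hI i) hh
    _ = _ := by
        rw [Finset.sum_const, Finset.card_univ, Fintype.card_fin, nsmul_eq_mul]

/-- truncation at heights between `t` and `2t` -/
noncomputable def ph (t u : ℝ) : ℝ := min (max (u - t) 0) t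

lemma ph_nonneg {t : ℝ} (ht : 0 ≤ t) (u : ℝ) : 0 ≤ ph t u := le_min (le_max_right _ _) ht

lemma ph_le (t u : ℝ) : ph t u ≤ t := min_le_right _ _

lemma ph_meas (t : ℝ) : Measurable (ph t) := by
  unfold ph
  fun_prop

lemma ph_diff {t a b : ℝ} (ht : 0 < t) :
    ‖ph t b - ph t a‖ₑ ≤ ∫⁻ l in Icc t (2 * t), (if (l < a ↔ l < b) then (0 : ℝ≥0∞) else 1) := by
  have main : ∀ a b : ℝ, a ≤ b → ENNReal.ofReal (ph t b - ph t a) ≤
      ∫⁻ l in Icc t (2 * t), (if (l < a ↔ l < b) then (0 : ℝ≥0∞) else 1) := by
    intro a b hab
    have h1 : ENNReal.ofReal (ph t b - ph t a) ≤ volume (Ico (max a t) (min b (2 * t))) := by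
      rw [Real.volume_Ico]
      by_cases h : max a t ≤ min b (2 * t)
      · apply ENNReal.ofReal_le_ofReal
        have hb : t ≤ b := (le_max_right _ _).trans (h.trans (min_le_left _ _))
        have ha : a ≤ 2 * t := (le_max_left _ _).trans (h.trans (min_le_right _ _))
        have e1 : ph t b = min b (2 * t) - t := by
          unfold ph
          rw [max_eq_left (by linarith)]
          rcases le_total b (2 * t) with h' | h'
          · rw [min_eq_left h', min_eq_left (by linarith)]
          · rw [min_eq_right h', min_eq_right (by linarith)]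
            ring
        have e2 : ph t a = max a t - t := by
          unfold ph
          rcases le_total a t with h' | h'
          · rw [max_eq_right h', max_eq_right (by linarith), min_eq_left ht.le]
            ring
          · rw [max_eq_left h', max_eq_left (by linarith), min_eq_left (by linarith)]
        rw [e1, e2]
        linarith
      · push Not at h
        have : ph t b - ph t a ≤ 0 := by
          rcases le_total b t with h' | h'
          · have : ph t b = 0 := by
              unfold ph
              rw [max_eq_right (by linarith), min_eq_left ht.le]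
            rw [this]
            linarith [ph_nonneg ht.le a]
          · have h2 : 2 * t ≤ a := by
              by_contra hc
              push Not at hc
              have h3 : min b (2 * t) ≥ max a t := by
                apply le_min
                · exact max_le hab h'
                · exact max_le hc.le (by linarith)
              linarith
            have e1 : ph t a = t := by
              unfold ph
              rw [max_eq_left (by linarith), min_eq_right (by linarith)]
            rw [e1]
            linarith [ph_le t b]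
        rw [ENNReal.ofReal_of_nonpos this]
        exact zero_le
    refine h1.trans ?_
    rw [← lintegral_indicator_one measurableSet_Ico, ← lintegral_indicator measurableSet_Icc]
    refine lintegral_mono fun l => ?_
    by_cases hl : l ∈ Ico (max a t) (min b (2 * t))
    · have l1 : a ≤ l := (le_max_left _ _).trans hl.1
      have l2 : t ≤ l := (le_max_right _ _).trans hl.1
      have l3 : l < b := hl.2.trans_le (min_le_left _ _)
      have l4 : l ≤ 2 * t := (hl.2.trans_le (min_le_right _ _)).le
      rw [indicator_of_mem hl, indicator_of_mem (show l ∈ Icc t (2 * t) from ⟨l2, l4⟩),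
        if_neg (fun h => absurd (h.2 l3) (not_lt.2 l1))]
      rfl
    · rw [indicator_of_notMem hl]
      exact zero_le
  rcases le_total a b with h | h
  · have hmono : ph t a ≤ ph t b := by
      unfold ph
      gcongr
    rw [← ofReal_norm, Real.norm_eq_abs, abs_of_nonneg (by linarith)]
    exact main a b h
  · have hmono : ph t b ≤ ph t a := by
      unfold ph
      gcongr
    rw [← ofReal_norm, Real.norm_eq_abs, abs_sub_comm, abs_of_nonneg (by linarith)]
    refine (main b a h).trans (le_of_eq ?_)
    refine lintegral_congr fun l => ?_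
    congr 1
    exact propext iff_comm

lemma ph_shift {K : ℕ} {u : ℝ → ℝ} (hu : Measurable u) (hm : Modal K u) {t h : ℝ} (ht : 0 < t)
    (hh : 0 < h) : ∫⁻ y, ‖ph t (u (y + h)) - ph t (u y)‖ₑ ≤
      ENNReal.ofReal t * (K * (2 * ENNReal.ofReal h)) := by
  have hmeas : Measurable (fun p : ℝ × ℝ =>
      if (p.2 < u p.1 ↔ p.2 < u (p.1 + h)) then (0 : ℝ≥0∞) else 1) := by
    apply Measurable.ite _ measurable_const measurable_const
    have h1 : MeasurableSet {p : ℝ × ℝ | p.2 < u p.1} := measurableSet_lt measurable_snd
      (hu.comp measurable_fst)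
    have h2 : MeasurableSet {p : ℝ × ℝ | p.2 < u (p.1 + h)} := measurableSet_lt measurable_snd
      (hu.comp (measurable_fst.add_const h))
    have e : {p : ℝ × ℝ | (p.2 < u p.1 ↔ p.2 < u (p.1 + h))} =
        ({p : ℝ × ℝ | p.2 < u p.1} ∩ {p : ℝ × ℝ | p.2 < u (p.1 + h)}) ∪
        ({p : ℝ × ℝ | p.2 < u p.1}ᶜ ∩ {p : ℝ × ℝ | p.2 < u (p.1 + h)}ᶜ) := by
      ext p
      simp only [mem_ofPred_eq, mem_union, mem_inter_iff, mem_compl_iff]
      tauto
    rw [e]
    exact (h1.inter h2).union (h1.compl.inter h2.compl)
  calc ∫⁻ y, ‖ph t (u (y + h)) - ph t (u y)‖ₑ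
      ≤ ∫⁻ y, ∫⁻ l in Icc t (2 * t), (if (l < u y ↔ l < u (y + h)) then (0 : ℝ≥0∞) else 1) :=
        lintegral_mono fun y => ph_diff ht
    _ = ∫⁻ l in Icc t (2 * t), ∫⁻ y, (if (l < u y ↔ l < u (y + h)) then (0 : ℝ≥0∞) else 1) := by
        rw [lintegral_lintegral_swap]
        exact hmeas.aemeasurable
    _ ≤ ∫⁻ _ in Icc t (2 * t), K * (2 * ENNReal.ofReal h) := by
        refine setLIntegral_mono' measurableSet_Icc fun l hl => ?_
        obtain ⟨I, hI, hIu⟩ := hm l (ht.trans_le hl.1)
        have hS := union_shift hI hh
        rw [← hIu] at hS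
        refine le_trans ?_ hS
        have e : ∀ y, (if (l < u y ↔ l < u (y + h)) then (0 : ℝ≥0∞) else 1) =
            (bS {y | l < u y} h).indicator 1 y := by
          intro y
          by_cases hy : (l < u y ↔ l < u (y + h))
          · rw [if_pos hy, indicator_of_notMem]
            intro hb
            exact hb hy
          · rw [if_neg hy, indicator_of_mem (show y ∈ bS {y | l < u y} h from hy)]
            rfl
        simp only [e]
        have hbm : MeasurableSet (bS {y | l < u y} h) := by
          have h1 : MeasurableSet {y | l < u y} := measurableSet_lt measurable_const hu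
          have h2 : MeasurableSet {y | l < u (y + h)} :=
            measurableSet_lt measurable_const (hu.comp (measurable_id.add_const h))
          have e : bS {y | l < u y} h =
              (({y | l < u y} ∩ {y | l < u (y + h)}) ∪ ({y | l < u y}ᶜ ∩ {y | l < u (y + h)}ᶜ))ᶜ := by
            ext p
            simp only [bS, mem_ofPred_eq, mem_union, mem_inter_iff, mem_compl_iff]
            tauto
          rw [e]
          exact ((h1.inter h2).union (h1.compl.inter h2.compl)).compl
        rw [lintegral_indicator_one hbm]
    _ = _ := by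
        rw [setLIntegral_const, Real.volume_Icc]
        have : 2 * t - t = t := by ring
        rw [this]
        ring

end Pool.Agent.TH218.DR
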