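import Mathlib
import Pool.Agent.TH218.DR.A20
set_option autoImplicit false

/-!
# Directional regularity, part 21: the exact inequality for functions with few monotonicity intervals
-/

namespace Pool.Agent.TH218.DR

open MeasureTheory Set Complex Filter Topology
open scoped ENNReal NNReal Real FourierTransform

/-- the normalised truncation -/
noncomputable def gm (t : ℝ) (u : ℝ × ℝ → ℝ) (z : ℝ × ℝ) : ℂ := ((t⁻¹ * ph t (u z) : ℝ) : ℂ)

lemma gm_norm {t : ℝ} (ht : 0 < t) (u : ℝ × ℝ → ℝ) (z : ℝ × ℝ) : ‖gm t u z‖ ≤ 1 := by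
  unfold gm
  rw [Complex.norm_real, Real.norm_eq_abs, abs_of_nonneg
    (mul_nonneg (inv_pos.2 ht).le (ph_nonneg ht.le _)), inv_mul_le_iff₀ ht, mul_one]
  exact ph_le _ _

lemma gm_zero {t : ℝ} (ht : 0 < t) (u : ℝ × ℝ → ℝ) (z : ℝ × ℝ) (h : u z ≤ t) : gm t u z = 0 := by
  unfold gm ph
  rw [max_eq_right (by linarith), min_eq_left ht.le, mul_zero, Complex.ofReal_zero]

lemma gm_cl {K : ℕ} {u : ℝ × ℝ → ℝ} (hu : Measurable u)
    (hs : ∀ z, u z ≠ 0 → |z.1| ≤ 1 ∧ |z.2| ≤ 1) (hm : ∀ x, Modal K (fun y => u (x, y)))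
    {t : ℝ} (ht : 0 < t) : PC (2 * K) 1 0 (gm t u) (4 * volume {z | t < u z}) := by
  have hgm : Measurable (gm t u) := by
    unfold gm
    have := ph_meas t
    fun_prop
  have hn : Nice (gm t u) 1 1 := by
    refine ⟨hgm, gm_norm ht u, fun z hz => hs z fun h0 => hz ?_⟩
    exact gm_zero ht u z (by rw [h0]; exact ht.le)
  have hmass : ∫⁻ z, ‖gm t u z‖ₑ ^ 2 ≤ volume {z | t < u z} := by
    have hS : MeasurableSet {z : ℝ × ℝ | t < u z} := measurableSet_lt measurable_const hu
    rw [← lintegral_indicator_one hS]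
    refine lintegral_mono fun z => ?_
    by_cases hz : t < u z
    · rw [indicator_of_mem (show z ∈ {z | t < u z} from hz)]
      have : ‖gm t u z‖ₑ ≤ 1 := by
        rw [← ofReal_norm, ← ENNReal.ofReal_one]
        exact ENNReal.ofReal_le_ofReal (gm_norm ht u z)
      calc ‖gm t u z‖ₑ ^ 2 ≤ 1 ^ 2 := by gcongr
        _ = 1 := one_pow 2
    · rw [gm_zero ht u z (not_lt.1 hz)]
      simp
  have hwm : Measurable (fun x : ℝ => ∫⁻ y, ‖gm t u (x, y)‖ₑ ^ 2) := by
    have : Measurable (fun p : ℝ × ℝ => ‖gm t u p‖ₑ ^ 2) := by fun_prop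
    exact this.lintegral_prod_right'
  have hwi : ∫⁻ x : ℝ, ∫⁻ y, ‖gm t u (x, y)‖ₑ ^ 2 = ∫⁻ z, ‖gm t u z‖ₑ ^ 2 := by
    rw [Measure.volume_eq_prod, lintegral_prod _ (by fun_prop)]
  refine ⟨⟨fun x => 4 * ∫⁻ y, ‖gm t u (x, y)‖ₑ ^ 2, hn, ?_, ?_, hwm.const_mul 4, ?_⟩, ?_⟩
  · intro x h hh
    have hux : Measurable fun y => u (x, y) := by fun_prop
    have e : ∀ y, ‖gm t u (x, y + h) - gm t u (x, y)‖ₑ ^ 2 ≤
        ENNReal.ofReal t⁻¹ * ‖ph t (u (x, y + h)) - ph t (u (x, y))‖ₑ := by
      intro y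
      have e1 : gm t u (x, y + h) - gm t u (x, y) =
          ((t⁻¹ * (ph t (u (x, y + h)) - ph t (u (x, y))) : ℝ) : ℂ) := by
        unfold gm
        push_cast
        ring
      have e2 : ‖gm t u (x, y + h) - gm t u (x, y)‖ₑ =
          ENNReal.ofReal t⁻¹ * ‖ph t (u (x, y + h)) - ph t (u (x, y))‖ₑ := by
        rw [e1, ← ofReal_norm, Complex.norm_real, norm_mul, Real.norm_eq_abs,
          abs_of_pos (inv_pos.2 ht), ENNReal.ofReal_mul (inv_pos.2 ht).le, ofReal_norm]
      have e3 : ‖gm t u (x, y + h) - gm t u (x, y)‖ₑ ≤ 1 := by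
        rw [e2, ← ofReal_norm, ← ENNReal.ofReal_mul (inv_pos.2 ht).le, ← ENNReal.ofReal_one]
        apply ENNReal.ofReal_le_ofReal
        rw [inv_mul_le_iff₀ ht, mul_one, Real.norm_eq_abs, abs_le]
        have a1 := ph_nonneg ht.le (u (x, y + h))
        have a2 := ph_nonneg ht.le (u (x, y))
        have a3 := ph_le t (u (x, y + h))
        have a4 := ph_le t (u (x, y))
        constructor <;> linarith
      calc ‖gm t u (x, y + h) - gm t u (x, y)‖ₑ ^ 2
          = ‖gm t u (x, y + h) - gm t u (x, y)‖ₑ * ‖gm t u (x, y + h) - gm t u (x, y)‖ₑ := sq _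
        _ ≤ 1 * ‖gm t u (x, y + h) - gm t u (x, y)‖ₑ := by gcongr
        _ = _ := by rw [one_mul, e2]
    calc ∫⁻ y, ‖gm t u (x, y + h) - gm t u (x, y)‖ₑ ^ 2
        ≤ ∫⁻ y, ENNReal.ofReal t⁻¹ * ‖ph t (u (x, y + h)) - ph t (u (x, y))‖ₑ := lintegral_mono e
      _ = ENNReal.ofReal t⁻¹ * ∫⁻ y, ‖ph t (u (x, y + h)) - ph t (u (x, y))‖ₑ :=
          lintegral_const_mul' _ _ ENNReal.ofReal_ne_top
      _ ≤ ENNReal.ofReal t⁻¹ * (ENNReal.ofReal t * (K * (2 * ENNReal.ofReal h))) := by
          gcongr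
          exact ph_shift hux (hm x) ht hh
      _ = _ := by
          rw [← mul_assoc, ← ENNReal.ofReal_mul (inv_pos.2 ht).le, inv_mul_cancel₀ ht.ne',
            ENNReal.ofReal_one, one_mul, Real.rpow_one]
          push_cast
          ring
  · intro x h hh
    rw [Real.rpow_zero, ENNReal.ofReal_one, mul_one]
    calc ∫⁻ y, ‖gm t u (x, y + h) - gm t u (x, y)‖ₑ ^ 2
        ≤ 2 * ((∫⁻ y, ‖gm t u (x, y + h)‖ₑ ^ 2) + ∫⁻ y, ‖gm t u (x, y)‖ₑ ^ 2) :=
          sub_slice (by fun_prop)
      _ = 2 * ((∫⁻ y, ‖gm t u (x, y)‖ₑ ^ 2) + ∫⁻ y, ‖gm t u (x, y)‖ₑ ^ 2) := by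
          rw [lintegral_add_right_eq_self (fun y => ‖gm t u (x, y)‖ₑ ^ 2) h]
      _ = _ := by ring
  · rw [lintegral_const_mul _ hwm, hwi]
    gcongr
  · refine hmass.trans ?_
    calc volume {z | t < u z} = 1 * volume {z | t < u z} := by rw [one_mul]
      _ ≤ _ := by
        gcongr
        norm_num

lemma ph_sum (u H : ℝ) (hH : 0 < H) (n : ℕ) :
    ∑ j ∈ Finset.range n, ph (2 ^ j * H) u = min (max (u - H) 0) ((2 ^ n - 1) * H) := by
  induction n with
  | zero =>
    rw [Finset.sum_range_zero]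
    simp
  | succ n ih =>
    rw [Finset.sum_range_succ, ih]
    have hn : (1 : ℝ) ≤ 2 ^ n := one_le_pow₀ (by norm_num)
    have e : ((2 : ℝ) ^ (n + 1) - 1) * H = 2 ^ n * H + (2 ^ n - 1) * H := by ring
    rw [e]
    have hnH : 0 < (2 : ℝ) ^ n * H := by positivity
    have hnH2 : 0 ≤ ((2 : ℝ) ^ n - 1) * H := mul_nonneg (by linarith) hH.le
    have e2 : ((2 : ℝ) ^ n - 1) * H = 2 ^ n * H - H := by ring
    unfold ph
    rcases le_total u (2 ^ n * H) with h | h
    · rw [max_eq_right (by linarith : u - 2 ^ n * H ≤ 0), min_eq_left hnH.le, add_zero,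
        min_eq_left, min_eq_left]
      · apply max_le
        · linarith
        · linarith
      · apply max_le
        · linarith
        · linarith
    · have h1 : H ≤ 2 ^ n * H := by nlinarith
      rw [max_eq_left (by linarith : 0 ≤ u - 2 ^ n * H), max_eq_left (by linarith : 0 ≤ u - H),
        min_eq_right (by linarith : ((2 : ℝ) ^ n - 1) * H ≤ u - H)]
      rcases le_total (u - 2 ^ n * H) (2 ^ n * H) with h2 | h2
      · rw [min_eq_left h2, min_eq_left (by linarith)]
        linarith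
      · rw [min_eq_right h2, min_eq_right (by linarith)]
        ring

lemma mass_sum' (q : ℝ) (hq : 0 < q) : ∃ G : ℝ≥0, ∀ (u : ℝ × ℝ → ℝ), Measurable u →
    ∀ (H : ℝ), 0 < H → ∀ n : ℕ,
    ∑ j ∈ Finset.range n, ENNReal.ofReal ((2 ^ j * H) ^ q) * (4 * volume {z | 2 ^ j * H < u z}) ≤
      G * ∫⁻ z, ENNReal.ofReal (u z) ^ q := by
  obtain ⟨G, hG0, hG⟩ := geo q hq
  refine ⟨4 * G.toNNReal, ?_⟩
  intro u hu H hH n
  have hS : ∀ j : ℕ, MeasurableSet {z : ℝ × ℝ | 2 ^ j * H < u z} := fun j =>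
    measurableSet_lt measurable_const hu
  have h1 : ∀ j : ℕ, ENNReal.ofReal ((2 ^ j * H) ^ q) * (4 * volume {z | 2 ^ j * H < u z}) =
      4 * ∫⁻ z, ({z : ℝ × ℝ | 2 ^ j * H < u z}).indicator
        (fun _ => ENNReal.ofReal ((2 ^ j * H) ^ q)) z := by
    intro j
    rw [lintegral_indicator (hS j), setLIntegral_const]
    ring
  calc ∑ j ∈ Finset.range n, ENNReal.ofReal ((2 ^ j * H) ^ q) * (4 * volume {z | 2 ^ j * H < u z})
      = 4 * ∫⁻ z, ∑ j ∈ Finset.range n, ({z : ℝ × ℝ | 2 ^ j * H < u z}).indicator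
        (fun _ => ENNReal.ofReal ((2 ^ j * H) ^ q)) z := by
        rw [lintegral_finsetSum, Finset.mul_sum]
        · exact Finset.sum_congr rfl fun j _ => h1 j
        · intro j _
          exact measurable_const.indicator (hS j)
    _ ≤ 4 * ∫⁻ z, ENNReal.ofReal G * ENNReal.ofReal (u z) ^ q := by
        gcongr with z
        by_cases hz : 0 < u z
        · have e1 : ∀ j : ℕ, ({z : ℝ × ℝ | 2 ^ j * H < u z}).indicator
              (fun _ => ENNReal.ofReal ((2 ^ j * H) ^ q)) z ≤
              ENNReal.ofReal ((if 2 ^ j * (H / u z) ≤ 1 then (2 ^ j * (H / u z)) ^ q else 0) *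
                (u z) ^ q) := by
            intro j
            by_cases h2 : 2 ^ j * H < u z
            · rw [indicator_of_mem (show z ∈ {z | 2 ^ j * H < u z} from h2), if_pos]
              · apply ENNReal.ofReal_le_ofReal
                rw [← Real.mul_rpow (by positivity) hz.le]
                apply le_of_eq
                congr 1
                field_simp
              · rw [← mul_div_assoc, div_le_one hz]
                exact h2.le
            · rw [indicator_of_notMem (show z ∉ {z | 2 ^ j * H < u z} from h2)]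
              exact zero_le
          refine (Finset.sum_le_sum fun j _ => e1 j).trans ?_
          rw [← ENNReal.ofReal_sum_of_nonneg, ← Finset.sum_mul, ENNReal.ofReal_rpow_of_nonneg hz.le
            hq.le, ← ENNReal.ofReal_mul hG0]
          · apply ENNReal.ofReal_le_ofReal
            gcongr
            exact hG n (H / u z) (by positivity)
          · intro j _
            split_ifs
            · positivity
            · simp
        · push Not at hz
          have e1 : ∀ j : ℕ, ({z : ℝ × ℝ | 2 ^ j * H < u z}).indicator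
              (fun _ => ENNReal.ofReal ((2 ^ j * H) ^ q)) z = 0 := by
            intro j
            rw [indicator_of_notMem]
            intro h2
            have h3 : 2 ^ j * H < u z := h2
            have : 0 < 2 ^ j * H := by positivity
            linarith
          simp only [e1, Finset.sum_const_zero]
          exact zero_le
    _ = _ := by
        rw [lintegral_const_mul' _ _ ENNReal.ofReal_ne_top, ← mul_assoc]
        push_cast
        rfl

end Pool.Agent.TH218.DR
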