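import Mathlib
import Pool.Agent.TH218.DR.A21
set_option autoImplicit false

/-!
# Directional regularity, part 22: the exact inequality for functions with few monotonicity intervals
-/

namespace Pool.Agent.TH218.DR

open MeasureTheory Set Complex Filter Topology
open scoped ENNReal NNReal Real FourierTransform

/-- **The exact inequality, positive part.** -/
theorem modal_pos (K : ℕ) (a : ℝ) (ha : 1 / 2 < a) : ∃ C : ℝ≥0, ∀ u : ℝ × ℝ → ℝ, Measurable u →
    (∀ z, u z ≠ 0 → |z.1| ≤ 1 ∧ |z.2| ≤ 1) → (∀ x, Modal K (fun y => u (x, y))) →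
    ∫⁻ z : ℝ × ℝ × ℝ, ‖EQ (fun z => ((max (u z) 0 : ℝ) : ℂ)) z‖ₑ ^ (2 + 2 * a) ≤
      C * ∫⁻ z, ENNReal.ofReal (u z) ^ (2 + 2 * a) := by
  obtain ⟨b, hb0, hba, hSh⟩ := PC_low (2 * K) 1 0 a zero_le_one le_rfl ha (by linarith)
    (by norm_num)
  obtain ⟨C, hC⟩ := strong (PC (2 * K) 1 0) PC_nice a b hb0 hba hSh
  obtain ⟨G, hG⟩ := mass_sum' (2 + 2 * a) (by linarith)
  refine ⟨C * G + 1, ?_⟩
  intro u hu hs hm
  by_cases hN : ∫⁻ z, ENNReal.ofReal (u z) ^ (2 + 2 * a) = ∞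
  · rw [hN, ENNReal.mul_top]
    · exact le_top
    · simp
  have hfm : Measurable (fun z => ((max (u z) 0 : ℝ) : ℂ)) := by fun_prop
  have hi : Integrable (fun z => ((max (u z) 0 : ℝ) : ℂ)) := by
    refine box_int (L := 1) (q := 2 + 2 * a) hfm ?_ (by linarith) ?_
    · intro z hz
      apply hs
      intro h0
      apply hz
      rw [h0]
      simp
    · convert hN using 1
      refine lintegral_congr fun z => ?_
      congr 1
      rw [← ofReal_norm, Complex.norm_real, Real.norm_eq_abs, abs_of_nonneg (le_max_right _ _)]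
      rcases le_total (u z) 0 with h | h
      · rw [max_eq_right h, ENNReal.ofReal_zero, ENNReal.ofReal_of_nonpos h]
      · rw [max_eq_left h]
  refine fatou hi (fun J z => ((min (max (u z - (2 ^ J)⁻¹) 0)
    ((2 ^ (2 * J) - 1) * (2 ^ J)⁻¹) : ℝ) : ℂ)) ?_ ?_ ?_ _ _ ?_
  · intro J
    fun_prop
  · intro J z
    have hp : (0 : ℝ) < (2 ^ J)⁻¹ := by positivity
    have h1 : (1 : ℝ) ≤ 2 ^ (2 * J) := one_le_pow₀ (by norm_num)
    have h2 : (0 : ℝ) ≤ min (max (u z - (2 ^ J)⁻¹) 0) ((2 ^ (2 * J) - 1) * (2 ^ J)⁻¹) :=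
      le_min (le_max_right _ _) (mul_nonneg (by linarith) hp.le)
    rw [Complex.norm_real, Complex.norm_real, Real.norm_eq_abs, Real.norm_eq_abs,
      abs_of_nonneg h2, abs_of_nonneg (le_max_right (u z) 0)]
    refine (min_le_left _ _).trans ?_
    gcongr
    linarith
  · refine Eventually.of_forall fun z => ?_
    have hlim1 : Tendsto (fun J : ℕ => ((2 : ℝ) ^ J)⁻¹) atTop (𝓝 0) := by
      have := tendsto_pow_atTop_nhds_zero_of_lt_one (r := (2 : ℝ)⁻¹) (by norm_num) (by norm_num)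
      simpa [inv_pow] using this
    have hlim2 : Tendsto (fun J : ℕ => max (u z - (2 ^ J)⁻¹) 0) atTop (𝓝 (max (u z) 0)) := by
      have := (tendsto_const_nhds (x := u z)).sub hlim1
      rw [sub_zero] at this
      exact this.max tendsto_const_nhds
    have hev : ∀ᶠ J : ℕ in atTop, max (u z - (2 ^ J)⁻¹) 0 =
        min (max (u z - (2 ^ J)⁻¹) 0) ((2 ^ (2 * J) - 1) * (2 ^ J)⁻¹) := by
      obtain ⟨J0, hJ0⟩ := pow_unbounded_of_one_lt (max (u z) 0 + 1) (by norm_num : (1 : ℝ) < 2)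
      filter_upwards [eventually_ge_atTop J0] with J hJ
      rw [min_eq_left]
      have h1 : max (u z) 0 + 1 < (2 : ℝ) ^ J := hJ0.trans_le (pow_le_pow_right₀ (by norm_num) hJ)
      have hp : (0 : ℝ) < (2 ^ J)⁻¹ := by positivity
      have e : ((2 : ℝ) ^ (2 * J) - 1) * (2 ^ J)⁻¹ = 2 ^ J - (2 ^ J)⁻¹ := by
        have : (2 : ℝ) ^ J ≠ 0 := by positivity
        field_simp
        ring
      rw [e]
      have h2 : ((2 : ℝ) ^ J)⁻¹ ≤ 1 := inv_le_one_of_one_le₀ (one_le_pow₀ (by norm_num))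
      apply max_le
      · linarith [le_max_left (u z) 0]
      · linarith [le_max_right (u z) 0]
    have hlim3 := hlim2.congr' hev
    exact (Complex.continuous_ofReal.tendsto _).comp hlim3
  · intro J
    set H : ℝ := ((2 : ℝ) ^ J)⁻¹ with hH
    have hH0 : 0 < H := by positivity
    have hcl : ∀ j : ℕ, PC (2 * K) 1 0 (gm (2 ^ j * H) u)
        (4 * volume {z | 2 ^ j * H < u z}) := fun j => gm_cl hu hs hm (by positivity)
    have e : (fun z => ((min (max (u z - H) 0) ((2 ^ (2 * J) - 1) * H) : ℝ) : ℂ)) =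
        fun z => ∑ j ∈ Finset.range (2 * J), ((2 ^ j * H : ℝ) : ℂ) * gm (2 ^ j * H) u z := by
      ext z
      rw [← ph_sum (u z) H hH0 (2 * J), Complex.ofReal_sum]
      refine Finset.sum_congr rfl fun j _ => ?_
      unfold gm
      rw [← Complex.ofReal_mul, ← mul_assoc, mul_inv_cancel₀ (by positivity), one_mul]
    rw [e]
    calc ∫⁻ z : ℝ × ℝ × ℝ, ‖EQ (fun z => ∑ j ∈ Finset.range (2 * J),
          ((2 ^ j * H : ℝ) : ℂ) * gm (2 ^ j * H) u z) z‖ₑ ^ (2 + 2 * a)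
        = ∫⁻ z : ℝ × ℝ × ℝ, ‖∑ j ∈ Finset.range (2 * J),
          ((2 ^ j * H : ℝ) : ℂ) * EQ (gm (2 ^ j * H) u) z‖ₑ ^ (2 + 2 * a) := by
          refine lintegral_congr fun z => ?_
          rw [EQ_sum' _ _ _ (fun j => (PC_nice _ _ (hcl j)).1)]
      _ ≤ C * ∑ j ∈ Finset.range (2 * J), ENNReal.ofReal ((2 ^ j * H) ^ (2 + 2 * a)) *
            (4 * volume {z | 2 ^ j * H < u z}) := by
          have := hC (2 * J) H (fun j => gm (2 ^ j * H) u) _ hH0 hcl
          exact this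
      _ ≤ C * (G * ∫⁻ z, ENNReal.ofReal (u z) ^ (2 + 2 * a)) := by
          gcongr
          exact hG u hu H hH0 _
      _ = (C * G) * ∫⁻ z, ENNReal.ofReal (u z) ^ (2 + 2 * a) := by ring
      _ ≤ _ := by
          gcongr
          push_cast
          exact le_self_add

lemma four_q (b : Fin 4 → ℝ≥0∞) {q : ℝ} (hq : 1 ≤ q) :
    (∑ i, b i) ^ q ≤ 4 ^ (q - 1) * ∑ i, b i ^ q := by
  have := ENNReal.rpow_sum_le_const_mul_sum_rpow Finset.univ b hq
  simpa using this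

/-- the four real functions attached to `f` -/
def part (f : ℝ × ℝ → ℂ) (i : Fin 4) (z : ℝ × ℝ) : ℝ :=
  match i with
  | 0 => (f z).re
  | 1 => -(f z).re
  | 2 => (f z).im
  | 3 => -(f z).im

lemma part_meas {f : ℝ × ℝ → ℂ} (hf : Measurable f) (i : Fin 4) : Measurable (part f i) := by
  unfold part
  fin_cases i <;> simp only <;> fun_prop

lemma part_le (f : ℝ × ℝ → ℂ) (i : Fin 4) (z : ℝ × ℝ) : |part f i z| ≤ ‖f z‖ := by
  unfold part
  fin_cases i <;> simp only [abs_neg] <;> first | exact Complex.abs_re_le_norm _ |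
    exact Complex.abs_im_le_norm _

/-- **The exact inequality.** -/
theorem modal (K : ℕ) (a : ℝ) (ha : 1 / 2 < a) : ∃ C : ℝ≥0, ∀ f : ℝ × ℝ → ℂ, Measurable f →
    (∀ z, f z ≠ 0 → |z.1| ≤ 1 ∧ |z.2| ≤ 1) → (∀ i x, Modal K (fun y => part f i (x, y))) →
    ∫⁻ z : ℝ × ℝ × ℝ, ‖EQ f z‖ₑ ^ (2 + 2 * a) ≤ C * ∫⁻ z, ‖f z‖ₑ ^ (2 + 2 * a) := by
  obtain ⟨C, hC⟩ := modal_pos K a ha
  refine ⟨4 ^ (2 + 2 * a - 1) * (4 * C) + 1, ?_⟩
  intro f hf hs hm
  by_cases hN : ∫⁻ z, ‖f z‖ₑ ^ (2 + 2 * a) = ∞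
  · rw [hN, ENNReal.mul_top]
    · exact le_top
    · simp
  have hi : Integrable f := box_int (L := 1) hf hs (by linarith) hN
  have hps : ∀ i z, part f i z ≠ 0 → |z.1| ≤ 1 ∧ |z.2| ≤ 1 := by
    intro i z hz
    apply hs
    intro h0
    apply hz
    have := part_le f i z
    rw [h0, norm_zero] at this
    exact abs_nonpos_iff.1 this
  have hpi : ∀ i, Integrable (fun z => ((max (part f i z) 0 : ℝ) : ℂ)) := by
    intro i
    refine hi.mono ?_ (Eventually.of_forall fun z => ?_)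
    · have := part_meas hf i
      have h2 : Measurable (fun z => ((max (part f i z) 0 : ℝ) : ℂ)) := by fun_prop
      exact h2.aestronglyMeasurable
    · rw [Complex.norm_real, Real.norm_eq_abs, abs_of_nonneg (le_max_right _ _)]
      exact max_le ((le_abs_self _).trans (part_le f i z)) (norm_nonneg _)
  have hee : ∀ (g : ℝ × ℝ → ℂ) (q : ℝ × ℝ × ℝ), Integrable g → Integrable (fun z : ℝ × ℝ =>
      ee (z.1 * q.2.1 + z.2 * q.2.2 + (z.1 ^ 2 + z.2 ^ 2) * q.1) * g z) := by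
    intro g q hg
    have hem := ee_meas
    refine hg.bdd_mul (c := 1) ?_ ?_
    · have : Measurable (fun z : ℝ × ℝ =>
        ee (z.1 * q.2.1 + z.2 * q.2.2 + (z.1 ^ 2 + z.2 ^ 2) * q.1)) := by fun_prop
      exact this.aestronglyMeasurable
    · exact Eventually.of_forall fun z => (ee_norm _).le
  have hdec : ∀ z, f z = ((max (part f 0 z) 0 : ℝ) : ℂ) - ((max (part f 1 z) 0 : ℝ) : ℂ) +
      I * (((max (part f 2 z) 0 : ℝ) : ℂ) - ((max (part f 3 z) 0 : ℝ) : ℂ)) := by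
    intro z
    have key : ∀ r : ℝ, max r 0 - max (-r) 0 = r := by
      intro r
      rcases le_total r 0 with h | h
      · rw [max_eq_right h, max_eq_left (by linarith)]
        ring
      · rw [max_eq_left h, max_eq_right (by linarith)]
        ring
    rw [← Complex.ofReal_sub, ← Complex.ofReal_sub]
    show f z = ((max (f z).re 0 - max (-(f z).re) 0 : ℝ) : ℂ) +
      I * ((max (f z).im 0 - max (-(f z).im) 0 : ℝ) : ℂ)
    rw [key, key, mul_comm]
    exact (Complex.re_add_im (f z)).symm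
  have hEQ : ∀ q, EQ f q = (EQ (fun z => ((max (part f 0 z) 0 : ℝ) : ℂ)) q -
      EQ (fun z => ((max (part f 1 z) 0 : ℝ) : ℂ)) q) +
      I * (EQ (fun z => ((max (part f 2 z) 0 : ℝ) : ℂ)) q -
        EQ (fun z => ((max (part f 3 z) 0 : ℝ) : ℂ)) q) := by
    intro q
    unfold EQ EX
    set E : Fin 4 → ℝ × ℝ → ℂ := fun i z =>
      ee (z.1 * q.2.1 + z.2 * q.2.2 + (z.1 ^ 2 + z.2 ^ 2) * q.1) *
        ((max (part f i z) 0 : ℝ) : ℂ) with hE
    have hEi : ∀ i, Integrable (E i) := fun i => hee _ q (hpi i)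
    have e1 : ∫ z : ℝ × ℝ, ee (z.1 * q.2.1 + z.2 * q.2.2 + (z.1 ^ 2 + z.2 ^ 2) * q.1) * f z =
        ∫ z, ((E 0 z - E 1 z) + I * (E 2 z - E 3 z)) := by
      congr 1
      ext z
      rw [hdec z, hE]
      ring
    rw [e1, integral_add (f := fun z => E 0 z - E 1 z) (g := fun z => I * (E 2 z - E 3 z))
      ((hEi 0).sub (hEi 1)) (((hEi 2).sub (hEi 3)).const_mul I), integral_sub (hEi 0) (hEi 1),
      integral_const_mul, integral_sub (hEi 2) (hEi 3)]
  have hnorm : ∀ q, ‖EQ f q‖ₑ ≤ ∑ i : Fin 4, ‖EQ (fun z => ((max (part f i z) 0 : ℝ) : ℂ)) q‖ₑ := by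
    intro q
    rw [hEQ q, Fin.sum_univ_four]
    refine (enorm_add_le _ _).trans ?_
    rw [add_assoc (_ + _)]
    apply add_le_add
    · exact enorm_sub_le
    · rw [enorm_mul]
      have : ‖I‖ₑ = 1 := by
        rw [← ofReal_norm, Complex.norm_I, ENNReal.ofReal_one]
      rw [this, one_mul]
      exact enorm_sub_le
  calc ∫⁻ z : ℝ × ℝ × ℝ, ‖EQ f z‖ₑ ^ (2 + 2 * a)
      ≤ ∫⁻ z : ℝ × ℝ × ℝ, 4 ^ (2 + 2 * a - 1) *
          ∑ i : Fin 4, ‖EQ (fun z => ((max (part f i z) 0 : ℝ) : ℂ)) z‖ₑ ^ (2 + 2 * a) := by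
        refine lintegral_mono fun q => ?_
        refine le_trans ?_ (four_q _ (by linarith))
        exact ENNReal.rpow_le_rpow (hnorm q) (by linarith)
    _ = 4 ^ (2 + 2 * a - 1) * ∑ i : Fin 4, ∫⁻ z : ℝ × ℝ × ℝ,
          ‖EQ (fun z => ((max (part f i z) 0 : ℝ) : ℂ)) z‖ₑ ^ (2 + 2 * a) := by
        have hmi : ∀ i : Fin 4, Measurable fun z : ℝ × ℝ × ℝ =>
            ‖EQ (fun z => ((max (part f i z) 0 : ℝ) : ℂ)) z‖ₑ ^ (2 + 2 * a) := by
          intro i
          have := part_meas hf i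
          exact (EQ_meas (by fun_prop)).enorm.pow_const _
        rw [lintegral_const_mul _ (Finset.measurable_sum _ fun i _ => hmi i),
          lintegral_finsetSum _ (fun i _ => hmi i)]
    _ ≤ 4 ^ (2 + 2 * a - 1) * ∑ _i : Fin 4, C * ∫⁻ z, ‖f z‖ₑ ^ (2 + 2 * a) := by
        gcongr with i _
        refine (hC (part f i) (part_meas hf i) (hps i) (hm i)).trans ?_
        gcongr with z
        rw [← ofReal_norm]
        exact ENNReal.ofReal_le_ofReal ((le_abs_self _).trans (part_le f i z))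
    _ = (4 ^ (2 + 2 * a - 1) * (4 * C)) * ∫⁻ z, ‖f z‖ₑ ^ (2 + 2 * a) := by
        rw [Finset.sum_const, Finset.card_univ, Fintype.card_fin, nsmul_eq_mul]
        push_cast
        ring
    _ ≤ _ := by
        gcongr
        rw [ENNReal.coe_add, ENNReal.coe_mul, ENNReal.coe_mul,
          ENNReal.coe_rpow_of_nonneg _ (by linarith)]
        push_cast
        exact le_self_add

end Pool.Agent.TH218.DR
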