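import Mathlib
import Pool.Agent.TH218.DR.A22
set_option autoImplicit false

/-!
# Directional regularity, part 23: almost every line
-/

namespace Pool.Agent.TH218.DR

open MeasureTheory Set Complex Filter Topology
open scoped ENNReal NNReal Real FourierTransform

/-- `f` with the lines over `T` removed -/
noncomputable def cut (T : Set ℝ) (f : ℝ × ℝ → ℂ) : ℝ × ℝ → ℂ := (Prod.fst ⁻¹' Tᶜ).indicator f

lemma cut_of {T : Set ℝ} (f : ℝ × ℝ → ℂ) {x : ℝ} (hx : x ∉ T) (y : ℝ) : cut T f (x, y) = f (x, y) :=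
  indicator_of_mem (show (x, y) ∈ Prod.fst ⁻¹' Tᶜ from hx) f

lemma cut_in {T : Set ℝ} (f : ℝ × ℝ → ℂ) {x : ℝ} (hx : x ∈ T) (y : ℝ) : cut T f (x, y) = 0 :=
  indicator_of_notMem (show (x, y) ∉ Prod.fst ⁻¹' Tᶜ from fun h => h hx) f

lemma cut_meas {T : Set ℝ} (hT : MeasurableSet T) {f : ℝ × ℝ → ℂ} (hf : Measurable f) :
    Measurable (cut T f) := hf.indicator (measurable_fst hT.compl)

lemma cut_ae {T : Set ℝ} (h0 : volume T = 0) (f : ℝ × ℝ → ℂ) : cut T f =ᵐ[volume] f := by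
  have h1 : volume (Prod.fst ⁻¹' T : Set (ℝ × ℝ)) = 0 := by
    have e : (Prod.fst ⁻¹' T : Set (ℝ × ℝ)) = T ×ˢ univ := by
      ext z
      simp
    rw [e, Measure.volume_eq_prod, Measure.prod_prod, h0, zero_mul]
  have h2 : ∀ᵐ z : ℝ × ℝ, z.1 ∉ T := measure_eq_zero_iff_ae_notMem.1 h1
  filter_upwards [h2] with z hz
  exact cut_of f hz z.2

lemma EQ_cut {T : Set ℝ} (h0 : volume T = 0) (f : ℝ × ℝ → ℂ) (q : ℝ × ℝ × ℝ) :
    EQ (cut T f) q = EQ f q := by
  unfold EQ EX
  apply integral_congr_ae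
  filter_upwards [cut_ae h0 f] with z hz
  rw [hz]

lemma null_set {P : ℝ → Prop} (h : ∀ᵐ x, P x) :
    ∃ T : Set ℝ, MeasurableSet T ∧ volume T = 0 ∧ ∀ x, x ∉ T → P x := by
  refine ⟨toMeasurable volume {x | ¬ P x}, measurableSet_toMeasurable _ _, ?_, ?_⟩
  · rw [measure_toMeasurable]
    exact h
  · intro x hx
    by_contra hP
    exact hx (subset_toMeasurable _ _ hP)

lemma cut_supp {T : Set ℝ} {f : ℝ × ℝ → ℂ} (hs : ∀ z, f z ≠ 0 → |z.1| ≤ 1 ∧ |z.2| ≤ 1) (z : ℝ × ℝ)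
    (hz : cut T f z ≠ 0) : |z.1| ≤ 1 ∧ |z.2| ≤ 1 := by
  apply hs
  intro h0
  apply hz
  by_cases h : z.1 ∈ T
  · exact cut_in f h z.2
  · rw [show cut T f z = f z from cut_of f h z.2, h0]

lemma modal_zero (K : ℕ) : Modal K (fun _ => 0) := by
  intro l hl
  refine ⟨fun _ => ∅, fun _ => ordConnected_empty, ?_⟩
  ext y
  simp only [mem_ofPred_eq, iUnion_empty, mem_empty_iff_false, iff_false, not_lt]
  exact hl.le

/-- **The exact inequality, almost every line.** -/
theorem modal_ae (K : ℕ) (q : ℝ) (hq : 3 < q) : ∃ C : ℝ≥0, ∀ f : ℝ × ℝ → ℂ, Measurable f →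
    (∀ z, f z ≠ 0 → |z.1| ≤ 1 ∧ |z.2| ≤ 1) →
    (∀ᵐ x : ℝ, ∀ i, Modal K (fun y => part f i (x, y))) →
    ∫⁻ z : ℝ × ℝ × ℝ, ‖EQ f z‖ₑ ^ q ≤ C * ∫⁻ z, ‖f z‖ₑ ^ q := by
  obtain ⟨C, hC⟩ := modal K ((q - 2) / 2) (by linarith)
  have e : 2 + 2 * ((q - 2) / 2) = q := by ring
  rw [e] at hC
  refine ⟨C, fun f hf hs hm => ?_⟩
  obtain ⟨T, hT, hT0, hTP⟩ := null_set hm
  have h1 := hC (cut T f) (cut_meas hT hf) (cut_supp hs) (by
    intro i x
    by_cases hx : x ∈ T
    · have : (fun y => part (cut T f) i (x, y)) = fun _ => 0 := by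
        ext y
        unfold part
        rw [cut_in f hx y]
        fin_cases i <;> simp
      rw [this]
      exact modal_zero K
    · have : (fun y => part (cut T f) i (x, y)) = fun y => part f i (x, y) := by
        ext y
        unfold part
        rw [cut_of f hx y]
      rw [this]
      exact hTP x hx i)
  simp only [EQ_cut hT0] at h1
  refine h1.trans (le_of_eq ?_)
  congr 1
  apply lintegral_congr_ae
  filter_upwards [cut_ae hT0 f] with z hz
  rw [hz]

/-- **The unified theorem, almost every line.** -/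
theorem unified_ae (K : ℝ≥0) (s q : ℝ) (hs : 0 < s) (hs2 : s ≤ 1 / 2) (hq : 3 < q)
    (hsq : 4 < q * (1 + 2 * s)) :
    ∃ C : ℝ≥0, ∀ (f : ℝ × ℝ → ℂ) (M : ℝ × ℝ → ℝ), Measurable f → Measurable M →
      (∀ z, ‖f z‖ ≤ M z) → (∀ z, M z ≠ 0 → |z.1| ≤ 1 ∧ |z.2| ≤ 1) →
      (∀ᵐ x : ℝ, ∀ (j : ℤ) (h : ℝ), 0 < h → h ≤ 1 →
        ∫⁻ y, ‖lv f M (2 ^ j) (x, y + h) - lv f M (2 ^ j) (x, y)‖ₑ ^ 2 ≤
          K * ENNReal.ofReal (((2 : ℝ) ^ j) ^ 2 * h ^ (2 * s)) *
            len (Lv M (2 ^ j)) x ^ (1 - 2 * s)) →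
      ∫⁻ z : ℝ × ℝ × ℝ, ‖EQ f z‖ₑ ^ q ≤ C * ∫⁻ z, ENNReal.ofReal (M z) ^ q := by
  obtain ⟨C, hC⟩ := unified K s ((q - 2) / 2) hs hs2 (by linarith) (by nlinarith)
  have e : 2 + 2 * ((q - 2) / 2) = q := by ring
  rw [e] at hC
  refine ⟨C, fun f M hf hM hbd hsu hm => ?_⟩
  obtain ⟨T, hT, hT0, hTP⟩ := null_set hm
  have hlv_in : ∀ (t x y : ℝ), x ∈ T → lv (cut T f) M t (x, y) = 0 := by
    intro t x y hx
    unfold lv
    by_cases hz : (x, y) ∈ Lv M t
    · rw [indicator_of_mem hz, cut_in f hx y]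
    · rw [indicator_of_notMem hz]
  have hlv_of : ∀ (t x y : ℝ), x ∉ T → lv (cut T f) M t (x, y) = lv f M t (x, y) := by
    intro t x y hx
    unfold lv
    by_cases hz : (x, y) ∈ Lv M t
    · rw [indicator_of_mem hz, indicator_of_mem hz, cut_of f hx y]
    · rw [indicator_of_notMem hz, indicator_of_notMem hz]
  have hun : Un (cut T f) M K s := by
    refine ⟨cut_meas hT hf, hM, ?_, hsu, ?_⟩
    · rintro ⟨x, y⟩
      by_cases hx : x ∈ T
      · rw [cut_in f hx y, norm_zero]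
        exact (norm_nonneg _).trans (hbd (x, y))
      · rw [cut_of f hx y]
        exact hbd _
    · intro x j h hh hh1
      by_cases hx : x ∈ T
      · simp [hlv_in _ _ _ hx]
      · simp only [hlv_of _ _ _ hx]
        exact hTP x hx j h hh hh1
  have h1 := hC (cut T f) M hun
  simp only [EQ_cut hT0] at h1
  exact h1

/-- **The mixed norm theorem, almost every line.** -/
theorem mixed_ae (s q : ℝ) (hs : 0 < s) (hs2 : s ≤ 1 / 2) (hq : 3 < q)
    (hsq : 4 < q * (1 + 2 * s)) :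
    ∃ C : ℝ≥0, ∀ (f : ℝ × ℝ → ℂ) (N : ℝ → ℝ), Measurable f → Measurable N →
      (∀ z, f z ≠ 0 → |z.1| ≤ 1 ∧ |z.2| ≤ 1) → (∀ x y, ‖f (x, y)‖ ≤ N x) →
      (∀ᵐ x : ℝ, ∀ h : ℝ, 0 < h → h ≤ 1 →
        ∫⁻ y, ‖f (x, y + h) - f (x, y)‖ₑ ^ 2 ≤ ENNReal.ofReal (N x ^ 2 * h ^ (2 * s))) →
      ∫⁻ z : ℝ × ℝ × ℝ, ‖EQ f z‖ₑ ^ q ≤ C * ∫⁻ x, ENNReal.ofReal (N x) ^ q := by
  obtain ⟨C, hC⟩ := unified_ae 1 s q hs hs2 hq hsq
  refine ⟨C * 2, fun f N hf hN hsu hbd hm => ?_⟩
  set M : ℝ × ℝ → ℝ := (box 1).indicator fun z => N z.1 with hMdef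
  have hMm : Measurable M := (hN.comp measurable_fst).indicator (box_meas 1)
  have hN0 : ∀ x, 0 ≤ N x := fun x => (norm_nonneg _).trans (hbd x 0)
  have hfoff : ∀ z, z ∉ box 1 → f z = 0 := by
    intro z hz
    by_contra hc
    have := hsu z hc
    exact hz ⟨abs_le.1 this.1, abs_le.1 this.2⟩
  have hMin : ∀ z, z ∈ box 1 → M z = N z.1 := fun z hz => indicator_of_mem hz _
  have hMout : ∀ z, z ∉ box 1 → M z = 0 := fun z hz => indicator_of_notMem hz _
  have h1 := hC f M hf hMm ?_ ?_ ?_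
  · refine h1.trans ?_
    have hmass : ∫⁻ z, ENNReal.ofReal (M z) ^ q ≤ 2 * ∫⁻ x, ENNReal.ofReal (N x) ^ q := by
      calc ∫⁻ z, ENNReal.ofReal (M z) ^ q
          ≤ ∫⁻ z : ℝ × ℝ, ENNReal.ofReal (N z.1) ^ q *
            (Icc (-1 : ℝ) 1).indicator (fun _ => (1 : ℝ≥0∞)) z.2 := by
            refine lintegral_mono fun z => ?_
            by_cases hz : z ∈ box 1
            · rw [hMin z hz, indicator_of_mem hz.2, mul_one]
            · rw [hMout z hz, ENNReal.ofReal_zero, ENNReal.zero_rpow_of_pos (by linarith)]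
              exact zero_le
        _ = (∫⁻ x, ENNReal.ofReal (N x) ^ q) *
            ∫⁻ y : ℝ, (Icc (-1 : ℝ) 1).indicator (fun _ => (1 : ℝ≥0∞)) y := by
            rw [Measure.volume_eq_prod]
            exact lintegral_prod_mul
              (by fun_prop : Measurable fun x => ENNReal.ofReal (N x) ^ q).aemeasurable
              ((measurable_const (a := (1 : ℝ≥0∞))).indicator measurableSet_Icc).aemeasurable
        _ = _ := by
            rw [lintegral_indicator measurableSet_Icc, setLIntegral_one, Real.volume_Icc, mul_comm]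
            norm_num
    calc (C : ℝ≥0∞) * ∫⁻ z, ENNReal.ofReal (M z) ^ q
        ≤ C * (2 * ∫⁻ x, ENNReal.ofReal (N x) ^ q) := by gcongr
      _ = _ := by
          push_cast
          ring
  · intro z
    by_cases hz : z ∈ box 1
    · rw [hMin z hz]
      exact hbd z.1 z.2
    · rw [hMout z hz, hfoff z hz, norm_zero]
  · intro z hz
    by_cases hz' : z ∈ box 1
    · exact ⟨abs_le.2 hz'.1, abs_le.2 hz'.2⟩
    · exact absurd (hMout z hz') hz
  · filter_upwards [hm] with x hx j h hh hh1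
    have ht0 : (0 : ℝ) < 2 ^ j := by positivity
    -- either the whole line or nothing
    by_cases hlev : (2 : ℝ) ^ j < 2 * N x ∧ N x ≤ 2 ^ j
    · have hpc : ∀ y, lv f M (2 ^ j) (x, y) = f (x, y) := by
        intro y
        by_cases hz : (x, y) ∈ box 1
        · have : (x, y) ∈ Lv M (2 ^ j) := by
            show (2 : ℝ) ^ j < 2 * M (x, y) ∧ M (x, y) ≤ 2 ^ j
            rw [hMin _ hz]
            exact hlev
          exact indicator_of_mem this f
        · rw [hfoff _ hz]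
          unfold lv
          by_cases h' : (x, y) ∈ Lv M (2 ^ j)
          · rw [indicator_of_mem h', hfoff _ hz]
          · rw [indicator_of_notMem h']
      simp only [hpc]
      by_cases hx1 : x ∈ Icc (-1 : ℝ) 1
      · refine (hx h hh hh1).trans ?_
        have hlen : 1 ≤ len (Lv M (2 ^ j)) x := by
          unfold len
          calc (1 : ℝ≥0∞) ≤ volume (Icc (-1 : ℝ) 1) := by
                rw [Real.volume_Icc]
                norm_num
            _ ≤ _ := by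
                apply measure_mono
                intro y hy
                show (2 : ℝ) ^ j < 2 * M (x, y) ∧ M (x, y) ≤ 2 ^ j
                rw [hMin (x, y) ⟨hx1, hy⟩]
                exact hlev
        calc ENNReal.ofReal (N x ^ 2 * h ^ (2 * s))
            ≤ ENNReal.ofReal (((2 : ℝ) ^ j) ^ 2 * h ^ (2 * s)) := by
              apply ENNReal.ofReal_le_ofReal
              have := hN0 x
              gcongr
              exact hlev.2
          _ = ((1 : ℝ≥0) : ℝ≥0∞) * ENNReal.ofReal (((2 : ℝ) ^ j) ^ 2 * h ^ (2 * s)) * 1 := by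
              simp
          _ ≤ _ := by
              gcongr
              calc (1 : ℝ≥0∞) = 1 ^ (1 - 2 * s) := (ENNReal.one_rpow _).symm
                _ ≤ _ := ENNReal.rpow_le_rpow hlen (by linarith)
      · have hz : ∀ y, f (x, y) = 0 := fun y => hfoff _ fun hb => hx1 hb.1
        simp [hz]
    · have hpc : ∀ y, lv f M (2 ^ j) (x, y) = 0 := by
        intro y
        unfold lv
        rw [indicator_of_notMem]
        intro hz
        have hz' : (2 : ℝ) ^ j < 2 * M (x, y) ∧ M (x, y) ≤ 2 ^ j := hz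
        by_cases hb : (x, y) ∈ box 1
        · rw [hMin _ hb] at hz'
          exact hlev hz'
        · rw [hMout _ hb] at hz'
          linarith [hz'.1]
      simp [hpc]

end Pool.Agent.TH218.DR
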