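import Mathlib
import Pool.Agent.TH218.DR.A23
set_option autoImplicit false

/-!
# Directional regularity, part 24: polynomials on intervals
-/

namespace Pool.Agent.TH218.DR

open MeasureTheory Set Filter Topology Polynomial
open scoped ENNReal NNReal Real

/-- the roots of `P` to the left of `y` -/
noncomputable def lr (P : ℝ[X]) (y : ℝ) : Finset ℝ := P.roots.toFinset.filter (· < y)

lemma lr_mono (P : ℝ[X]) {y z : ℝ} (h : y ≤ z) : lr P y ⊆ lr P z := by
  intro r hr
  unfold lr at hr ⊢
  rw [Finset.mem_filter] at hr ⊢
  exact ⟨hr.1, hr.2.trans_le h⟩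

lemma poly_modal (d : ℕ) (p : ℝ[X]) (hp : p.natDegree ≤ d) (α β : ℝ) :
    Modal (d + 1) (fun y => if α < y ∧ y < β then p.eval y else 0) := by
  intro l hl
  set P : ℝ[X] := p - Polynomial.C l with hP
  have hPd : P.natDegree ≤ d := by
    rw [hP]
    exact (natDegree_sub_C (p := p) (a := l)).le.trans hp
  have hev : ∀ y, P.eval y = p.eval y - l := by
    intro y
    rw [hP, eval_sub, eval_C]
  refine ⟨fun i => {y | (α < y ∧ y < β) ∧ l < p.eval y ∧ (lr P y).card = i}, ?_, ?_⟩
  · intro i
    refine ⟨?_⟩
    rintro y1 ⟨⟨a1, b1⟩, p1, c1⟩ y2 ⟨⟨a2, b2⟩, p2, c2⟩ z ⟨hz1, hz2⟩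
    have hP0 : P ≠ 0 := by
      intro h0
      have := hev y1
      rw [h0, eval_zero] at this
      linarith
    refine ⟨⟨by linarith, by linarith⟩, ?_, ?_⟩
    · by_contra hc
      push Not at hc
      have hcont : ContinuousOn (fun y => p.eval y) (Icc y1 z) := p.continuous.continuousOn
      obtain ⟨r, hr, hrl⟩ := intermediate_value_Icc' hz1 hcont ⟨hc, p1.le⟩
      simp only at hrl
      have hroot : r ∈ P.roots.toFinset := by
        rw [Multiset.mem_toFinset, mem_roots hP0, IsRoot, hev, hrl, sub_self]
      have hr1 : y1 ≤ r := hr.1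
      have hr2 : r < y2 := by
        rcases (hr.2.trans hz2).lt_or_eq with h | h
        · exact h
        · exfalso
          rw [h] at hrl
          linarith
      have hlt : (lr P y1).card < (lr P y2).card := by
        apply Finset.card_lt_card
        refine Finset.ssubset_iff_subset_ne.2 ⟨lr_mono P (hz1.trans hz2), ?_⟩
        intro he
        have h3 : r ∈ lr P y2 := by
          unfold lr
          rw [Finset.mem_filter]
          exact ⟨hroot, hr2⟩
        rw [← he] at h3
        unfold lr at h3
        rw [Finset.mem_filter] at h3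
        linarith [h3.2]
      rw [c1, c2] at hlt
      exact absurd hlt (lt_irrefl _)
    · have h1 := Finset.card_le_card (lr_mono P hz1)
      have h2 := Finset.card_le_card (lr_mono P hz2)
      rw [c1] at h1
      rw [c2] at h2
      exact le_antisymm h2 h1
  · ext y
    rw [mem_iUnion]
    constructor
    · intro hy
      have hy' : l < (if α < y ∧ y < β then p.eval y else 0) := hy
      by_cases hc : α < y ∧ y < β
      · rw [if_pos hc] at hy'
        have hcard : (lr P y).card < d + 1 := by
          have h1 : (lr P y).card ≤ P.roots.toFinset.card := Finset.card_filter_le _ _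
          have h2 := Multiset.toFinset_card_le P.roots
          have h3 := P.card_roots'
          omega
        exact ⟨⟨(lr P y).card, hcard⟩, hc, hy', rfl⟩
      · rw [if_neg hc] at hy'
        linarith
    · rintro ⟨i, hc, hl', -⟩
      show l < (if α < y ∧ y < β then p.eval y else 0)
      rw [if_pos hc]
      exact hl'

end Pool.Agent.TH218.DR
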